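import Pool.Agent.X146.Yau.Step

set_option autoImplicit false

/-! Zeros of sums of solutions of `φ'' = -(q + μ) φ`. -/

namespace Pool.Agent.X146.Yau

open Set Filter Topology

/-- `φ'' = -Q φ`; `φ'` is the derivative of `φ`. -/
structure IsSol (Q φ φ' : ℝ → ℝ) : Prop where
  d1 : ∀ x, HasDerivAt φ (φ' x) x
  d2 : ∀ x, HasDerivAt φ' (-(Q x * φ x)) x

lemma IsSol.cont {Q φ φ' : ℝ → ℝ} (h : IsSol Q φ φ') : Continuous φ :=
  continuous_iff_continuousAt.mpr fun x => (h.d1 x).continuousAt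

lemma IsSol.cont' {Q φ φ' : ℝ → ℝ} (h : IsSol Q φ φ') : Continuous φ' :=
  continuous_iff_continuousAt.mpr fun x => (h.d2 x).continuousAt

lemma periodic_deriv {φ φ' : ℝ → ℝ} (h : ∀ x, HasDerivAt φ (φ' x) x) {α : ℝ}
    (hp : Function.Periodic φ α) : Function.Periodic φ' α := by
  intro x
  have h1 := (h (x + α)).comp_add_const x α
  have h2 : (fun y => φ (y + α)) = φ := funext hp
  rw [h2] at h1
  exact h1.unique (h x)

/-- uniqueness -/
lemma IsSol.zero {Q φ φ' : ℝ → ℝ} (h : IsSol Q φ φ') {K : ℝ} (hK : ∀ x, |Q x| ≤ K) {x₀ : ℝ}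
    (h0 : φ x₀ = 0) (h1 : φ' x₀ = 0) : ∀ x, φ x = 0 := by
  have hK0 : 0 ≤ K := (abs_nonneg _).trans (hK 0)
  have := ODE_solution_unique_univ (E := ℝ × ℝ) (v := fun t p => (p.2, -(Q t * p.1)))
    (s := fun _ => univ) (K := Real.toNNReal (K + 1)) (t₀ := x₀) (f := fun x => (φ x, φ' x))
    (g := fun _ => (0, 0)) (fun t => by
      refine (LipschitzWith.of_dist_le_mul fun p q => ?_).lipschitzOnWith
      rw [Real.coe_toNNReal _ (by linarith), Prod.dist_eq, Prod.dist_eq]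
      simp only [Real.dist_eq]
      have h1 : |p.1 - q.1| ≤ max |p.1 - q.1| |p.2 - q.2| := le_max_left _ _
      have h2 : |p.2 - q.2| ≤ max |p.1 - q.1| |p.2 - q.2| := le_max_right _ _
      have h3 : 0 ≤ max |p.1 - q.1| |p.2 - q.2| := (abs_nonneg _).trans h1
      refine max_le ?_ ?_
      · nlinarith
      · have h4 : -(Q t * p.1) - -(Q t * q.1) = -(Q t * (p.1 - q.1)) := by ring
        rw [h4, abs_neg, abs_mul]
        have := hK t
        nlinarith [abs_nonneg (p.1 - q.1), abs_nonneg (Q t)])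
    (fun t => ⟨(h.d1 t).prodMk (h.d2 t), trivial⟩) (fun t => ⟨by
      have := hasDerivAt_const t ((0 : ℝ), (0 : ℝ))
      refine this.congr_deriv ?_
      simp only [mul_zero, neg_zero]
      rfl, trivial⟩) (by simp [h0, h1])
  intro x
  have h2 := congrFun this x
  simp only [Prod.mk.injEq] at h2
  exact h2.1

/-- a nontrivial periodic solution: `|φ| + |φ'|` is bounded below. -/
lemma IsSol.lower {Q φ φ' : ℝ → ℝ} (h : IsSol Q φ φ') {K : ℝ} (hK : ∀ x, |Q x| ≤ K) {α : ℝ}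
    (hα : 0 < α) (hp : Function.Periodic φ α) (hne : ∃ x, φ x ≠ 0) :
    ∃ c : ℝ, 0 < c ∧ ∀ x, c ≤ |φ x| + |φ' x| := by
  have hp' := periodic_deriv h.d1 hp
  obtain ⟨x₀, -, hx₀⟩ := (isCompact_Icc (a := (0 : ℝ)) (b := α)).exists_isMinOn
    (nonempty_Icc.mpr hα.le) (f := fun x => |φ x| + |φ' x|)
    ((h.cont.abs.add h.cont'.abs).continuousOn)
  refine ⟨|φ x₀| + |φ' x₀|, ?_, ?_⟩
  · by_contra hcon
    have h1 : |φ x₀| = 0 := by linarith [abs_nonneg (φ x₀), abs_nonneg (φ' x₀)]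
    have h2 : |φ' x₀| = 0 := by linarith [abs_nonneg (φ x₀), abs_nonneg (φ' x₀)]
    obtain ⟨x, hx⟩ := hne
    exact hx (h.zero hK (abs_eq_zero.mp h1) (abs_eq_zero.mp h2) x)
  · intro x
    obtain ⟨y, hy, hxy⟩ := (show Function.Periodic (fun x => |φ x| + |φ' x|) α from fun x => by
      simp only [hp x, hp' x]).exists_mem_Ico₀ hα x
    rw [hxy]
    exact hx₀ (mem_Icc_of_Ico hy)

/-- smallness propagates over short intervals -/
lemma IsSol.small {Q φ φ' : ℝ → ℝ} (h : IsSol Q φ φ') {K d : ℝ} (hK : ∀ x, |Q x| ≤ K)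
    (hd0 : 0 ≤ d) (hKd : K * d ^ 2 < 1) {x ξ ε : ℝ} (hx : |x - ξ| ≤ d) (hφ : |φ x| ≤ ε)
    (hφ' : |φ' ξ| ≤ ε) :
    |φ x| + |φ' x| ≤ ε * (2 + K * d * ((1 + d) / (1 - K * d ^ 2))) := by
  have hK0 : 0 ≤ K := (abs_nonneg _).trans (hK 0)
  have hε : 0 ≤ ε := (abs_nonneg _).trans hφ
  obtain ⟨η, hη, hmax⟩ := (isCompact_uIcc (a := x) (b := ξ)).exists_isMaxOn
    nonempty_uIcc (f := fun s => |φ s|) h.cont.abs.continuousOn
  set M := |φ η| with hM
  have hM0 : 0 ≤ M := abs_nonneg _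
  have hle : ∀ s ∈ uIcc x ξ, |φ s| ≤ M := fun s hs => hmax hs
  have hxx := abs_le.mp hx
  have hd' : ∀ s ∈ uIcc x ξ, |s - ξ| ≤ d := fun s hs => by
    rcases mem_uIcc.mp hs with h | h <;> rw [abs_le] <;> constructor <;> linarith [h.1, h.2, hxx.1, hxx.2]
  have hd'' : ∀ s ∈ uIcc x ξ, |s - x| ≤ d := fun s hs => by
    rcases mem_uIcc.mp hs with h | h <;> rw [abs_le] <;> constructor <;> linarith [h.1, h.2, hxx.1, hxx.2]
  -- derivative
  have h1 : ∀ s ∈ uIcc x ξ, |φ' s| ≤ ε + K * M * d := by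
    intro s hs
    have h2 := Convex.norm_image_sub_le_of_norm_hasDerivWithin_le (s := uIcc x ξ) (f := φ')
      (f' := fun s => -(Q s * φ s)) (C := K * M) (x := ξ) (y := s)
      (fun t _ => (h.d2 t).hasDerivWithinAt) (fun t ht => by
        rw [Real.norm_eq_abs, abs_neg, abs_mul]
        exact mul_le_mul (hK t) (hle t ht) (abs_nonneg _) hK0) (convex_uIcc x ξ) right_mem_uIcc hs
    rw [Real.norm_eq_abs, Real.norm_eq_abs] at h2
    have h3 : K * M * |s - ξ| ≤ K * M * d :=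
      mul_le_mul_of_nonneg_left (hd' s hs) (by positivity)
    have h4 : |φ' s| ≤ |φ' ξ| + |φ' s - φ' ξ| := by
      have := abs_add_le (φ' ξ) (φ' s - φ' ξ)
      simpa using this
    linarith
  have h5 : M ≤ ε + (ε + K * M * d) * d := by
    have h2 := Convex.norm_image_sub_le_of_norm_hasDerivWithin_le (s := uIcc x ξ) (f := φ)
      (f' := φ') (C := ε + K * M * d) (x := x) (y := η)
      (fun t _ => (h.d1 t).hasDerivWithinAt) (fun t ht => by
        rw [Real.norm_eq_abs]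
        exact h1 t ht) (convex_uIcc x ξ) left_mem_uIcc hη
    rw [Real.norm_eq_abs, Real.norm_eq_abs] at h2
    have h3 : (ε + K * M * d) * |η - x| ≤ (ε + K * M * d) * d :=
      mul_le_mul_of_nonneg_left (hd'' η hη) (by positivity)
    have h4 : |φ η| ≤ |φ x| + |φ η - φ x| := by
      have := abs_add_le (φ x) (φ η - φ x)
      simpa using this
    linarith
  have h6 : M ≤ ε * ((1 + d) / (1 - K * d ^ 2)) := by
    rw [← mul_div_assoc, le_div_iff₀ (by linarith)]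
    nlinarith
  have h7 := h1 x left_mem_uIcc
  have h8 : K * M * d ≤ ε * (K * d * ((1 + d) / (1 - K * d ^ 2))) := by
    have := mul_le_mul_of_nonneg_left h6 (show 0 ≤ K * d by positivity)
    nlinarith
  linarith

/-- two of `m` points of a half open interval of length `α` are closer than `α / (m - 1)` -/
lemma close_pair {α : ℝ} (hα : 0 < α) (S : Finset ℝ) (hS : ∀ s ∈ S, s ∈ Ico 0 α)
    {m : ℕ} (hm : 2 ≤ m) (hc : m ≤ S.card) :
    ∃ s ∈ S, ∃ t ∈ S, s < t ∧ t - s ≤ α / ((m : ℝ) - 1) := by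
  have hm1 : (0 : ℝ) < (m : ℝ) - 1 := by
    have : (2 : ℝ) ≤ m := by exact_mod_cast hm
    linarith
  obtain ⟨s, hs, t, ht, hne, hst⟩ := Finset.exists_ne_map_eq_of_card_lt_of_maps_to (s := S)
    (t := Finset.range (m - 1)) (f := fun x => ⌊x * ((m : ℝ) - 1) / α⌋₊)
    (by rw [Finset.card_range]; omega) (fun x hx => by
      have h1 := hS x hx
      rw [Finset.coe_range, mem_Iio, Nat.floor_lt (by have := h1.1; positivity), div_lt_iff₀ hα]
      have h2 : ((m - 1 : ℕ) : ℝ) = (m : ℝ) - 1 := by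
        rw [Nat.cast_sub (by omega)]
        simp
      rw [h2, mul_comm]
      exact mul_lt_mul_of_pos_left h1.2 hm1)
  wlog hlt : s < t generalizing s t
  · exact this t ht s hs hne.symm hst.symm (lt_of_le_of_ne (not_lt.mp hlt) hne.symm)
  refine ⟨s, hs, t, ht, hlt, ?_⟩
  have h1 := Nat.floor_le (a := s * ((m : ℝ) - 1) / α) (by have := (hS s hs).1; positivity)
  have h2 := Nat.lt_floor_add_one (t * ((m : ℝ) - 1) / α)
  rw [← hst] at h2
  have h3 : t * ((m : ℝ) - 1) / α < s * ((m : ℝ) - 1) / α + 1 := by linarith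
  rw [div_add_one hα.ne', div_lt_div_iff_of_pos_right hα] at h3
  rw [le_div_iff₀ hm1]
  linarith

lemma bounded_of_periodic {g : ℝ → ℝ} (hg : Continuous g) {α : ℝ} (hα : 0 < α)
    (hp : Function.Periodic g α) : ∃ C : ℝ, 0 ≤ C ∧ ∀ x, |g x| ≤ C := by
  obtain ⟨C, hC⟩ := (isCompact_Icc (a := (0 : ℝ)) (b := α)).exists_bound_of_continuousOn
    hg.continuousOn
  refine ⟨max C 0, le_max_right _ _, fun x => ?_⟩
  obtain ⟨y, hy, hxy⟩ := hp.exists_mem_Ico₀ hα x
  rw [hxy]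
  exact (hC y (mem_Icc_of_Ico hy)).trans (le_max_left _ _)

theorem count_aux {α K : ℝ} (hα : 0 < α) {q : ℝ → ℝ} (hq : Continuous q)
    (hqp : Function.Periodic q α) (Λ : Finset ℝ) (G G' : ℝ → ℝ → ℝ)
    (hsol : ∀ ν ∈ Λ, IsSol (fun x => q x + ν) (G ν) (G' ν))
    (hper : ∀ ν ∈ Λ, Function.Periodic (G ν) α) (hK : ∀ ν ∈ Λ, ∀ x, |q x + ν| ≤ K)
    (hne : ∃ x, ∑ ν ∈ Λ, G ν x ≠ 0) (S : Finset ℝ)
    (hS : ∀ s ∈ S, s ∈ Ico 0 α ∧ ∑ ν ∈ Λ, G ν s = 0) (hcard : 1 ≤ S.card) :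
    ((S.card : ℝ) - 1) ^ 2 ≤ K * α ^ 2 := by
  classical
  obtain ⟨C, hC0, hC⟩ := bounded_of_periodic hq hα hqp
  obtain ⟨x₁, hx₁⟩ := hne
  have hΛ : Λ.Nonempty := by
    rw [Finset.nonempty_iff_ne_empty]
    rintro rfl
    simp at hx₁
  have hK0 : 0 ≤ K := (abs_nonneg _).trans (hK _ hΛ.choose_spec 0)
  set M : ℝ := 2 * C + K + 1 with hM
  have hMν : ∀ ν ∈ Λ, 0 < M + ν := fun ν hν => by
    have h1 := abs_le.mp (hK ν hν 0)
    have h2 := abs_le.mp (hC 0)
    simp only [hM]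
    linarith [h1.1, h2.2]
  obtain ⟨h, h', hd, hd', hpos⟩ := exists_pos (fun x => M - q x) (by fun_prop)
    (fun x => by have := abs_le.mp (hC x); simp only [hM]; linarith [this.2])
    (M := M + C) (fun x => by have := abs_le.mp (hC x); linarith [this.1])
  -- propagation of the zeros
  have hprop : ∀ N : ℕ, ∃ T : Finset ℝ, S.card ≤ T.card ∧
      ∀ s ∈ T, s ∈ Ico 0 α ∧ ∑ ν ∈ Λ, (M + ν) ^ N * G ν s = 0 := by
    intro N
    induction N with
    | zero => exact ⟨S, le_rfl, by simpa using hS⟩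
    | succ N ih =>
      obtain ⟨T, hT, hT0⟩ := ih
      have hkey : ∀ x, ∑ ν ∈ Λ, (M + ν) ^ N * -((q x + ν) * G ν x) -
          (M - q x) * ∑ ν ∈ Λ, (M + ν) ^ N * G ν x = -∑ ν ∈ Λ, (M + ν) ^ (N + 1) * G ν x := by
        intro x
        rw [Finset.mul_sum, ← Finset.sum_sub_distrib, ← Finset.sum_neg_distrib]
        exact Finset.sum_congr rfl fun ν _ => by ring
      obtain ⟨T', hT', hT0'⟩ := step hα hd hd' hpos
        (f := fun x => ∑ ν ∈ Λ, (M + ν) ^ N * G ν x)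
        (f' := fun x => ∑ ν ∈ Λ, (M + ν) ^ N * G' ν x)
        (f'' := fun x => ∑ ν ∈ Λ, (M + ν) ^ N * -((q x + ν) * G ν x))
        (fun x => HasDerivAt.fun_sum fun ν hν => ((hsol ν hν).d1 x).const_mul _)
        (fun x => HasDerivAt.fun_sum fun ν hν => ((hsol ν hν).d2 x).const_mul _)
        (fun x => Finset.sum_congr rfl fun ν hν => by rw [hper ν hν x])
        (fun x => by
          simp only [hkey]
          exact congrArg _ (Finset.sum_congr rfl fun ν hν => by rw [hper ν hν x])) T hT0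
      refine ⟨T', hT.trans hT', fun s hs => ⟨(hT0' s hs).1, ?_⟩⟩
      have := (hT0' s hs).2
      rw [hkey, neg_eq_zero] at this
      exact this
  -- the dominating eigenvalue
  set Λ' := Λ.filter (fun ν => ∃ x, G ν x ≠ 0) with hΛ'
  have hΛ'ne : Λ'.Nonempty := by
    rw [Finset.nonempty_iff_ne_empty]
    intro h0
    refine hx₁ (Finset.sum_eq_zero fun ν hν => ?_)
    by_contra hcon
    have : ν ∈ Λ' := Finset.mem_filter.mpr ⟨hν, x₁, hcon⟩
    rw [h0] at this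
    simp at this
  set ω := Λ'.max' hΛ'ne with hω
  have hωm : ω ∈ Λ' := Finset.max'_mem _ _
  have hωΛ : ω ∈ Λ := (Finset.mem_filter.mp hωm).1
  have hω0 : ∃ x, G ω x ≠ 0 := (Finset.mem_filter.mp hωm).2
  have hMω := hMν ω hωΛ
  by_contra hcon
  push Not at hcon
  have hm2 : 2 ≤ S.card := by
    by_contra h1
    have h2 : S.card = 1 := by omega
    rw [h2] at hcon
    norm_num at hcon
    nlinarith [sq_nonneg α]
  have hm1 : (0 : ℝ) < (S.card : ℝ) - 1 := by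
    have : (2 : ℝ) ≤ S.card := by exact_mod_cast hm2
    linarith
  set d : ℝ := α / ((S.card : ℝ) - 1) with hdd
  have hd0 : 0 ≤ d := by positivity
  have hKd : K * d ^ 2 < 1 := by
    rw [hdd, div_pow, ← mul_div_assoc, div_lt_one (by positivity)]
    exact hcon
  obtain ⟨c, hc0, hc⟩ := (hsol ω hωΛ).lower (hK ω hωΛ) hα (hper ω hωΛ) hω0
  set D : ℝ := 2 + K * d * ((1 + d) / (1 - K * d ^ 2)) with hD
  have hDpos : 0 < D := by
    have : 0 < 1 - K * d ^ 2 := by linarith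
    positivity
  -- bounds
  have hB : ∀ ν ∈ Λ, ∃ B : ℝ, 0 ≤ B ∧ (∀ x, |G ν x| ≤ B) ∧ ∀ x, |G' ν x| ≤ B := by
    intro ν hν
    obtain ⟨B1, h1, h2⟩ := bounded_of_periodic (hsol ν hν).cont hα (hper ν hν)
    obtain ⟨B2, h3, h4⟩ := bounded_of_periodic (hsol ν hν).cont' hα
      (periodic_deriv (hsol ν hν).d1 (hper ν hν))
    exact ⟨max B1 B2, h1.trans (le_max_left _ _), fun x => (h2 x).trans (le_max_left _ _),
      fun x => (h4 x).trans (le_max_right _ _)⟩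
  choose! B hB0 hB1 hB2 using hB
  set ε : ℝ := c / (2 * D) with hε
  have hε0 : 0 < ε := by positivity
  have hlim : Tendsto (fun N : ℕ => ∑ ν ∈ Λ'.erase ω, ((M + ν) / (M + ω)) ^ N * B ν) atTop
      (𝓝 0) := by
    rw [← Finset.sum_const_zero (s := Λ'.erase ω)]
    refine tendsto_finsetSum _ fun ν hν => ?_
    have h1 := Finset.mem_erase.mp hν
    have h2 : ν < ω := lt_of_le_of_ne (Finset.le_max' _ _ h1.2) h1.1
    have h3 := hMν ν (Finset.mem_filter.mp h1.2).1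
    rw [← zero_mul (B ν)]
    refine Tendsto.mul_const _ (tendsto_pow_atTop_nhds_zero_of_lt_one (by positivity) ?_)
    rw [div_lt_one hMω]
    linarith
  obtain ⟨N, hN⟩ := (hlim.eventually_lt_const hε0).exists
  have happ : ∀ (H : ℝ → ℝ → ℝ), (∀ ν ∈ Λ, ∀ x, |H ν x| ≤ B ν) →
      (∀ ν ∈ Λ, ν ∉ Λ' → ∀ x, H ν x = 0) → ∀ x, ∑ ν ∈ Λ, (M + ν) ^ N * H ν x = 0 →
      |H ω x| ≤ ε := by
    intro H h1 h2 x hx
    have h3 : ∑ ν ∈ Λ, (M + ν) ^ N * H ν x = ∑ ν ∈ Λ', (M + ν) ^ N * H ν x := by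
      symm
      refine Finset.sum_subset (Finset.filter_subset _ _) fun ν hν hν' => ?_
      rw [h2 ν hν hν' x, mul_zero]
    rw [h3, ← Finset.add_sum_erase _ _ hωm] at hx
    have h4 : H ω x = -∑ ν ∈ Λ'.erase ω, ((M + ν) / (M + ω)) ^ N * H ν x := by
      have h5 : (M + ω) ^ N ≠ 0 := by positivity
      apply mul_left_cancel₀ h5
      rw [mul_neg, Finset.mul_sum]
      have h6 : ∑ ν ∈ Λ'.erase ω, (M + ω) ^ N * (((M + ν) / (M + ω)) ^ N * H ν x) =
          ∑ ν ∈ Λ'.erase ω, (M + ν) ^ N * H ν x := by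
        refine Finset.sum_congr rfl fun ν _ => ?_
        rw [div_pow]
        field_simp
      rw [h6]
      linarith
    rw [h4, abs_neg]
    refine (Finset.abs_sum_le_sum_abs _ _).trans (le_trans ?_ hN.le)
    refine Finset.sum_le_sum fun ν hν => ?_
    have h7 := Finset.mem_erase.mp hν
    have h8 := (Finset.mem_filter.mp h7.2).1
    have h9 := hMν ν h8
    rw [abs_mul, abs_of_nonneg (by positivity)]
    exact mul_le_mul_of_nonneg_left (h1 ν h8 x) (by positivity)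
  have hG0 : ∀ ν ∈ Λ, ν ∉ Λ' → ∀ x, G ν x = 0 := by
    intro ν hν hν' x
    by_contra h1
    exact hν' (Finset.mem_filter.mpr ⟨hν, x, h1⟩)
  have hG0' : ∀ ν ∈ Λ, ν ∉ Λ' → ∀ x, G' ν x = 0 := by
    intro ν hν hν' x
    have h1 := (hsol ν hν).d1 x
    have h2 : G ν = fun _ => 0 := funext (hG0 ν hν hν')
    rw [h2] at h1
    exact h1.unique (hasDerivAt_const x 0)
  obtain ⟨T, hT, hT0⟩ := hprop N
  obtain ⟨s, hs, t, ht, hst, hstd⟩ := close_pair hα T (fun s hs => (hT0 s hs).1) hm2 hT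
  obtain ⟨ξ, hξ, hξ0⟩ := exists_hasDerivAt_eq_zero (f := fun x => ∑ ν ∈ Λ, (M + ν) ^ N * G ν x)
    (f' := fun x => ∑ ν ∈ Λ, (M + ν) ^ N * G' ν x) hst
    (fun x _ => (HasDerivAt.fun_sum fun ν hν =>
      ((hsol ν hν).d1 x).const_mul _).continuousAt.continuousWithinAt)
    (by rw [(hT0 s hs).2, (hT0 t ht).2])
    (fun x _ => HasDerivAt.fun_sum fun ν hν => ((hsol ν hν).d1 x).const_mul _)
  have h1 := happ G hB1 hG0 s (hT0 s hs).2
  have h2 := happ G' hB2 hG0' ξ hξ0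
  have h3 := (hsol ω hωΛ).small (hK ω hωΛ) hd0 hKd (x := s) (ξ := ξ) (ε := ε) (by
    rw [abs_le]
    constructor <;> linarith [hξ.1, hξ.2]) h1 h2
  have h4 := hc s
  have h5 : ε * D = c / 2 := by
    rw [hε]
    field_simp
  rw [h5] at h3
  linarith

end Pool.Agent.X146.Yau
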