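import Pool.Agent.X146.Yau.Sum

set_option autoImplicit false

/-! The number of zeros of a finite sum of bounded solutions of `G'' = -(q + ν) G`, `ν ≤ 0`,
`0 ≤ q ≤ Q₀ e^{-2|x|}`, on the whole line. -/

namespace Pool.Agent.X146.Yau

open Set Filter Topology MeasureTheory

lemma count_line_aux {q : ℝ → ℝ} (hq : Continuous q) {Q₀ : ℝ} (hQ₀ : 0 < Q₀)
    (hq0 : ∀ x, 0 ≤ q x) (hqe : ∀ x, q x ≤ Q₀ * Real.exp (-2 * |x|)) (Λ : Finset ℝ)
    (hΛne : Λ.Nonempty) (hΛ0 : ∀ ν ∈ Λ, ν ≤ 0) (G G' : ℝ → ℝ → ℝ)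
    (hsol : ∀ ν ∈ Λ, IsSol (fun x => q x + ν) (G ν) (G' ν))
    (hbd : ∀ ν ∈ Λ, ∃ B : ℝ, ∀ x, |G ν x| ≤ B) (hne : ∀ ν ∈ Λ, ∃ x, G ν x ≠ 0)
    (S : Finset ℝ) (hS : ∀ s ∈ S, ∑ ν ∈ Λ, G ν s = 0) :
    (S.card : ℝ) ≤ 4 * √Q₀ + 2 := by
  classical
  have hqQ : ∀ x, q x ≤ Q₀ := fun x => (hqe x).trans (by
    have : Real.exp (-2 * |x|) ≤ 1 := Real.exp_le_one_iff.mpr (by nlinarith [abs_nonneg x])
    nlinarith)
  choose! B hB using hbd
  set M : ℝ := Q₀ + 1 + ∑ ν ∈ Λ, |ν| with hM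
  have hMν : ∀ ν ∈ Λ, 0 < M + ν := fun ν hν => by
    have h1 : |ν| ≤ ∑ ν ∈ Λ, |ν| := Finset.single_le_sum (f := fun ν : ℝ => |ν|)
      (fun _ _ => abs_nonneg _) hν
    have h2 := neg_abs_le ν
    simp only [hM]
    linarith
  have hMQ : Q₀ + 1 ≤ M := by
    have : 0 ≤ ∑ ν ∈ Λ, |ν| := Finset.sum_nonneg fun _ _ => abs_nonneg _
    simp only [hM]
    linarith
  obtain ⟨h, h', hd, hd', hgrow⟩ := exists_grow (fun x => M - q x) (by fun_prop)
    (fun x => by have := hqQ x; linarith) (M := M) (fun x => by have := hq0 x; linarith)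
  have hK : ∀ ν ∈ Λ, ∀ x, |q x + ν| ≤ M := fun ν hν x => by
    have h1 := hMν ν hν
    have h2 := hqQ x
    have h3 := hq0 x
    have h4 := hΛ0 ν hν
    rw [abs_le]
    constructor <;> linarith
  -- propagation of the zeros
  have hprop : ∀ N : ℕ, ∃ T : Finset ℝ, S.card ≤ T.card ∧
      ∀ s ∈ T, ∑ ν ∈ Λ, (M + ν) ^ N * G ν s = 0 := by
    intro N
    induction N with
    | zero => exact ⟨S, le_rfl, by simpa using hS⟩
    | succ N ih =>
      obtain ⟨T, hT, hT0⟩ := ih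
      have hkey : ∀ x, ∑ ν ∈ Λ, (M + ν) ^ N * -((q x + ν) * G ν x) -
          (M - q x) * ∑ ν ∈ Λ, (M + ν) ^ N * G ν x = -∑ ν ∈ Λ, (M + ν) ^ (N + 1) * G ν x := by
        intro x
        rw [Finset.mul_sum, ← Finset.sum_sub_distrib, ← Finset.sum_neg_distrib]
        exact Finset.sum_congr rfl fun ν _ => by ring
      obtain ⟨T', hT', hT0'⟩ := step_line hd hd' hgrow
        (f := fun x => ∑ ν ∈ Λ, (M + ν) ^ N * G ν x)
        (f' := fun x => ∑ ν ∈ Λ, (M + ν) ^ N * G' ν x)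
        (f'' := fun x => ∑ ν ∈ Λ, (M + ν) ^ N * -((q x + ν) * G ν x))
        (fun x => HasDerivAt.fun_sum fun ν hν => ((hsol ν hν).d1 x).const_mul _)
        (fun x => HasDerivAt.fun_sum fun ν hν => ((hsol ν hν).d2 x).const_mul _)
        (B := ∑ ν ∈ Λ, (M + ν) ^ N * B ν)
        (fun x => (Finset.abs_sum_le_sum_abs _ _).trans (Finset.sum_le_sum fun ν hν => by
          rw [abs_mul, abs_of_pos (pow_pos (hMν ν hν) N)]
          exact mul_le_mul_of_nonneg_left (hB ν hν x) (pow_pos (hMν ν hν) N).le)) T hT0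
      refine ⟨T', hT.trans hT', fun s hs => ?_⟩
      have := hT0' s hs
      rw [hkey, neg_eq_zero] at this
      exact this
  -- the dominating eigenvalue
  set ω := Λ.max' hΛne with hω
  have hωΛ : ω ∈ Λ := Finset.max'_mem _ _
  have hMω := hMν ω hωΛ
  have hωs := hsol ω hωΛ
  have hlt : ∀ ν ∈ Λ.erase ω, ν < ω := fun ν hν => by
    have h1 := Finset.mem_erase.mp hν
    exact lt_of_le_of_ne (Finset.le_max' _ _ h1.2) h1.1
  -- all zeros of the dominating mode are in a bounded set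
  have hfin : {x | G ω x = 0}.Finite := by
    by_contra hinf
    obtain ⟨S', hS', hc⟩ := Set.Infinite.exists_subset_card_eq hinf (⌊4 * √Q₀ + 2⌋₊ + 1)
    have h1 := full_count hQ₀ hqe (hΛ0 ω hωΛ) hωs (hK ω hωΛ) (hne ω hωΛ) S' (fun s hs => hS' hs)
    rw [hc] at h1
    have h2 := Nat.lt_floor_add_one (4 * √Q₀ + 2)
    push_cast at h1
    linarith
  obtain ⟨X₁, hX₁⟩ := (hfin.image (fun x => |x|)).bddAbove
  have hX₁' : ∀ x, G ω x = 0 → |x| ≤ X₁ := fun x hx => hX₁ ⟨x, hx, rfl⟩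
  have hdecay : Tendsto (fun X : ℝ => Q₀ * Real.exp (-2 * X)) atTop (𝓝 0) := by
    rw [← mul_zero Q₀]
    refine Tendsto.const_mul _ (Real.tendsto_exp_atBot.comp ?_)
    exact tendsto_id.const_mul_atTop_of_neg (by norm_num)
  have hev : ∀ᶠ X in atTop, ∀ ν ∈ Λ.erase ω, Q₀ * Real.exp (-2 * X) < -ν := by
    rw [Filter.eventually_all_finset]
    intro ν hν
    refine hdecay.eventually_lt_const ?_
    have := hlt ν hν
    have := hΛ0 ω hωΛ
    linarith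
  obtain ⟨X, hXν, hXX⟩ := (hev.and (eventually_gt_atTop X₁)).exists
  have hGX : ∀ x, X ≤ |x| → G ω x ≠ 0 := fun x hx h0 => by
    have := hX₁' x h0
    linarith
  have hqX : ∀ ν ∈ Λ.erase ω, ∀ x, X ≤ |x| → q x + ν < 0 := fun ν hν x hx => by
    have h1 := hqe x
    have h2 : Q₀ * Real.exp (-2 * |x|) ≤ Q₀ * Real.exp (-2 * X) :=
      mul_le_mul_of_nonneg_left (Real.exp_le_exp.mpr (by linarith)) hQ₀.le
    linarith [hXν ν hν]
  -- comparison with the dominating mode near infinity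
  have hratio : ∀ ν ∈ Λ.erase ω, ∃ c, 0 ≤ c ∧ ∀ x, X ≤ |x| → |G ν x| ≤ c * |G ω x| := by
    intro ν hν
    have hνΛ := (Finset.mem_erase.mp hν).2
    obtain ⟨c₁, hc₁, hc₁'⟩ := ratio_bound (hlt ν hν) hωs (hsol ν hνΛ) (X := X) (hB ω hωΛ)
      (hB ν hνΛ) (fun x hx => hGX x (hx.trans (le_abs_self x)))
      (fun x hx => hqX ν hν x (hx.trans (le_abs_self x)))
    obtain ⟨c₂, hc₂, hc₂'⟩ := ratio_bound (q := fun x => q (-x)) (hlt ν hν) hωs.refl
      (hsol ν hνΛ).refl (X := X) (fun x => hB ω hωΛ (-x))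
      (fun x => hB ν hνΛ (-x)) (fun x hx => hGX (-x) (by rw [abs_neg]; exact hx.trans (le_abs_self x)))
      (fun x hx => hqX ν hν (-x) (by rw [abs_neg]; exact hx.trans (le_abs_self x)))
    refine ⟨max c₁ c₂, hc₁.trans (le_max_left _ _), fun x hx => ?_⟩
    rcases le_or_gt 0 x with h0 | h0
    · rw [abs_of_nonneg h0] at hx
      exact (hc₁' x hx).trans (mul_le_mul_of_nonneg_right (le_max_left _ _) (abs_nonneg _))
    · rw [abs_of_neg h0] at hx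
      have := hc₂' (-x) hx
      rw [neg_neg] at this
      exact this.trans (mul_le_mul_of_nonneg_right (le_max_right _ _) (abs_nonneg _))
  choose! c hc0 hc using hratio
  -- bounds of the derivatives on the compact interval
  have hB' : ∀ ν ∈ Λ, ∃ B' : ℝ, ∀ x ∈ Icc (-X) X, |G' ν x| ≤ B' := by
    intro ν hν
    obtain ⟨C, hC⟩ := (isCompact_Icc (a := -X) (b := X)).exists_bound_of_continuousOn
      (hsol ν hν).cont'.continuousOn
    exact ⟨C, hC⟩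
  choose! B' hB' using hB'
  obtain ⟨ε, hε, hstab⟩ := zeros_stable hωs.d1 hωs.cont' X (fun x => by
    by_contra hcon
    push Not at hcon
    obtain ⟨z, hz⟩ := hne ω hωΛ
    exact hz (hωs.zero (hK ω hωΛ) hcon.1 hcon.2 z))
  -- large powers
  have hlim : ∀ b : ℝ → ℝ, Tendsto (fun N : ℕ => ∑ ν ∈ Λ.erase ω, ((M + ν) / (M + ω)) ^ N * b ν)
      atTop (𝓝 0) := by
    intro b
    rw [← Finset.sum_const_zero (s := Λ.erase ω)]
    refine tendsto_finsetSum _ fun ν hν => ?_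
    have h3 := hMν ν (Finset.mem_erase.mp hν).2
    rw [← zero_mul (b ν)]
    refine Tendsto.mul_const _ (tendsto_pow_atTop_nhds_zero_of_lt_one (by positivity) ?_)
    rw [div_lt_one hMω]
    linarith [hlt ν hν]
  obtain ⟨N, hN1, hN2, hN3⟩ := (((hlim c).eventually_lt_const one_pos).and
    (((hlim B).eventually_lt_const hε).and ((hlim B').eventually_lt_const hε))).exists
  obtain ⟨T, hT, hT0⟩ := hprop N
  set g : ℝ → ℝ := fun x => ∑ ν ∈ Λ, ((M + ν) / (M + ω)) ^ N * G ν x with hg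
  set g' : ℝ → ℝ := fun x => ∑ ν ∈ Λ, ((M + ν) / (M + ω)) ^ N * G' ν x with hg'
  have hgT : ∀ t ∈ T, g t = 0 := by
    intro t ht
    have h1 : g t = (∑ ν ∈ Λ, (M + ν) ^ N * G ν t) / (M + ω) ^ N := by
      simp only [hg]
      rw [Finset.sum_div]
      refine Finset.sum_congr rfl fun ν _ => ?_
      rw [div_pow]
      ring
    rw [h1, hT0 t ht, zero_div]
  have hsplit : ∀ (H : ℝ → ℝ → ℝ) (x : ℝ), ∑ ν ∈ Λ, ((M + ν) / (M + ω)) ^ N * H ν x - H ω x =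
      ∑ ν ∈ Λ.erase ω, ((M + ν) / (M + ω)) ^ N * H ν x := by
    intro H x
    rw [← Finset.add_sum_erase _ _ hωΛ, div_self hMω.ne', one_pow, one_mul]
    ring
  have hest : ∀ (H : ℝ → ℝ → ℝ) (b : ℝ → ℝ) (x : ℝ), (∀ ν ∈ Λ.erase ω, |H ν x| ≤ b ν) →
      |∑ ν ∈ Λ, ((M + ν) / (M + ω)) ^ N * H ν x - H ω x| ≤
        ∑ ν ∈ Λ.erase ω, ((M + ν) / (M + ω)) ^ N * b ν := by
    intro H b x hb
    rw [hsplit]
    refine (Finset.abs_sum_le_sum_abs _ _).trans (Finset.sum_le_sum fun ν hν => ?_)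
    have h3 := hMν ν (Finset.mem_erase.mp hν).2
    rw [abs_mul, abs_of_nonneg (by positivity)]
    exact mul_le_mul_of_nonneg_left (hb ν hν) (by positivity)
  have hTX : ∀ t ∈ T, t ∈ Icc (-X) X := by
    intro t ht
    by_contra hcon
    have hX : X ≤ |t| := by
      by_contra h1
      push Not at h1
      have := abs_lt.mp h1
      exact hcon ⟨this.1.le, this.2.le⟩
    have h1 := hest G (fun ν => c ν * |G ω t|) t (fun ν hν => hc ν hν t hX)
    have h2 : ∑ ν ∈ Λ.erase ω, ((M + ν) / (M + ω)) ^ N * (c ν * |G ω t|) =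
        (∑ ν ∈ Λ.erase ω, ((M + ν) / (M + ω)) ^ N * c ν) * |G ω t| := by
      rw [Finset.sum_mul]
      exact Finset.sum_congr rfl fun ν _ => by ring
    have h3 : 0 < |G ω t| := abs_pos.mpr (hGX t hX)
    have h4 : |g t - G ω t| < 1 * |G ω t| := by
      refine h1.trans_lt ?_
      rw [h2]
      exact mul_lt_mul_of_pos_right hN1 h3
    rw [hgT t ht, zero_sub, abs_neg, one_mul] at h4
    exact lt_irrefl _ h4
  obtain ⟨Z, hZ, hZ0⟩ := hstab g g'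
    (fun x => HasDerivAt.fun_sum fun ν hν => ((hsol ν hν).d1 x).const_mul _)
    (fun x _ => (hest G B x (fun ν hν => hB ν (Finset.mem_erase.mp hν).2 x)).trans hN2.le)
    (fun x hx => (hest G' B' x (fun ν hν => hB' ν (Finset.mem_erase.mp hν).2 x hx)).trans hN3.le)
    T (fun t ht => ⟨hTX t ht, hgT t ht⟩)
  have hfinal := full_count hQ₀ hqe (hΛ0 ω hωΛ) hωs (hK ω hωΛ) (hne ω hωΛ) Z hZ0
  have h5 : (S.card : ℝ) ≤ Z.card := by exact_mod_cast hT.trans hZ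
  linarith

/-- **Zeros on the whole line.** -/
theorem count_line {q : ℝ → ℝ} (hq : Continuous q) {Q₀ : ℝ} (hQ₀ : 0 < Q₀)
    (hq0 : ∀ x, 0 ≤ q x) (hqe : ∀ x, q x ≤ Q₀ * Real.exp (-2 * |x|)) (Λ : Finset ℝ)
    (hΛ0 : ∀ ν ∈ Λ, ν ≤ 0) (G G' : ℝ → ℝ → ℝ)
    (hsol : ∀ ν ∈ Λ, IsSol (fun x => q x + ν) (G ν) (G' ν))
    (hbd : ∀ ν ∈ Λ, ∃ B : ℝ, ∀ x, |G ν x| ≤ B) (hne : ∃ x, ∑ ν ∈ Λ, G ν x ≠ 0)
    (S : Finset ℝ) (hS : ∀ s ∈ S, ∑ ν ∈ Λ, G ν s = 0) :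
    (S.card : ℝ) ≤ 4 * √Q₀ + 2 := by
  classical
  set Λ' := Λ.filter (fun ν => ∃ x, G ν x ≠ 0) with hΛ'
  have hmem : ∀ ν ∈ Λ', ν ∈ Λ ∧ ∃ x, G ν x ≠ 0 := fun ν hν => Finset.mem_filter.mp hν
  have hsum : ∀ x, ∑ ν ∈ Λ', G ν x = ∑ ν ∈ Λ, G ν x := by
    intro x
    refine Finset.sum_subset (Finset.filter_subset _ _) fun ν hν hν' => ?_
    by_contra h1
    exact hν' (Finset.mem_filter.mpr ⟨hν, x, h1⟩)
  obtain ⟨x₁, hx₁⟩ := hne
  have hΛ'ne : Λ'.Nonempty := by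
    rw [Finset.nonempty_iff_ne_empty]
    intro h0
    refine hx₁ ?_
    rw [← hsum, h0, Finset.sum_empty]
  exact count_line_aux hq hQ₀ hq0 hqe Λ' hΛ'ne (fun ν hν => hΛ0 ν (hmem ν hν).1) G G'
    (fun ν hν => hsol ν (hmem ν hν).1) (fun ν hν => hbd ν (hmem ν hν).1)
    (fun ν hν => (hmem ν hν).2) S (fun s hs => by rw [hsum]; exact hS s hs)

end Pool.Agent.X146.Yau
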