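import Pool.Agent.X146.Yau.Low

set_option autoImplicit false

/-! The density of the zeros of finite sums of bounded solutions of `G'' = -(q + ν) G` with a
periodic potential. -/

namespace Pool.Agent.X146.Yau

open Set Filter Topology MeasureTheory

lemma IsSol.shift {Q φ φ' : ℝ → ℝ} (h : IsSol Q φ φ') (α : ℝ) (hQ : Function.Periodic Q α) :
    IsSol Q (fun x => φ (x + α)) (fun x => φ' (x + α)) := by
  refine ⟨fun x => (h.d1 (x + α)).comp_add_const x α, fun x => ?_⟩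
  refine ((h.d2 (x + α)).comp_add_const x α).congr_deriv ?_
  rw [hQ x]

/-- the derivative of a bounded solution is bounded -/
lemma IsSol.bdd_deriv {Q φ φ' : ℝ → ℝ} (h : IsSol Q φ φ') {K B : ℝ} (hK : ∀ x, |Q x| ≤ K)
    (hB : ∀ x, |φ x| ≤ B) : ∀ x, |φ' x| ≤ 2 * B + K * B := by
  have hK0 : 0 ≤ K := (abs_nonneg _).trans (hK 0)
  have hB0 : 0 ≤ B := (abs_nonneg _).trans (hB 0)
  intro x
  obtain ⟨c, hc, hc'⟩ := exists_hasDerivAt_eq_slope φ φ' (show x < x + 1 by linarith)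
    h.cont.continuousOn (fun y _ => h.d1 y)
  have h1 : |φ' c| ≤ 2 * B := by
    rw [hc', add_sub_cancel_left, div_one]
    have := abs_sub (φ (x + 1)) (φ x)
    linarith [hB (x + 1), hB x]
  have h2 := Convex.norm_image_sub_le_of_norm_hasDerivWithin_le (s := univ) (f := φ')
    (f' := fun s => -(Q s * φ s)) (C := K * B) (x := c) (y := x)
    (fun t _ => (h.d2 t).hasDerivWithinAt) (fun t _ => by
      rw [Real.norm_eq_abs, abs_neg, abs_mul]
      exact mul_le_mul (hK t) (hB t) (abs_nonneg _) hK0) convex_univ (mem_univ _) (mem_univ _)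
  rw [Real.norm_eq_abs, Real.norm_eq_abs] at h2
  have h3 : |x - c| ≤ 1 := by
    rw [abs_le]
    constructor <;> linarith [hc.1, hc.2]
  have h4 : K * B * |x - c| ≤ K * B * 1 := mul_le_mul_of_nonneg_left h3 (by positivity)
  have h5 : |φ' x| ≤ |φ' c| + |φ' x - φ' c| := by
    have := abs_add_le (φ' c) (φ' x - φ' c)
    simpa using this
  linarith

/-- a bounded nontrivial solution of an equation with periodic coefficients: `|φ| + |φ'|` is
bounded below -/
lemma IsSol.lower_bdd {Q φ φ' : ℝ → ℝ} (h : IsSol Q φ φ') {K B : ℝ} (hK : ∀ x, |Q x| ≤ K)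
    {α : ℝ} (hα : 0 < α) (hQ : Function.Periodic Q α) (hB : ∀ x, |φ x| ≤ B)
    (hne : ∃ x, φ x ≠ 0) : ∃ c : ℝ, 0 < c ∧ ∀ x, c ≤ |φ x| + |φ' x| := by
  have hK0 : 0 ≤ K := (abs_nonneg _).trans (hK 0)
  have hB0 : 0 ≤ B := (abs_nonneg _).trans (hB 0)
  have hB' := h.bdd_deriv hK hB
  set C := B + (2 * B + K * B) + 1 with hC
  have hC0 : 0 < C := by positivity
  have hsum : ∀ x, |φ x| + |φ' x| ≤ C := fun x => by
    have := hB x
    have := hB' x
    simp only [hC]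
    linarith
  have hpt : ∀ x, 0 < |φ x| + |φ' x| := by
    intro x
    by_contra hcon
    have h1 : |φ x| = 0 := by linarith [abs_nonneg (φ x), abs_nonneg (φ' x)]
    have h2 : |φ' x| = 0 := by linarith [abs_nonneg (φ x), abs_nonneg (φ' x)]
    obtain ⟨z, hz⟩ := hne
    exact hz (h.zero hK (abs_eq_zero.mp h1) (abs_eq_zero.mp h2) z)
  have hs := h.shift α hQ
  -- the Wronskian with the translate
  have hW : ∀ x, HasDerivAt (fun x => φ x * φ' (x + α) - φ' x * φ (x + α)) 0 x := by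
    intro x
    refine (((h.d1 x).mul (hs.d2 x)).sub ((h.d2 x).mul (hs.d1 x))).congr_deriv ?_
    ring
  have hWc : ∀ x, φ x * φ' (x + α) - φ' x * φ (x + α) = φ 0 * φ' (0 + α) - φ' 0 * φ (0 + α) := by
    intro x
    exact is_const_of_deriv_eq_zero (fun x => (hW x).differentiableAt) (fun x => (hW x).deriv) x 0
  set D := φ 0 * φ' (0 + α) - φ' 0 * φ (0 + α) with hD
  by_cases hD0 : D = 0
  · -- the translate is a multiple
    obtain ⟨μ, hμ1, hμ2⟩ : ∃ μ : ℝ, φ (0 + α) = μ * φ 0 ∧ φ' (0 + α) = μ * φ' 0 := by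
      have hW0 : φ 0 * φ' (0 + α) = φ' 0 * φ (0 + α) := by linarith
      by_cases h0 : φ 0 = 0
      · have h0' : φ' 0 ≠ 0 := by
          intro h1
          have := hpt 0
          rw [h0, h1] at this
          simp at this
        refine ⟨φ' (0 + α) / φ' 0, ?_, ?_⟩
        · rw [h0, mul_zero]
          rw [h0, zero_mul] at hW0
          exact (mul_eq_zero.mp hW0.symm).resolve_left h0'
        · field_simp
      · refine ⟨φ (0 + α) / φ 0, ?_, ?_⟩
        · field_simp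
        · rw [div_mul_eq_mul_div, eq_div_iff h0]
          linarith
    have hmul : ∀ x, φ (x + α) = μ * φ x := by
      have h1 : IsSol Q (fun x => φ (x + α) + -μ * φ x) (fun x => φ' (x + α) + -μ * φ' x) :=
        hs.add (h.const_mul (-μ))
      intro x
      have := h1.zero hK (x₀ := 0) (by linarith) (by linarith) x
      linarith
    have hmul' : ∀ x, φ' (x + α) = μ * φ' x := by
      intro x
      have h1 := hs.d1 x
      have h2 : (fun x => φ (x + α)) = fun x => μ * φ x := funext hmul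
      rw [h2] at h1
      exact h1.unique ((h.d1 x).const_mul μ)
    have hsm : ∀ x, |φ (x + α)| + |φ' (x + α)| = |μ| * (|φ x| + |φ' x|) := fun x => by
      rw [hmul, hmul', abs_mul, abs_mul]
      ring
    -- `|μ| = 1`
    have hiter : ∀ (n : ℕ) (x : ℝ), |φ (x + n * α)| + |φ' (x + n * α)| =
        |μ| ^ n * (|φ x| + |φ' x|) := by
      intro n
      induction n with
      | zero => intro x; simp
      | succ n ih =>
        intro x
        have e : x + ((n + 1 : ℕ) : ℝ) * α = (x + n * α) + α := by push_cast; ring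
        rw [e, hsm, ih, pow_succ]
        ring
    have hle : |μ| ≤ 1 := by
      by_contra hgt
      push Not at hgt
      obtain ⟨n, hn⟩ := ((tendsto_pow_atTop_atTop_of_one_lt hgt).eventually_gt_atTop
        (C / (|φ 0| + |φ' 0|))).exists
      have h1 := hiter n 0
      have h2 := hsum (0 + n * α)
      rw [h1] at h2
      rw [div_lt_iff₀ (hpt 0)] at hn
      linarith
    have hge : 1 ≤ |μ| := by
      by_contra hlt
      push Not at hlt
      have h0 := hpt 0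
      obtain ⟨n, hn⟩ := (((tendsto_pow_atTop_nhds_zero_of_lt_one (abs_nonneg μ) hlt).mul_const
        C).eventually_lt_const (show 0 * C < |φ 0| + |φ' 0| by rw [zero_mul]; exact h0)).exists
      have h1 := hiter n (0 - n * α)
      rw [sub_add_cancel] at h1
      have h2 := mul_le_mul_of_nonneg_left (hsum (0 - n * α)) (pow_nonneg (abs_nonneg μ) n)
      linarith
    have hμ : |μ| = 1 := le_antisymm hle hge
    have hper : Function.Periodic (fun x => |φ x| + |φ' x|) α := fun x => by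
      simp only
      rw [hsm, hμ, one_mul]
    obtain ⟨x₀, -, hx₀⟩ := (isCompact_Icc (a := (0 : ℝ)) (b := α)).exists_isMinOn
      (nonempty_Icc.mpr hα.le) (f := fun x => |φ x| + |φ' x|)
      ((h.cont.abs.add h.cont'.abs).continuousOn)
    refine ⟨|φ x₀| + |φ' x₀|, hpt x₀, fun x => ?_⟩
    obtain ⟨y, hy, hxy⟩ := hper.exists_mem_Ico₀ hα x
    rw [hxy]
    exact hx₀ (mem_Icc_of_Ico hy)
  · refine ⟨|D| / C, div_pos (abs_pos.mpr hD0) hC0, fun x => ?_⟩
    rw [div_le_iff₀ hC0]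
    have h1 := hWc x
    have h2 : |D| ≤ |φ x| * |φ' (x + α)| + |φ' x| * |φ (x + α)| := by
      rw [← h1, ← abs_mul, ← abs_mul]
      exact abs_sub _ _
    have h3 := hsum (x + α)
    have a1 := abs_nonneg (φ x)
    have a2 := abs_nonneg (φ' x)
    have a3 := abs_nonneg (φ (x + α))
    have a4 := abs_nonneg (φ' (x + α))
    nlinarith [mul_nonneg a1 a3, mul_nonneg a2 a4]

/-- Rolle steps on an interval -/
lemma step_int {Q h h' : ℝ → ℝ} (hd : ∀ x, HasDerivAt h (h' x) x)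
    (hd' : ∀ x, HasDerivAt h' (Q x * h x) x) (hpos : ∀ x, 0 < h x)
    {f f' f'' : ℝ → ℝ} (hf : ∀ x, HasDerivAt f (f' x) x) (hf' : ∀ x, HasDerivAt f' (f'' x) x)
    {a b : ℝ} (S : Finset ℝ) (hS : ∀ s ∈ S, s ∈ Icc a b ∧ f s = 0) :
    ∃ S' : Finset ℝ, S.card ≤ S'.card + 2 ∧ ∀ s ∈ S', s ∈ Icc a b ∧ f'' s - Q s * f s = 0 := by
  have hF : ∀ x, HasDerivAt (fun x => f x / h x) ((f' x * h x - f x * h' x) / h x ^ 2) x :=
    fun x => (hf x).div (hd x) (hpos x).ne'
  obtain ⟨T, hT, hT0⟩ := rolle_finset (A := a) (B := b) (fun x _ => hF x) S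
    (fun t ht => ⟨(hS t ht).1, by rw [(hS t ht).2, zero_div]⟩)
  have hW : ∀ x, HasDerivAt (fun x => f' x * h x - f x * h' x)
      ((f'' x - Q x * f x) * h x) x := by
    intro x
    refine (((hf' x).mul (hd x)).sub ((hf x).mul (hd' x))).congr_deriv ?_
    ring
  obtain ⟨T', hT', hT0'⟩ := rolle_finset (A := a) (B := b) (fun x _ => hW x) T (fun t ht => by
    refine ⟨Ioo_subset_Icc_self (hT0 t ht).1, ?_⟩
    rcases div_eq_zero_iff.mp (hT0 t ht).2 with h1 | h1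
    · exact h1
    · exact absurd h1 (pow_ne_zero 2 (hpos t).ne'))
  refine ⟨T', by omega, fun s hs => ⟨Ioo_subset_Icc_self (hT0' s hs).1, ?_⟩⟩
  exact (mul_eq_zero.mp (hT0' s hs).2).resolve_right (hpos s).ne'

/-- separated points in an interval -/
lemma card_separated {a b d : ℝ} (hab : a ≤ b) (hd : 0 < d) (S : Finset ℝ)
    (hS : ∀ s ∈ S, s ∈ Icc a b) (hsep : ∀ s ∈ S, ∀ t ∈ S, s < t → d ≤ t - s) :
    (S.card : ℝ) ≤ (b - a) / d + 1 := by
  classical
  have hcard : S.card ≤ (Finset.range (⌊(b - a) / d⌋₊ + 1)).card := by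
    refine Finset.card_le_card_of_injOn (fun s => ⌊(s - a) / d⌋₊) ?_ ?_
    · intro s hs
      rw [Finset.mem_coe] at hs
      rw [Finset.coe_range, mem_Iio]
      refine Nat.lt_succ_of_le (Nat.floor_le_floor ?_)
      exact div_le_div_of_nonneg_right (by linarith [(hS s hs).2]) hd.le
    · have hne : ∀ s ∈ S, ∀ t ∈ S, s < t → ⌊(s - a) / d⌋₊ ≠ ⌊(t - a) / d⌋₊ := by
        intro s hs t ht hst heq
        have h1 := Nat.floor_le (div_nonneg (show 0 ≤ s - a by linarith [(hS s hs).1]) hd.le)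
        have h2 := Nat.lt_floor_add_one ((t - a) / d)
        rw [← heq] at h2
        have h3 : (t - a) / d < (s - a) / d + 1 := by linarith
        rw [div_add_one hd.ne', div_lt_div_iff_of_pos_right hd] at h3
        linarith [hsep s hs t ht hst]
      intro s hs t ht heq
      rw [Finset.mem_coe] at hs ht
      rcases lt_trichotomy s t with h | h | h
      · exact absurd heq (hne s hs t ht h)
      · exact h
      · exact absurd heq.symm (hne t ht s hs h)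
  rw [Finset.card_range] at hcard
  have h1 : (⌊(b - a) / d⌋₊ : ℝ) ≤ (b - a) / d :=
    Nat.floor_le (div_nonneg (by linarith) hd.le)
  have h2 : (S.card : ℝ) ≤ ((⌊(b - a) / d⌋₊ + 1 : ℕ) : ℝ) := by exact_mod_cast hcard
  push_cast at h2
  linarith

lemma density_aux {q : ℝ → ℝ} (hq : Continuous q) {α : ℝ} (hα : 0 < α)
    (hqp : Function.Periodic q α) {K : ℝ} (Λ : Finset ℝ) (hΛne : Λ.Nonempty)
    (G G' : ℝ → ℝ → ℝ) (hsol : ∀ ν ∈ Λ, IsSol (fun x => q x + ν) (G ν) (G' ν))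
    (hK : ∀ ν ∈ Λ, ∀ x, |q x + ν| ≤ K)
    (hbd : ∀ ν ∈ Λ, ∃ B : ℝ, ∀ x, |G ν x| ≤ B) (hne : ∀ ν ∈ Λ, ∃ x, G ν x ≠ 0)
    {d : ℝ} (hd0 : 0 < d) (hKd : K * d ^ 2 < 1) :
    ∃ c : ℝ, ∀ a b : ℝ, a ≤ b → ∀ S : Finset ℝ, (∀ s ∈ S, s ∈ Icc a b ∧ ∑ ν ∈ Λ, G ν s = 0) →
      (S.card : ℝ) ≤ (b - a) / d + c := by
  classical
  obtain ⟨C, hC0, hC⟩ := bounded_of_periodic hq hα hqp
  choose! B hB using hbd
  set M : ℝ := C + 1 + (C + ∑ ν ∈ Λ, |ν|) with hM
  have hsumν : 0 ≤ ∑ ν ∈ Λ, |ν| := Finset.sum_nonneg fun _ _ => abs_nonneg _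
  have hMν : ∀ ν ∈ Λ, 0 < M + ν := fun ν hν => by
    have h1 : |ν| ≤ ∑ ν ∈ Λ, |ν| := Finset.single_le_sum (f := fun ν : ℝ => |ν|)
      (fun _ _ => abs_nonneg _) hν
    have h2 := neg_abs_le ν
    simp only [hM]
    linarith
  obtain ⟨h, h', hd, hd', hgrow⟩ := exists_grow (fun x => M - q x) (by fun_prop)
    (fun x => by
      have := (abs_le.mp (hC x)).2
      simp only [hM]
      linarith) (M := M + C) (fun x => by have := (abs_le.mp (hC x)).1; linarith)
  have hpos : ∀ x, 0 < h x := fun x => lt_of_lt_of_le (by positivity) (hgrow x)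
  -- propagation of the zeros
  have hprop : ∀ (a b : ℝ) (S : Finset ℝ), (∀ s ∈ S, s ∈ Icc a b ∧ ∑ ν ∈ Λ, G ν s = 0) →
      ∀ N : ℕ, ∃ T : Finset ℝ, S.card ≤ T.card + 2 * N ∧
      ∀ s ∈ T, s ∈ Icc a b ∧ ∑ ν ∈ Λ, (M + ν) ^ N * G ν s = 0 := by
    intro a b S hS N
    induction N with
    | zero => exact ⟨S, by simp, by simpa using hS⟩
    | succ N ih =>
      obtain ⟨T, hT, hT0⟩ := ih
      have hkey : ∀ x, ∑ ν ∈ Λ, (M + ν) ^ N * -((q x + ν) * G ν x) -
          (M - q x) * ∑ ν ∈ Λ, (M + ν) ^ N * G ν x = -∑ ν ∈ Λ, (M + ν) ^ (N + 1) * G ν x := by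
        intro x
        rw [Finset.mul_sum, ← Finset.sum_sub_distrib, ← Finset.sum_neg_distrib]
        exact Finset.sum_congr rfl fun ν _ => by ring
      obtain ⟨T', hT', hT0'⟩ := step_int hd hd' hpos
        (f := fun x => ∑ ν ∈ Λ, (M + ν) ^ N * G ν x)
        (f' := fun x => ∑ ν ∈ Λ, (M + ν) ^ N * G' ν x)
        (f'' := fun x => ∑ ν ∈ Λ, (M + ν) ^ N * -((q x + ν) * G ν x))
        (fun x => HasDerivAt.fun_sum fun ν hν => ((hsol ν hν).d1 x).const_mul _)
        (fun x => HasDerivAt.fun_sum fun ν hν => ((hsol ν hν).d2 x).const_mul _) T hT0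
      refine ⟨T', by omega, fun s hs => ⟨(hT0' s hs).1, ?_⟩⟩
      have := (hT0' s hs).2
      rw [hkey, neg_eq_zero] at this
      exact this
  -- the dominating eigenvalue
  set ω := Λ.max' hΛne with hω
  have hωΛ : ω ∈ Λ := Finset.max'_mem _ _
  have hMω := hMν ω hωΛ
  have hωs := hsol ω hωΛ
  have hlt : ∀ ν ∈ Λ.erase ω, ν < ω := fun ν hν => by
    have h1 := Finset.mem_erase.mp hν
    exact lt_of_le_of_ne (Finset.le_max' _ _ h1.2) h1.1
  obtain ⟨c, hc0, hc⟩ := hωs.lower_bdd (hK ω hωΛ) hα (fun x => by simp only [hqp x]) (hB ω hωΛ)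
    (hne ω hωΛ)
  set D : ℝ := 2 + K * d * ((1 + d) / (1 - K * d ^ 2)) with hD
  have hK0 : 0 ≤ K := (abs_nonneg _).trans (hK ω hωΛ 0)
  have hDpos : 0 < D := by
    have : 0 < 1 - K * d ^ 2 := by linarith
    positivity
  set ε : ℝ := c / (2 * D) with hε
  have hε0 : 0 < ε := by positivity
  have hlim : ∀ b : ℝ → ℝ, Tendsto (fun N : ℕ => ∑ ν ∈ Λ.erase ω, ((M + ν) / (M + ω)) ^ N * b ν)
      atTop (𝓝 0) := by
    intro b
    rw [← Finset.sum_const_zero (s := Λ.erase ω)]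
    refine tendsto_finsetSum _ fun ν hν => ?_
    have h3 := hMν ν (Finset.mem_erase.mp hν).2
    rw [← zero_mul (b ν)]
    refine Tendsto.mul_const _ (tendsto_pow_atTop_nhds_zero_of_lt_one (by positivity) ?_)
    rw [div_lt_one hMω]
    linarith [hlt ν hν]
  obtain ⟨N, hN1, hN2⟩ := (((hlim B).eventually_lt_const hε0).and
    ((hlim (fun ν => 2 * B ν + K * B ν)).eventually_lt_const hε0)).exists
  refine ⟨1 + 2 * N, fun a b hab S hS => ?_⟩
  obtain ⟨T, hT, hT0⟩ := hprop a b S hS N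
  set g : ℝ → ℝ := fun x => ∑ ν ∈ Λ, ((M + ν) / (M + ω)) ^ N * G ν x with hg
  set g' : ℝ → ℝ := fun x => ∑ ν ∈ Λ, ((M + ν) / (M + ω)) ^ N * G' ν x with hg'
  have hgd : ∀ x, HasDerivAt g (g' x) x := fun x =>
    HasDerivAt.fun_sum fun ν hν => ((hsol ν hν).d1 x).const_mul _
  have hgT : ∀ t ∈ T, g t = 0 := by
    intro t ht
    have h1 : g t = (∑ ν ∈ Λ, (M + ν) ^ N * G ν t) / (M + ω) ^ N := by
      simp only [hg]
      rw [Finset.sum_div]
      refine Finset.sum_congr rfl fun ν _ => ?_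
      rw [div_pow]
      ring
    rw [h1, (hT0 t ht).2, zero_div]
  have hsplit : ∀ (H : ℝ → ℝ → ℝ) (x : ℝ), ∑ ν ∈ Λ, ((M + ν) / (M + ω)) ^ N * H ν x - H ω x =
      ∑ ν ∈ Λ.erase ω, ((M + ν) / (M + ω)) ^ N * H ν x := by
    intro H x
    rw [← Finset.add_sum_erase _ _ hωΛ, div_self hMω.ne', one_pow, one_mul]
    ring
  have hest : ∀ (H : ℝ → ℝ → ℝ) (b : ℝ → ℝ) (x : ℝ), (∀ ν ∈ Λ.erase ω, |H ν x| ≤ b ν) →
      |∑ ν ∈ Λ, ((M + ν) / (M + ω)) ^ N * H ν x - H ω x| ≤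
        ∑ ν ∈ Λ.erase ω, ((M + ν) / (M + ω)) ^ N * b ν := by
    intro H b x hb
    rw [hsplit]
    refine (Finset.abs_sum_le_sum_abs _ _).trans (Finset.sum_le_sum fun ν hν => ?_)
    have h3 := hMν ν (Finset.mem_erase.mp hν).2
    rw [abs_mul, abs_of_nonneg (by positivity)]
    exact mul_le_mul_of_nonneg_left (hb ν hν) (by positivity)
  have hsep : ∀ s ∈ T, ∀ t ∈ T, s < t → d ≤ t - s := by
    intro s hs t ht hst
    by_contra hcon
    push Not at hcon
    obtain ⟨ξ, hξ, hξ0⟩ := exists_hasDerivAt_eq_zero (f := g) (f' := g') hst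
      (continuous_iff_continuousAt.mpr fun x => (hgd x).continuousAt).continuousOn
      (by rw [hgT s hs, hgT t ht]) (fun x _ => hgd x)
    have h1 := hest G B s (fun ν hν => hB ν (Finset.mem_erase.mp hν).2 s)
    have h2 := hest G' (fun ν => 2 * B ν + K * B ν) ξ (fun ν hν =>
      (hsol ν (Finset.mem_erase.mp hν).2).bdd_deriv (hK ν (Finset.mem_erase.mp hν).2)
        (hB ν (Finset.mem_erase.mp hν).2) ξ)
    have h1' : |g s - G ω s| ≤ ∑ ν ∈ Λ.erase ω, ((M + ν) / (M + ω)) ^ N * B ν := h1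
    have h2' : |g' ξ - G' ω ξ| ≤
        ∑ ν ∈ Λ.erase ω, ((M + ν) / (M + ω)) ^ N * (2 * B ν + K * B ν) := h2
    rw [hgT s hs, zero_sub, abs_neg] at h1'
    rw [hξ0, zero_sub, abs_neg] at h2'
    have h3 := hωs.small (hK ω hωΛ) hd0.le hKd (x := s) (ξ := ξ) (ε := ε) (by
      rw [abs_le]
      constructor <;> linarith [hξ.1, hξ.2]) (h1'.trans hN1.le) (h2'.trans hN2.le)
    have h4 := hc s
    have h5 : ε * D = c / 2 := by
      rw [hε]
      field_simp
    rw [← hD, h5] at h3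
    linarith
  have hfin := card_separated hab hd0 T (fun t ht => (hT0 t ht).1) hsep
  have h6 : (S.card : ℝ) ≤ T.card + 2 * N := by exact_mod_cast hT
  linarith

/-- **Density of the zeros.** -/
theorem density {q : ℝ → ℝ} (hq : Continuous q) {α : ℝ} (hα : 0 < α)
    (hqp : Function.Periodic q α) {K : ℝ} (Λ : Finset ℝ)
    (G G' : ℝ → ℝ → ℝ) (hsol : ∀ ν ∈ Λ, IsSol (fun x => q x + ν) (G ν) (G' ν))
    (hK : ∀ ν ∈ Λ, ∀ x, |q x + ν| ≤ K)
    (hbd : ∀ ν ∈ Λ, ∃ B : ℝ, ∀ x, |G ν x| ≤ B) (hne : ∃ x, ∑ ν ∈ Λ, G ν x ≠ 0)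
    {d : ℝ} (hd0 : 0 < d) (hKd : K * d ^ 2 < 1) :
    ∃ c : ℝ, ∀ a b : ℝ, a ≤ b → ∀ S : Finset ℝ, (∀ s ∈ S, s ∈ Icc a b ∧ ∑ ν ∈ Λ, G ν s = 0) →
      (S.card : ℝ) ≤ (b - a) / d + c := by
  classical
  set Λ' := Λ.filter (fun ν => ∃ x, G ν x ≠ 0) with hΛ'
  have hmem : ∀ ν ∈ Λ', ν ∈ Λ ∧ ∃ x, G ν x ≠ 0 := fun ν hν => Finset.mem_filter.mp hν
  have hsum : ∀ x, ∑ ν ∈ Λ', G ν x = ∑ ν ∈ Λ, G ν x := by
    intro x
    refine Finset.sum_subset (Finset.filter_subset _ _) fun ν hν hν' => ?_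
    by_contra h1
    exact hν' (Finset.mem_filter.mpr ⟨hν, x, h1⟩)
  obtain ⟨x₁, hx₁⟩ := hne
  have hΛ'ne : Λ'.Nonempty := by
    rw [Finset.nonempty_iff_ne_empty]
    intro h0
    refine hx₁ ?_
    rw [← hsum, h0, Finset.sum_empty]
  obtain ⟨c, hc⟩ := density_aux hq hα hqp Λ' hΛ'ne G G' (fun ν hν => hsol ν (hmem ν hν).1)
    (fun ν hν => hK ν (hmem ν hν).1) (fun ν hν => hbd ν (hmem ν hν).1)
    (fun ν hν => (hmem ν hν).2) hd0 hKd
  exact ⟨c, fun a b hab S hS => hc a b hab S fun s hs => ⟨(hS s hs).1, by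
    rw [hsum]; exact (hS s hs).2⟩⟩

end Pool.Agent.X146.Yau
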