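import Pool.Agent.X146.Yau.Grad

set_option autoImplicit false

/-! The eigenspaces and their finite dimension. -/

namespace Pool.Agent.X146.Yau

open Set Filter Topology
open scoped ContDiff

lemma Dx_add {F G : ℝ × ℝ → ℝ} (hF : ContDiff ℝ ∞ F) (hG : ContDiff ℝ ∞ G) :
    Dx (F + G) = Dx F + Dx G := by
  funext p
  exact Dx_eq (hF.add hG) ((hasDerivAt_Dx hF p.1 p.2).add (hasDerivAt_Dx hG p.1 p.2))

lemma Dy_add {F G : ℝ × ℝ → ℝ} (hF : ContDiff ℝ ∞ F) (hG : ContDiff ℝ ∞ G) :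
    Dy (F + G) = Dy F + Dy G := by
  funext p
  exact Dy_eq (hF.add hG) ((hasDerivAt_Dy hF p.1 p.2).add (hasDerivAt_Dy hG p.1 p.2))

lemma Dx_smul {F : ℝ × ℝ → ℝ} (hF : ContDiff ℝ ∞ F) (c : ℝ) : Dx (c • F) = c • Dx F := by
  funext p
  exact Dx_eq (hF.const_smul c) ((hasDerivAt_Dx hF p.1 p.2).const_mul c)

lemma Dy_smul {F : ℝ × ℝ → ℝ} (hF : ContDiff ℝ ∞ F) (c : ℝ) : Dy (c • F) = c • Dy F := by
  funext p
  exact Dy_eq (hF.const_smul c) ((hasDerivAt_Dy hF p.1 p.2).const_mul c)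

/-- `u` is a smooth doubly periodic solution of `Δu + q u = 0`. -/
structure IsEig (α β : ℝ) (q : ℝ × ℝ → ℝ) (u : ℝ × ℝ → ℝ) : Prop where
  smooth : ContDiff ℝ ∞ u
  per : Per α β u
  eq : ∀ p, Dx (Dx u) p + Dy (Dy u) p = -(q p * u p)

/-- The eigenspace. -/
def eig (α β : ℝ) (q : ℝ × ℝ → ℝ) : Submodule ℝ (ℝ × ℝ → ℝ) where
  carrier := {u | IsEig α β q u}
  zero_mem' := by
    have hz : ContDiff ℝ ∞ (0 : ℝ × ℝ → ℝ) := contDiff_const
    have e1 : Dx (0 : ℝ × ℝ → ℝ) = 0 := by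
      funext p
      exact Dx_eq hz (hasDerivAt_const p.1 (0 : ℝ))
    have e2 : Dy (0 : ℝ × ℝ → ℝ) = 0 := by
      funext p
      exact Dy_eq hz (hasDerivAt_const p.2 (0 : ℝ))
    refine ⟨hz, fun p => ⟨rfl, rfl⟩, fun p => ?_⟩
    rw [e1, e2, e1, e2]
    simp
  add_mem' := by
    intro u v hu hv
    refine ⟨hu.smooth.add hv.smooth, fun p => ⟨?_, ?_⟩, fun p => ?_⟩
    · simp only [Pi.add_apply]
      rw [(hu.per p).1, (hv.per p).1]
    · simp only [Pi.add_apply]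
      rw [(hu.per p).2, (hv.per p).2]
    · rw [Dx_add hu.smooth hv.smooth, Dy_add hu.smooth hv.smooth,
        Dx_add (smooth_Dx hu.smooth) (smooth_Dx hv.smooth),
        Dy_add (smooth_Dy hu.smooth) (smooth_Dy hv.smooth)]
      simp only [Pi.add_apply]
      have := hu.eq p
      have := hv.eq p
      linarith
  smul_mem' := by
    intro c u hu
    refine ⟨hu.smooth.const_smul c, fun p => ⟨?_, ?_⟩, fun p => ?_⟩
    · simp only [Pi.smul_apply]
      rw [(hu.per p).1]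
    · simp only [Pi.smul_apply]
      rw [(hu.per p).2]
    · rw [Dx_smul hu.smooth, Dy_smul hu.smooth, Dx_smul (smooth_Dx hu.smooth),
        Dy_smul (smooth_Dy hu.smooth)]
      simp only [Pi.smul_apply, smul_eq_mul]
      have := hu.eq p
      linear_combination c * this

/-- a grid function which determines the elements of the eigenspace -/
lemma grid_zero {α β : ℝ} (hα : 0 < α) (hβ : 0 < β) {q : ℝ × ℝ → ℝ} {B : ℝ} (hB0 : 0 ≤ B)
    (hqB : ∀ p, |q p| ≤ B) {N : ℕ} (hN : 1 ≤ N) (hN' : (2 + (B + 1) / 2) * (α + β) < N)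
    {u : ℝ × ℝ → ℝ} (hu : IsEig α β q u)
    (h0 : ∀ i j : Fin N, u (i * (α / N), j * (β / N)) = 0) : u = 0 := by
  have hN0 : (0 : ℝ) < N := by exact_mod_cast hN
  obtain ⟨p₀, hp₀⟩ := hu.per.exists_max hα hβ hu.smooth.continuous
  set M := |u p₀| with hM
  by_contra hne
  have hMpos : 0 < M := by
    rcases (abs_nonneg (u p₀)).lt_or_eq with h | h
    · exact h
    · exfalso
      apply hne
      funext p
      have := hp₀ p
      rw [hM, ← h] at this
      simpa using abs_nonpos_iff.mp this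
  obtain ⟨⟨x, y⟩, ⟨hx, hy⟩, hp'⟩ := hu.per.exists_mem hα hβ p₀
  simp only at hx hy
  -- nearest grid point
  have key : ∀ (γ : ℝ), 0 < γ → ∀ z ∈ Ico 0 γ, ∃ i : Fin N, |z - i * (γ / N)| ≤ γ / N := by
    intro γ hγ z hz
    have hη : 0 < γ / N := by positivity
    have h0 : 0 ≤ z / (γ / N) := div_nonneg hz.1 hη.le
    have h1 := Nat.floor_le h0
    have h2 := Nat.lt_floor_add_one (z / (γ / N))
    rw [le_div_iff₀ hη] at h1
    rw [div_lt_iff₀ hη] at h2
    have h3 : ⌊z / (γ / N)⌋₊ < N := by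
      rw [Nat.floor_lt h0, div_lt_iff₀ hη]
      have : (N : ℝ) * (γ / N) = γ := by field_simp
      rw [this]
      exact hz.2
    refine ⟨⟨⌊z / (γ / N)⌋₊, h3⟩, ?_⟩
    simp only
    rw [abs_le]
    constructor <;> linarith
  obtain ⟨i, hi⟩ := key α hα x hx
  obtain ⟨j, hj⟩ := key β hβ y hy
  have h1 := lip hu.smooth (M := M) (N := (B + 1) * M) hp₀ (by
    intro p
    rw [hu.eq p, abs_neg, abs_mul]
    have e1 : |q p| * |u p| ≤ B * M :=
      mul_le_mul (hqB p) (hp₀ p) (abs_nonneg _) hB0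
    nlinarith) x y (i * (α / N)) (j * (β / N))
  rw [h0 i j, sub_zero, ← hp'] at h1
  have h2 : (2 * M + (B + 1) * M / 2) * (|x - i * (α / N)| + |y - j * (β / N)|) ≤
      (2 * M + (B + 1) * M / 2) * (α / N + β / N) :=
    mul_le_mul_of_nonneg_left (add_le_add hi hj) (by positivity)
  have h3 : (2 * M + (B + 1) * M / 2) * (α / N + β / N) =
      ((2 + (B + 1) / 2) * (α + β)) / N * M := by field_simp
  have h4 : ((2 + (B + 1) / 2) * (α + β)) / N < 1 := by
    rw [div_lt_one hN0]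
    exact hN'
  have h5 : M ≤ ((2 + (B + 1) / 2) * (α + β)) / N * M := by
    rw [← h3]
    exact h1.trans h2
  nlinarith

theorem finDim {α β : ℝ} (hα : 0 < α) (hβ : 0 < β) {q : ℝ × ℝ → ℝ} {B : ℝ} (hB0 : 0 ≤ B)
    (hqB : ∀ p, |q p| ≤ B) : FiniteDimensional ℝ (eig α β q) := by
  obtain ⟨N, hN⟩ := exists_nat_gt ((2 + (B + 1) / 2) * (α + β))
  have hN1 : 1 ≤ N := by
    have h1 : (0 : ℝ) < (2 + (B + 1) / 2) * (α + β) := by positivity
    have h2 : (0 : ℝ) < N := h1.trans hN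
    exact_mod_cast h2
  let ev : eig α β q →ₗ[ℝ] (Fin N × Fin N → ℝ) :=
    { toFun := fun u ij => (u : ℝ × ℝ → ℝ) (ij.1 * (α / N), ij.2 * (β / N))
      map_add' := fun u v => rfl
      map_smul' := fun c u => rfl }
  refine FiniteDimensional.of_injective ev ?_
  rw [injective_iff_map_eq_zero]
  intro u hu
  apply Subtype.ext
  exact grid_zero hα hβ hB0 hqB hN1 hN u.2 (fun i j => congrFun hu (i, j))

end Pool.Agent.X146.Yau
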