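import Pool.Agent.X146.Yau.CountLine

set_option autoImplicit false

/-! Finite Fourier expansions and modes. -/

namespace Pool.Agent.X146.Yau

open Set Filter Topology MeasureTheory Real
open scoped ContDiff

/-- cosine coefficient -/
noncomputable def fc (f : ℝ → ℝ) (k : ℤ) : ℝ := (1 / (2 * π)) * ∫ t in (0 : ℝ)..2 * π, f t * cos (k * t)

/-- sine coefficient -/
noncomputable def fs (f : ℝ → ℝ) (k : ℤ) : ℝ := (1 / (2 * π)) * ∫ t in (0 : ℝ)..2 * π, f t * sin (k * t)

instance factTwoPi : Fact (0 < 2 * π) := ⟨two_pi_pos⟩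

lemma fourier_two_pi (n : ℤ) (x : ℝ) : (fourier n (x : AddCircle (2 * π)) : ℂ) =
    (cos (n * x) : ℂ) + (sin (n * x) : ℂ) * Complex.I := by
  rw [fourier_coe_apply]
  have h1 : 2 * (π : ℂ) * Complex.I * n * x / ((2 * π : ℝ) : ℂ) = ((n * x : ℝ) : ℂ) * Complex.I := by
    have : (π : ℂ) ≠ 0 := by exact_mod_cast pi_ne_zero
    push_cast
    field_simp
  rw [h1, Complex.exp_mul_I]
  push_cast
  rfl

/-- a continuous periodic function with finitely many Fourier coefficients is the sum of its
Fourier series -/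
lemma trig_expand {f : ℝ → ℝ} (hf : Continuous f) (hp : Function.Periodic f (2 * π)) {K : ℤ}
    (hc : ∀ k : ℤ, K < |k| → fc f k = 0) (hs : ∀ k : ℤ, K < |k| → fs f k = 0) (θ : ℝ) :
    f θ = ∑ k ∈ Finset.Icc (-K) K, (fc f k * cos (k * θ) + fs f k * sin (k * θ)) := by
  set F : C(AddCircle (2 * π), ℂ) := ⟨fun x => ((hp.lift x : ℝ) : ℂ),
    Complex.continuous_ofReal.comp (hf.quotient_liftOn' _)⟩ with hF
  have hFx : ∀ x : ℝ, F (x : AddCircle (2 * π)) = (f x : ℂ) := fun x => by
    simp only [hF, ContinuousMap.coe_mk, Function.Periodic.lift_coe]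
  have hcoef : ∀ n : ℤ, fourierCoeff F n = (fc f n : ℂ) - (fs f n : ℂ) * Complex.I := by
    intro n
    rw [fourierCoeff_eq_intervalIntegral F n 0, zero_add]
    have h1 : ∀ x : ℝ, (fourier (-n) (x : AddCircle (2 * π)) : ℂ) • F (x : AddCircle (2 * π)) =
        ((f x * cos (n * x) : ℝ) : ℂ) - ((f x * sin (n * x) : ℝ) : ℂ) * Complex.I := by
      intro x
      rw [fourier_two_pi, hFx, smul_eq_mul]
      push_cast
      rw [neg_mul, Complex.cos_neg, Complex.sin_neg]
      ring
    simp only [h1]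
    rw [intervalIntegral.integral_sub, intervalIntegral.integral_mul_const,
      intervalIntegral.integral_ofReal, intervalIntegral.integral_ofReal, fc, fs]
    · push_cast
      rw [Complex.real_smul]
      push_cast
      ring
    · exact Continuous.intervalIntegrable (by fun_prop) _ _
    · exact Continuous.intervalIntegrable (by fun_prop) _ _
  have hzero : ∀ n : ℤ, n ∉ Finset.Icc (-K) K → fourierCoeff F n = 0 := by
    intro n hn
    have hK : K < |n| := by
      by_contra h
      push Not at h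
      exact hn (Finset.mem_Icc.mpr (abs_le.mp h))
    rw [hcoef, hc n hK, hs n hK]
    simp
  have hsum : Summable (fourierCoeff F) := summable_of_ne_finset_zero (s := Finset.Icc (-K) K) hzero
  have h2 := has_pointwise_sum_fourier_series_of_summable hsum (θ : AddCircle (2 * π))
  have h3 : HasSum (fun i => fourierCoeff F i • (fourier i (θ : AddCircle (2 * π)) : ℂ))
      (∑ i ∈ Finset.Icc (-K) K, fourierCoeff F i • (fourier i (θ : AddCircle (2 * π)) : ℂ)) :=
    hasSum_sum_of_ne_finset_zero (fun i hi => by rw [hzero i hi, zero_smul])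
  have h4 := h2.unique h3
  rw [hFx] at h4
  have h5 := congrArg Complex.re h4
  rw [Complex.ofReal_re, Complex.re_sum] at h5
  rw [h5]
  refine Finset.sum_congr rfl fun k _ => ?_
  rw [hcoef, fourier_two_pi, smul_eq_mul]
  have h6 : ((fc f k : ℂ) - (fs f k : ℂ) * Complex.I) *
      ((cos (k * θ) : ℂ) + (sin (k * θ) : ℂ) * Complex.I) =
      ((fc f k * cos (k * θ) + fs f k * sin (k * θ) : ℝ) : ℂ) +
        ((fc f k * sin (k * θ) - fs f k * cos (k * θ) : ℝ) : ℂ) * Complex.I := by
    push_cast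
    linear_combination (-(fs f k : ℂ) * Complex.sin (k * θ)) * Complex.I_sq
  rw [h6, Complex.add_re, Complex.ofReal_re, Complex.mul_I_re, Complex.ofReal_im, neg_zero, add_zero]

/-- differentiation under the integral -/
lemma deriv_integral {F : ℝ × ℝ → ℝ} (hF : ContDiff ℝ ∞ F) {w : ℝ → ℝ} (hw : Continuous w)
    (T x₀ : ℝ) : HasDerivAt (fun x => ∫ t in (0 : ℝ)..T, F (x, t) * w t)
      (∫ t in (0 : ℝ)..T, Dx F (x₀, t) * w t) x₀ := by
  have hFc := hF.continuous
  have hDc := (smooth_Dx hF).continuous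
  obtain ⟨C, hC⟩ := ((isCompact_Icc (a := x₀ - 1) (b := x₀ + 1)).prod
    (isCompact_uIcc (a := (0 : ℝ)) (b := T))).exists_bound_of_continuousOn
    (f := fun p : ℝ × ℝ => Dx F p * w p.2) (by fun_prop)
  refine (intervalIntegral.hasDerivAt_integral_of_dominated_loc_of_deriv_le
    (F := fun x t => F (x, t) * w t) (F' := fun x t => Dx F (x, t) * w t)
    (s := Icc (x₀ - 1) (x₀ + 1)) (bound := fun _ => C)
    (Icc_mem_nhds (by linarith) (by linarith)) ?_ ?_ ?_ ?_ ?_ ?_).2
  · exact Eventually.of_forall fun x => (Continuous.aestronglyMeasurable (by fun_prop))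
  · exact Continuous.intervalIntegrable (by fun_prop) _ _
  · exact Continuous.aestronglyMeasurable (by fun_prop)
  · exact Eventually.of_forall fun t ht x hx => hC (x, t) ⟨hx, uIoc_subset_uIcc ht⟩
  · exact intervalIntegrable_const
  · exact Eventually.of_forall fun t _ x _ => (hasDerivAt_Dx hF x t).mul_const (w t)

/-- a bounded solution with a negative potential is trivial -/
lemma IsSol.trivial_of_bdd {Q φ φ' : ℝ → ℝ} (h : IsSol Q φ φ') {B : ℝ} (hB : ∀ x, |φ x| ≤ B)
    (hQ : ∀ x, Q x < 0) : ∀ x, φ x = 0 := by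
  have hB0 : 0 ≤ B := (abs_nonneg _).trans (hB 0)
  have d1 : ∀ x, HasDerivAt (fun x => φ x * φ x) (φ' x * φ x + φ x * φ' x) x :=
    fun x => (h.d1 x).mul (h.d1 x)
  have d2 : ∀ x, HasDerivAt (fun x => φ' x * φ x + φ x * φ' x)
      (2 * (φ' x) ^ 2 + 2 * (-Q x * φ x ^ 2)) x := fun x =>
    (((h.d2 x).mul (h.d1 x)).add ((h.d1 x).mul (h.d2 x))).congr_deriv (by ring)
  have hnn : ∀ x, 0 ≤ 2 * (φ' x) ^ 2 + 2 * (-Q x * φ x ^ 2) := fun x => by
    have := mul_nonneg (neg_nonneg.mpr (hQ x).le) (sq_nonneg (φ x))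
    have := sq_nonneg (φ' x)
    linarith
  have hm : Monotone (fun x => φ' x * φ x + φ x * φ' x) := monotone_of_hasDerivAt_nonneg d2 hnn
  have hc : Continuous (fun x => φ x * φ x) := h.cont.mul h.cont
  have hb : ∀ x, φ x * φ x ≤ B ^ 2 := fun x => by
    have := abs_le.mp (hB x)
    nlinarith
  have hb0 : ∀ x, 0 ≤ φ x * φ x := fun x => mul_self_nonneg _
  have hzero : ∀ x, φ' x * φ x + φ x * φ' x = 0 := by
    intro x₀
    by_contra hne
    rcases lt_or_gt_of_ne hne with hneg | hpos
    · set s := -(φ' x₀ * φ x₀ + φ x₀ * φ' x₀) with hs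
      have hs0 : 0 < s := by linarith
      set y := x₀ - (B ^ 2 + 1) / s with hy
      have hyx : y < x₀ := by
        have : 0 < (B ^ 2 + 1) / s := by positivity
        linarith
      obtain ⟨c, hc1, hc2⟩ := exists_hasDerivAt_eq_slope (fun x => φ x * φ x)
        (fun x => φ' x * φ x + φ x * φ' x) hyx hc.continuousOn (fun z _ => d1 z)
      have h1 : φ' c * φ c + φ c * φ' c ≤ -s := by
        have := hm hc1.2.le
        simp only at this
        linarith
      rw [hc2, div_le_iff₀ (by linarith)] at h1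
      have h2 : s * (x₀ - y) = B ^ 2 + 1 := by
        rw [hy]
        field_simp
        ring
      nlinarith [hb y, hb0 x₀]
    · set s := φ' x₀ * φ x₀ + φ x₀ * φ' x₀ with hs
      have hs0 : 0 < s := hpos
      set y := x₀ + (B ^ 2 + 1) / s with hy
      have hyx : x₀ < y := by
        have : 0 < (B ^ 2 + 1) / s := by positivity
        linarith
      obtain ⟨c, hc1, hc2⟩ := exists_hasDerivAt_eq_slope (fun x => φ x * φ x)
        (fun x => φ' x * φ x + φ x * φ' x) hyx hc.continuousOn (fun z _ => d1 z)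
      have h1 : s ≤ φ' c * φ c + φ c * φ' c := by
        have := hm hc1.1.le
        simp only at this
        linarith
      rw [hc2, le_div_iff₀ (by linarith)] at h1
      have h2 : s * (y - x₀) = B ^ 2 + 1 := by
        rw [hy]
        field_simp
        ring
      nlinarith [hb y, hb0 x₀]
  intro x
  have h1 : (fun x => φ' x * φ x + φ x * φ' x) = fun _ => 0 := funext hzero
  have h2 := d2 x
  rw [h1] at h2
  have h3 := h2.unique (hasDerivAt_const x 0)
  have h4 : 0 ≤ -Q x * φ x ^ 2 := mul_nonneg (neg_nonneg.mpr (hQ x).le) (sq_nonneg (φ x))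
  have h5 : -Q x * φ x ^ 2 = 0 := by nlinarith [sq_nonneg (φ' x)]
  have h6 : φ x ^ 2 = 0 := (mul_eq_zero.mp h5).resolve_left (by have := hQ x; linarith)
  exact pow_eq_zero_iff two_ne_zero |>.mp h6

end Pool.Agent.X146.Yau
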