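import Pool.Agent.X146.Yau.Max

set_option autoImplicit false

/-! From the numbers of zeros on horizontal and vertical lines to the length of the zero set. -/

namespace Pool.Agent.X146.Yau

open Set Filter Topology MeasureTheory
open scoped ENNReal

/-- at most `m` zeros in a period -/
def Few (f : ℝ → ℝ) (α : ℝ) (m : ℕ) : Prop :=
  ∀ S : Finset ℝ, (∀ s ∈ S, s ∈ Ico 0 α ∧ f s = 0) → S.card ≤ m

lemma Few.finset {f : ℝ → ℝ} {α : ℝ} {m : ℕ} (h : Few f α m) :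
    ∃ Z : Finset ℝ, Z.card ≤ m ∧ ∀ x, x ∈ Z ↔ x ∈ Ico 0 α ∧ f x = 0 := by
  have hfin : {x | x ∈ Ico 0 α ∧ f x = 0}.Finite := by
    by_contra hinf
    obtain ⟨S, hS, hc⟩ := Set.Infinite.exists_subset_card_eq hinf (m + 1)
    have := h S (fun s hs => hS hs)
    omega
  refine ⟨hfin.toFinset, h _ (fun s hs => by simpa using hs), fun x => by simp⟩

lemma Few.three {f : ℝ → ℝ} {α : ℝ} (hα : 0 < α) (hp : Function.Periodic f α) {m : ℕ}
    (h : Few f α m) :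
    ∃ Z : Finset ℝ, Z.card ≤ 3 * m ∧ ∀ x, x ∈ Z ↔ x ∈ Ico (-α) (2 * α) ∧ f x = 0 := by
  classical
  obtain ⟨Z, hZ, hZm⟩ := h.finset
  refine ⟨Z ∪ (Z.image (fun x => x - α) ∪ Z.image (fun x => x + α)), ?_, ?_⟩
  · have h1 := Finset.card_union_le Z (Z.image (fun x => x - α) ∪ Z.image (fun x => x + α))
    have h2 := Finset.card_union_le (Z.image (fun x => x - α)) (Z.image (fun x => x + α))
    have h3 := Finset.card_image_le (s := Z) (f := fun x => x - α)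
    have h4 := Finset.card_image_le (s := Z) (f := fun x => x + α)
    omega
  · intro x
    simp only [Finset.mem_union, Finset.mem_image, hZm]
    constructor
    · rintro (⟨h1, h2⟩ | ⟨y, ⟨h1, h2⟩, rfl⟩ | ⟨y, ⟨h1, h2⟩, rfl⟩)
      · exact ⟨⟨by linarith [h1.1], by linarith [h1.2]⟩, h2⟩
      · exact ⟨⟨by linarith [h1.1], by linarith [h1.2]⟩, by rw [hp.sub_eq]; exact h2⟩
      · exact ⟨⟨by linarith [h1.1], by linarith [h1.2]⟩, by rw [hp]; exact h2⟩
    · rintro ⟨h1, h2⟩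
      rcases lt_or_ge x 0 with h3 | h3
      · right; left
        exact ⟨x + α, ⟨⟨by linarith [h1.1], by linarith⟩, by rw [hp]; exact h2⟩, by ring⟩
      · rcases lt_or_ge x α with h4 | h4
        · left
          exact ⟨⟨h3, h4⟩, h2⟩
        · right; right
          exact ⟨x - α, ⟨⟨by linarith, by linarith [h1.2]⟩, by rw [hp.sub_eq]; exact h2⟩, by ring⟩

lemma Few.countable {f : ℝ → ℝ} {α : ℝ} (hα : 0 < α) (hp : Function.Periodic f α) {m : ℕ}
    (h : Few f α m) : {x | f x = 0}.Countable := by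
  obtain ⟨Z, hZ, hZm⟩ := h.finset
  have : {x | f x = 0} ⊆ ⋃ k : ℤ, (fun x => x + k * α) '' (Z : Set ℝ) := by
    intro x hx
    rw [mem_iUnion]
    refine ⟨⌊x / α⌋, x - ⌊x / α⌋ * α, ?_, by simp⟩
    rw [Finset.mem_coe, hZm]
    have h1 := Int.floor_le (x / α)
    have h2 := Int.lt_floor_add_one (x / α)
    rw [le_div_iff₀ hα] at h1
    rw [div_lt_iff₀ hα] at h2
    refine ⟨⟨by linarith, by linarith⟩, ?_⟩
    rw [hp.sub_int_mul_eq]
    exact hx
  exact (countable_iUnion fun k => (Z.countable_toSet.image _)).mono this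

/-- a grid of lines on none of which `u` vanishes identically -/
lemma exists_offset {u : ℝ → ℝ → ℝ} {α : ℝ} (hα : 0 < α) {y₀ : ℝ}
    (hc : {x | u x y₀ = 0}.Countable) (η : ℝ) :
    ∃ x₀ ∈ Ioo (-α) 0, ∀ i : ℕ, u (x₀ + i * η) y₀ ≠ 0 := by
  have h1 : (⋃ i : ℕ, {x | u (x + i * η) y₀ = 0}).Countable := by
    refine countable_iUnion fun i => ?_
    exact hc.preimage_of_injOn (f := fun x => x + i * η) (fun a _ b _ hab => by simpa using hab)
  obtain ⟨x₀, hx, hx'⟩ := (h1.dense_compl ℝ).inter_open_nonempty (Ioo (-α) 0) isOpen_Ioo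
    (nonempty_Ioo.mpr (by linarith))
  refine ⟨x₀, hx, fun i hi => hx' ?_⟩
  rw [mem_iUnion]
  exact ⟨i, hi⟩

/-- the cell of a point -/
lemma exists_cell {α : ℝ} (hα : 0 < α) {n : ℕ} (hn : 1 ≤ n) {x₀ x : ℝ} (hx₀ : x₀ ∈ Ioo (-α) 0)
    (hx : x ∈ Icc 0 α) :
    ∃ i : ℕ, i + 1 ≤ 2 * n ∧ x ∈ Icc (x₀ + i * (α / n)) (x₀ + (i + 1 : ℕ) * (α / n)) := by
  have hn' : (0 : ℝ) < n := by exact_mod_cast hn
  have hη : 0 < α / n := by positivity
  have h0 : 0 ≤ (x - x₀) / (α / n) := div_nonneg (by linarith [hx.1, hx₀.2]) hη.le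
  have h1 := Nat.floor_le h0
  have h2 := Nat.lt_floor_add_one ((x - x₀) / (α / n))
  rw [le_div_iff₀ hη] at h1
  rw [div_lt_iff₀ hη] at h2
  refine ⟨⌊(x - x₀) / (α / n)⌋₊, ?_, ⟨by linarith, by push_cast; linarith⟩⟩
  have h3 : (x - x₀) / (α / n) < 2 * n := by
    rw [div_lt_iff₀ hη]
    have : 2 * (n : ℝ) * (α / n) = 2 * α := by field_simp
    rw [this]
    linarith [hx.2, hx₀.1]
  have h4 : (⌊(x - x₀) / (α / n)⌋₊ : ℝ) < ((2 * n : ℕ) : ℝ) := by
    push_cast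
    exact (Nat.floor_le h0).trans_lt h3
  have h5 : ⌊(x - x₀) / (α / n)⌋₊ < 2 * n := by exact_mod_cast h4
  omega

/-- The zero set in a fundamental rectangle. -/
def nodal (α β : ℝ) (u : ℝ → ℝ → ℝ) : Set ℂ :=
  {z | z.re ∈ Icc 0 α ∧ z.im ∈ Icc 0 β ∧ u z.re z.im = 0}

lemma cover {q u : ℝ → ℝ → ℝ} (h : IsHelm q u) {B : ℝ} (hq0 : ∀ x y, 0 ≤ q x y)
    (hqB : ∀ x y, q x y ≤ B) {α β : ℝ} (hα : 0 < α) (hβ : 0 < β)
    (hpx : ∀ y, Function.Periodic (fun x => u x y) α)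
    (hpy : ∀ x, Function.Periodic (fun y => u x y) β) {m₁ m₂ : ℕ}
    (h₁ : ∀ y, (∃ x, u x y ≠ 0) → Few (fun x => u x y) α m₁)
    (h₂ : ∀ x, (∃ y, u x y ≠ 0) → Few (fun y => u x y) β m₂)
    (hne : ∃ x y, u x y ≠ 0) {n : ℕ} (hn : 1 ≤ n) (hnB : (B + 1) * ((α + β) / n) ^ 2 < 8) :
    ∃ P : Finset ℂ, P.card ≤ (2 * n + 1) * (3 * m₁ + 3 * m₂) ∧
      nodal α β u ⊆ ⋃ p ∈ P, Metric.closedBall p ((α + β) / n) := by
  classical
  have hn' : (0 : ℝ) < n := by exact_mod_cast hn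
  obtain ⟨a, b, hab⟩ := hne
  obtain ⟨x₀, hx₀, hx₀'⟩ := exists_offset (u := u) hα
    ((h₁ b ⟨a, hab⟩).countable hα (hpx b)) (α / n)
  obtain ⟨y₀, hy₀, hy₀'⟩ := exists_offset (u := fun y x => u x y) hβ
    ((h₂ a ⟨b, hab⟩).countable hβ (hpy a)) (β / n)
  have hV : ∀ i : ℕ, ∃ Z : Finset ℝ, Z.card ≤ 3 * m₂ ∧
      ∀ y, y ∈ Z ↔ y ∈ Ico (-β) (2 * β) ∧ u (x₀ + i * (α / n)) y = 0 := fun i =>
    (h₂ _ ⟨b, hx₀' i⟩).three hβ (hpy _)
  have hH : ∀ j : ℕ, ∃ Z : Finset ℝ, Z.card ≤ 3 * m₁ ∧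
      ∀ x, x ∈ Z ↔ x ∈ Ico (-α) (2 * α) ∧ u x (y₀ + j * (β / n)) = 0 := fun j =>
    (h₁ _ ⟨a, hy₀' j⟩).three hα (hpx _)
  choose V hVc hVm using hV
  choose H hHc hHm using hH
  set P1 : Finset ℂ := (Finset.range (2 * n + 1)).biUnion
    (fun i => (V i).image (fun y => (⟨x₀ + i * (α / n), y⟩ : ℂ))) with hP1
  set P2 : Finset ℂ := (Finset.range (2 * n + 1)).biUnion
    (fun j => (H j).image (fun x => (⟨x, y₀ + j * (β / n)⟩ : ℂ))) with hP2
  refine ⟨P1 ∪ P2, ?_, ?_⟩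
  · have e1 : P1.card ≤ (2 * n + 1) * (3 * m₂) := by
      have := Finset.card_biUnion_le_card_mul (Finset.range (2 * n + 1))
        (fun i => (V i).image (fun y => (⟨x₀ + i * (α / n), y⟩ : ℂ))) (3 * m₂)
        (fun i _ => Finset.card_image_le.trans (hVc i))
      simpa using this
    have e2 : P2.card ≤ (2 * n + 1) * (3 * m₁) := by
      have := Finset.card_biUnion_le_card_mul (Finset.range (2 * n + 1))
        (fun j => (H j).image (fun x => (⟨x, y₀ + j * (β / n)⟩ : ℂ))) (3 * m₁)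
        (fun i _ => Finset.card_image_le.trans (hHc i))
      simpa using this
    have e3 := Finset.card_union_le P1 P2
    rw [mul_add]
    omega
  · rintro ⟨x, y⟩ ⟨hx, hy, hu⟩
    simp only at hx hy hu
    obtain ⟨i, hi, hxi⟩ := exists_cell hα hn hx₀ hx
    obtain ⟨j, hj, hyj⟩ := exists_cell hβ hn hy₀ hy
    have hαn : 0 < α / n := by positivity
    have hβn : 0 < β / n := by positivity
    have hsum : (α + β) / n = α / n + β / n := by ring
    have hwx : x₀ + (i + 1 : ℕ) * (α / n) - (x₀ + i * (α / n)) = α / n := by push_cast; ring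
    have hwy : y₀ + (j + 1 : ℕ) * (β / n) - (y₀ + j * (β / n)) = β / n := by push_cast; ring
    -- ranges
    have rx : ∀ s ∈ Icc (x₀ + i * (α / n)) (x₀ + (i + 1 : ℕ) * (α / n)), s ∈ Ico (-α) (2 * α) := by
      intro s hs
      have hi' : ((i + 1 : ℕ) : ℝ) ≤ 2 * n := by exact_mod_cast hi
      have e1 : ((i + 1 : ℕ) : ℝ) * (α / n) ≤ 2 * n * (α / n) :=
        mul_le_mul_of_nonneg_right hi' hαn.le
      have e2 : 2 * (n : ℝ) * (α / n) = 2 * α := by field_simp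
      have e3 : 0 ≤ (i : ℝ) * (α / n) := by positivity
      exact ⟨by linarith [hs.1, hx₀.1], by linarith [hs.2, hx₀.2]⟩
    have ry : ∀ s ∈ Icc (y₀ + j * (β / n)) (y₀ + (j + 1 : ℕ) * (β / n)), s ∈ Ico (-β) (2 * β) := by
      intro s hs
      have hj' : ((j + 1 : ℕ) : ℝ) ≤ 2 * n := by exact_mod_cast hj
      have e1 : ((j + 1 : ℕ) : ℝ) * (β / n) ≤ 2 * n * (β / n) :=
        mul_le_mul_of_nonneg_right hj' hβn.le
      have e2 : 2 * (n : ℝ) * (β / n) = 2 * β := by field_simp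
      have e3 : 0 ≤ (j : ℝ) * (β / n) := by positivity
      exact ⟨by linarith [hs.1, hy₀.1], by linarith [hs.2, hy₀.2]⟩
    -- distances
    have hdist : ∀ s ∈ Icc (x₀ + i * (α / n)) (x₀ + (i + 1 : ℕ) * (α / n)),
        ∀ t ∈ Icc (y₀ + j * (β / n)) (y₀ + (j + 1 : ℕ) * (β / n)),
        (⟨x, y⟩ : ℂ) ∈ Metric.closedBall (⟨s, t⟩ : ℂ) ((α + β) / n) := by
      intro s hs t ht
      rw [Metric.mem_closedBall, dist_eq_norm]
      refine (Complex.norm_le_abs_re_add_abs_im _).trans ?_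
      rw [hsum]
      refine add_le_add ?_ ?_
      · rw [abs_le]
        simp only [Complex.sub_re]
        constructor <;> linarith [hs.1, hs.2, hxi.1, hxi.2]
      · rw [abs_le]
        simp only [Complex.sub_im]
        constructor <;> linarith [ht.1, ht.2, hyj.1, hyj.2]
    have lx : x₀ + i * (α / n) ∈ Icc (x₀ + i * (α / n)) (x₀ + (i + 1 : ℕ) * (α / n)) :=
      ⟨le_rfl, by linarith⟩
    have ux : x₀ + (i + 1 : ℕ) * (α / n) ∈ Icc (x₀ + i * (α / n)) (x₀ + (i + 1 : ℕ) * (α / n)) :=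
      ⟨by linarith, le_rfl⟩
    have ly : y₀ + j * (β / n) ∈ Icc (y₀ + j * (β / n)) (y₀ + (j + 1 : ℕ) * (β / n)) :=
      ⟨le_rfl, by linarith⟩
    have uy : y₀ + (j + 1 : ℕ) * (β / n) ∈ Icc (y₀ + j * (β / n)) (y₀ + (j + 1 : ℕ) * (β / n)) :=
      ⟨by linarith, le_rfl⟩
    have memV : ∀ k : ℕ, k < 2 * n + 1 → ∀ t, t ∈ Ico (-β) (2 * β) → u (x₀ + k * (α / n)) t = 0 →
        (⟨x₀ + k * (α / n), t⟩ : ℂ) ∈ P1 ∪ P2 := by
      intro k hk t ht hut
      refine Finset.mem_union_left _ ?_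
      rw [hP1, Finset.mem_biUnion]
      exact ⟨k, Finset.mem_range.mpr hk, Finset.mem_image.mpr ⟨t, (hVm k t).mpr ⟨ht, hut⟩, rfl⟩⟩
    have memH : ∀ k : ℕ, k < 2 * n + 1 → ∀ t, t ∈ Ico (-α) (2 * α) → u t (y₀ + k * (β / n)) = 0 →
        (⟨t, y₀ + k * (β / n)⟩ : ℂ) ∈ P1 ∪ P2 := by
      intro k hk t ht hut
      refine Finset.mem_union_right _ ?_
      rw [hP2, Finset.mem_biUnion]
      exact ⟨k, Finset.mem_range.mpr hk, Finset.mem_image.mpr ⟨t, (hHm k t).mpr ⟨ht, hut⟩, rfl⟩⟩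
    rw [mem_iUnion₂]
    rcases h.exists_boundary hq0 hqB hnB (by rw [hwx, hsum]; linarith)
      (by rw [hwy, hsum]; linarith) hxi hyj hu with ⟨t, ht, ht' | ht'⟩ | ⟨s, hs, hs' | hs'⟩
    · exact ⟨_, memV i (by omega) t (ry t ht) ht', hdist _ lx t ht⟩
    · exact ⟨_, memV (i + 1) (by omega) t (ry t ht) ht', hdist _ ux t ht⟩
    · exact ⟨_, memH j (by omega) s (rx s hs) hs', hdist s hs _ ly⟩
    · exact ⟨_, memH (j + 1) (by omega) s (rx s hs) hs', hdist s hs _ uy⟩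

/-- **Length of the zero set.** -/
theorem length_le {q u : ℝ → ℝ → ℝ} (h : IsHelm q u) {B : ℝ} (hq0 : ∀ x y, 0 ≤ q x y)
    (hqB : ∀ x y, q x y ≤ B) {α β : ℝ} (hα : 0 < α) (hβ : 0 < β)
    (hpx : ∀ y, Function.Periodic (fun x => u x y) α)
    (hpy : ∀ x, Function.Periodic (fun y => u x y) β) {m₁ m₂ : ℕ}
    (h₁ : ∀ y, (∃ x, u x y ≠ 0) → Few (fun x => u x y) α m₁)
    (h₂ : ∀ x, (∃ y, u x y ≠ 0) → Few (fun y => u x y) β m₂)
    (hne : ∃ x y, u x y ≠ 0) :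
    μH[1] (nodal α β u) ≤ ENNReal.ofReal (18 * (α + β) * (m₁ + m₂)) := by
  have hB0 : 0 ≤ B := (hq0 0 0).trans (hqB 0 0)
  have hlim : Tendsto (fun n : ℕ => (B + 1) * ((α + β) / (n : ℝ)) ^ 2) atTop (𝓝 0) := by
    have h1 := tendsto_const_div_atTop_nhds_zero_nat (α + β)
    have h2 := (h1.pow 2).const_mul (B + 1)
    simpa using h2
  obtain ⟨n₀, hn₀⟩ := ((hlim.eventually_lt_const (show (0 : ℝ) < 8 by norm_num)).and
    (eventually_ge_atTop 1)).exists_forall_of_atTop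
  have hP : ∀ n, n₀ ≤ n → ∃ P : Finset ℂ, P.card ≤ (2 * n + 1) * (3 * m₁ + 3 * m₂) ∧
      nodal α β u ⊆ ⋃ p ∈ P, Metric.closedBall p ((α + β) / n) := fun n hn =>
    cover h hq0 hqB hα hβ hpx hpy h₁ h₂ hne (hn₀ n hn).2 (hn₀ n hn).1
  choose! P hPc hPcov using hP
  have hr : Tendsto (fun n : ℕ => ENNReal.ofReal (2 * ((α + β) / n))) atTop (𝓝 0) := by
    have h1 := (tendsto_const_div_atTop_nhds_zero_nat (α + β)).const_mul 2
    have h2 := ENNReal.tendsto_ofReal h1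
    simpa using h2
  have hdiam : ∀ (n : ℕ) (p : ℂ), Metric.ediam (Metric.closedBall p ((α + β) / n)) ≤
      ENNReal.ofReal (2 * ((α + β) / n)) := by
    intro n p
    refine Metric.ediam_le_of_forall_dist_le fun x hx y hy => ?_
    have := dist_triangle_right x y p
    rw [Metric.mem_closedBall] at hx hy
    linarith
  refine (Measure.hausdorffMeasure_le_liminf_sum (β := ℕ) (ι := fun n => P n) 1 (nodal α β u)
    (l := atTop) (fun n => ENNReal.ofReal (2 * ((α + β) / n))) hr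
    (fun n p => Metric.closedBall (p : ℂ) ((α + β) / n))
    (Eventually.of_forall fun n p => hdiam n p) ?_).trans ?_
  · filter_upwards [eventually_ge_atTop n₀] with n hn
    intro z hz
    have := hPcov n hn hz
    rw [mem_iUnion₂] at this
    obtain ⟨p, hp, hz'⟩ := this
    rw [mem_iUnion]
    exact ⟨⟨p, hp⟩, hz'⟩
  · refine (liminf_le_liminf (v := fun _ => ENNReal.ofReal (18 * (α + β) * (m₁ + m₂))) ?_).trans
      (by rw [liminf_const])
    filter_upwards [eventually_ge_atTop n₀] with n hn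
    have hn1 : (1 : ℝ) ≤ n := by exact_mod_cast (hn₀ n hn).2
    calc ∑ p : P n, Metric.ediam (Metric.closedBall (p : ℂ) ((α + β) / n)) ^ (1 : ℝ)
        ≤ ∑ p : P n, ENNReal.ofReal (2 * ((α + β) / n)) := by
          refine Finset.sum_le_sum fun p _ => ?_
          rw [ENNReal.rpow_one]
          exact hdiam n p
      _ = ((P n).card : ℝ≥0∞) * ENNReal.ofReal (2 * ((α + β) / n)) := by
          rw [Finset.sum_const, nsmul_eq_mul]
          simp
      _ = ENNReal.ofReal ((P n).card * (2 * ((α + β) / n))) := by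
          rw [ENNReal.ofReal_mul (p := ((P n).card : ℝ)) (by positivity), ENNReal.ofReal_natCast]
      _ ≤ ENNReal.ofReal (18 * (α + β) * (m₁ + m₂)) := by
          refine ENNReal.ofReal_le_ofReal ?_
          have h1 : ((P n).card : ℝ) ≤ ((2 * n + 1) * (3 * m₁ + 3 * m₂) : ℕ) := by
            exact_mod_cast hPc n hn
          push_cast at h1
          have h2 : (0 : ℝ) ≤ 2 * ((α + β) / n) := by positivity
          have h3 : ((2 : ℝ) * n + 1) ≤ 3 * n := by linarith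
          have h4 : (0 : ℝ) ≤ 3 * m₁ + 3 * m₂ := by positivity
          calc ((P n).card : ℝ) * (2 * ((α + β) / n))
              ≤ ((2 * n + 1) * (3 * m₁ + 3 * m₂)) * (2 * ((α + β) / n)) :=
                mul_le_mul_of_nonneg_right h1 h2
            _ ≤ ((3 * n) * (3 * m₁ + 3 * m₂)) * (2 * ((α + β) / n)) :=
                mul_le_mul_of_nonneg_right (mul_le_mul_of_nonneg_right h3 h4) h2
            _ = 18 * (α + β) * (m₁ + m₂) := by field_simp; ring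

end Pool.Agent.X146.Yau
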