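import Pool.Agent.X146.Yau.Smooth

set_option autoImplicit false

/-! A gradient bound and the finite dimension of the eigenspaces. -/

namespace Pool.Agent.X146.Yau

open Set Filter Topology
open scoped ContDiff

/-- weak minimum principle on a rectangle -/
lemma wmp {g gx gxx gy gyy : ℝ → ℝ → ℝ} (hc : Continuous (fun p : ℝ × ℝ => g p.1 p.2))
    (d1 : ∀ x y, HasDerivAt (fun s => g s y) (gx x y) x)
    (d2 : ∀ x y, HasDerivAt (fun s => gx s y) (gxx x y) x)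
    (d3 : ∀ x y, HasDerivAt (fun t => g x t) (gy x y) y)
    (d4 : ∀ x y, HasDerivAt (fun t => gy x t) (gyy x y) y) {x₁ x₂ y₁ y₂ : ℝ} (hx : x₁ ≤ x₂)
    (hy : y₁ ≤ y₂) (hneg : ∀ x ∈ Ioo x₁ x₂, ∀ y ∈ Ioo y₁ y₂, gxx x y + gyy x y < 0)
    (hb : ∀ x ∈ Icc x₁ x₂, ∀ y ∈ Icc y₁ y₂, (x = x₁ ∨ x = x₂ ∨ y = y₁ ∨ y = y₂) → 0 ≤ g x y) :
    ∀ x ∈ Icc x₁ x₂, ∀ y ∈ Icc y₁ y₂, 0 ≤ g x y := by
  obtain ⟨p₁, hp₁, hmin⟩ := ((isCompact_Icc (a := x₁) (b := x₂)).prod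
    (isCompact_Icc (a := y₁) (b := y₂))).exists_isMinOn
    ⟨(x₁, y₁), ⟨⟨le_rfl, hx⟩, ⟨le_rfl, hy⟩⟩⟩ hc.continuousOn
  suffices h0 : 0 ≤ g p₁.1 p₁.2 by
    intro x hx' y hy'
    exact h0.trans (hmin (show (x, y) ∈ Icc x₁ x₂ ×ˢ Icc y₁ y₂ from ⟨hx', hy'⟩))
  by_contra hcon
  push Not at hcon
  obtain ⟨⟨ha1, ha2⟩, ⟨hb1, hb2⟩⟩ := hp₁
  have hE : ¬(p₁.1 = x₁ ∨ p₁.1 = x₂ ∨ p₁.2 = y₁ ∨ p₁.2 = y₂) := fun h =>
    absurd (hb _ ⟨ha1, ha2⟩ _ ⟨hb1, hb2⟩ h) (not_le.mpr hcon)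
  simp only [not_or] at hE
  obtain ⟨n1, n2, n3, n4⟩ := hE
  have hxI : p₁.1 ∈ Ioo x₁ x₂ := ⟨lt_of_le_of_ne ha1 (Ne.symm n1), lt_of_le_of_ne ha2 n2⟩
  have hyI : p₁.2 ∈ Ioo y₁ y₂ := ⟨lt_of_le_of_ne hb1 (Ne.symm n3), lt_of_le_of_ne hb2 n4⟩
  have m1 := nonneg_of_min (Eventually.of_forall fun x => d1 x p₁.2) (d2 p₁.1 p₁.2) (by
    filter_upwards [Ioo_mem_nhds hxI.1 hxI.2] with x hx'
    exact hmin (show (x, p₁.2) ∈ Icc x₁ x₂ ×ˢ Icc y₁ y₂ from ⟨⟨hx'.1.le, hx'.2.le⟩, ⟨hb1, hb2⟩⟩))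
  have m2 := nonneg_of_min (Eventually.of_forall fun y => d3 p₁.1 y) (d4 p₁.1 p₁.2) (by
    filter_upwards [Ioo_mem_nhds hyI.1 hyI.2] with y hy'
    exact hmin (show (p₁.1, y) ∈ Icc x₁ x₂ ×ˢ Icc y₁ y₂ from ⟨⟨ha1, ha2⟩, ⟨hy'.1.le, hy'.2.le⟩⟩))
  have := hneg _ hxI _ hyI
  linarith

/-- a nonnegative function on `[0, 1]` vanishing at `0` has nonnegative derivative there -/
lemma deriv_nonneg_at {k : ℝ → ℝ} {c : ℝ} (hd : HasDerivAt k c 0) (h0 : k 0 = 0)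
    (h : ∀ y ∈ Icc (0 : ℝ) 1, 0 ≤ k y) : 0 ≤ c := by
  have h1 : Tendsto (slope k 0) (𝓝[>] 0) (𝓝 c) :=
    hd.tendsto_slope.mono_left (nhdsWithin_mono _ (fun x hx => ne_of_gt hx))
  refine ge_of_tendsto h1 ?_
  filter_upwards [Ioo_mem_nhdsGT (show (0 : ℝ) < 1 by norm_num)] with y hy
  rw [slope_def_field, h0, sub_zero, sub_zero]
  exact div_nonneg (h y ⟨hy.1.le, hy.2.le⟩) hy.1.le

/-- one sided gradient bound -/
lemma grad_aux {F : ℝ × ℝ → ℝ} (hF : ContDiff ℝ ∞ F) {M N : ℝ} (hM : ∀ p, |F p| ≤ M)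
    (hN : ∀ p, |Dx (Dx F) p + Dy (Dy F) p| < N) (p₀ : ℝ × ℝ) : Dy F p₀ ≤ 2 * M + N / 2 := by
  have hM0 : 0 ≤ M := (abs_nonneg _).trans (hM 0)
  have hN0 : 0 < N := (abs_nonneg _).trans_lt (hN 0)
  obtain ⟨x₀, y₀⟩ := p₀
  set g : ℝ → ℝ → ℝ := fun x y => M * (x ^ 2 + y * (2 - y)) + N * (y * (1 - y)) / 2 -
    (F (x₀ + x, y₀ + y) - F (x₀ + x, y₀ - y)) / 2 with hg
  have d1 : ∀ x y, HasDerivAt (fun s => g s y) (M * (2 * x) -
      (Dx F (x₀ + x, y₀ + y) - Dx F (x₀ + x, y₀ - y)) / 2) x := by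
    intro x y
    have e1 := ((hasDerivAt_Dx hF (x₀ + x) (y₀ + y)).comp_const_add x₀ x)
    have e2 := ((hasDerivAt_Dx hF (x₀ + x) (y₀ - y)).comp_const_add x₀ x)
    have e3 := (((((hasDerivAt_pow 2 x).add_const (y * (2 - y))).const_mul M).add_const
      (N * (y * (1 - y)) / 2)).sub ((e1.sub e2).div_const 2))
    refine e3.congr_deriv ?_
    simp
  have d2 : ∀ x y, HasDerivAt (fun s => M * (2 * s) -
      (Dx F (x₀ + s, y₀ + y) - Dx F (x₀ + s, y₀ - y)) / 2) (M * 2 -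
      (Dx (Dx F) (x₀ + x, y₀ + y) - Dx (Dx F) (x₀ + x, y₀ - y)) / 2) x := by
    intro x y
    have e1 := ((hasDerivAt_Dx (smooth_Dx hF) (x₀ + x) (y₀ + y)).comp_const_add x₀ x)
    have e2 := ((hasDerivAt_Dx (smooth_Dx hF) (x₀ + x) (y₀ - y)).comp_const_add x₀ x)
    have e3 := (((hasDerivAt_id x).const_mul 2).const_mul M).sub ((e1.sub e2).div_const 2)
    refine e3.congr_deriv ?_
    simp
  have d3 : ∀ x y, HasDerivAt (fun t => g x t) (M * (2 - 2 * y) + N * (1 - 2 * y) / 2 -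
      (Dy F (x₀ + x, y₀ + y) + Dy F (x₀ + x, y₀ - y)) / 2) y := by
    intro x y
    have e1 := ((hasDerivAt_Dy hF (x₀ + x) (y₀ + y)).comp_const_add y₀ y)
    have e2 := ((hasDerivAt_Dy hF (x₀ + x) (y₀ - y)).comp_const_sub y₀ y)
    have e4 : HasDerivAt (fun t : ℝ => t * (2 - t)) (2 - 2 * y) y := by
      have := (hasDerivAt_id y).mul ((hasDerivAt_id y).const_sub 2)
      refine this.congr_deriv ?_
      simp; ring
    have e5 : HasDerivAt (fun t : ℝ => t * (1 - t)) (1 - 2 * y) y := by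
      have := (hasDerivAt_id y).mul ((hasDerivAt_id y).const_sub 1)
      refine this.congr_deriv ?_
      simp; ring
    have e3 := ((((e4.const_add (x ^ 2)).const_mul M).add ((e5.const_mul N).div_const 2)).sub
      ((e1.sub e2).div_const 2))
    refine e3.congr_deriv ?_
    ring
  have d4 : ∀ x y, HasDerivAt (fun t => M * (2 - 2 * t) + N * (1 - 2 * t) / 2 -
      (Dy F (x₀ + x, y₀ + t) + Dy F (x₀ + x, y₀ - t)) / 2) (-(2 * M) - N -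
      (Dy (Dy F) (x₀ + x, y₀ + y) - Dy (Dy F) (x₀ + x, y₀ - y)) / 2) y := by
    intro x y
    have e1 := ((hasDerivAt_Dy (smooth_Dy hF) (x₀ + x) (y₀ + y)).comp_const_add y₀ y)
    have e2 := ((hasDerivAt_Dy (smooth_Dy hF) (x₀ + x) (y₀ - y)).comp_const_sub y₀ y)
    have e3 := ((((((hasDerivAt_id y).const_mul 2).const_sub 2).const_mul M).add
      (((((hasDerivAt_id y).const_mul 2).const_sub 1).const_mul N).div_const 2)).sub
      ((e1.add e2).div_const 2))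
    refine e3.congr_deriv ?_
    simp; ring
  have hFc : Continuous F := hF.continuous
  have hpos := wmp (g := g) (by simp only [hg]; fun_prop) d1 d2 d3 d4
    (show (-1 : ℝ) ≤ 1 by norm_num) (show (0 : ℝ) ≤ 1 by norm_num)
    (fun x _ y _ => by
      have e1 := (abs_lt.mp (hN (x₀ + x, y₀ + y))).1
      have e2 := (abs_lt.mp (hN (x₀ + x, y₀ - y))).2
      linarith)
    (fun x hx y hy hor => by
      simp only [hg]
      have e1 := abs_le.mp (hM (x₀ + x, y₀ + y))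
      have e2 := abs_le.mp (hM (x₀ + x, y₀ - y))
      have e3 : 0 ≤ y * (1 - y) := mul_nonneg hy.1 (by linarith [hy.2])
      have e4 : 0 ≤ N * (y * (1 - y)) := mul_nonneg hN0.le e3
      rcases hor with rfl | rfl | rfl | rfl
      · have : 0 ≤ M * (y * (2 - y)) := mul_nonneg hM0 (mul_nonneg hy.1 (by linarith [hy.2]))
        nlinarith [e1.1, e1.2, e2.1, e2.2]
      · have : 0 ≤ M * (y * (2 - y)) := mul_nonneg hM0 (mul_nonneg hy.1 (by linarith [hy.2]))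
        nlinarith [e1.1, e1.2, e2.1, e2.2]
      · simp only [add_zero, sub_zero, sub_self, zero_div, zero_mul, mul_zero]
        positivity
      · have : 0 ≤ M * x ^ 2 := by positivity
        nlinarith [e1.1, e1.2, e2.1, e2.2])
  have h1 := deriv_nonneg_at (d3 0 0) (by simp [hg]) (fun y hy => hpos 0 (by norm_num) y hy)
  simp only [mul_zero, sub_zero, mul_one, add_zero] at h1
  linarith

lemma Dy_neg {F : ℝ × ℝ → ℝ} (hF : ContDiff ℝ ∞ F) : Dy (fun p => -F p) = fun p => -Dy F p := by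
  funext p
  exact Dy_eq hF.neg (hasDerivAt_Dy hF p.1 p.2).neg

lemma Dx_neg {F : ℝ × ℝ → ℝ} (hF : ContDiff ℝ ∞ F) : Dx (fun p => -F p) = fun p => -Dx F p := by
  funext p
  exact Dx_eq hF.neg (hasDerivAt_Dx hF p.1 p.2).neg

lemma grad_y {F : ℝ × ℝ → ℝ} (hF : ContDiff ℝ ∞ F) {M N : ℝ} (hM : ∀ p, |F p| ≤ M)
    (hN : ∀ p, |Dx (Dx F) p + Dy (Dy F) p| < N) (p₀ : ℝ × ℝ) : |Dy F p₀| ≤ 2 * M + N / 2 := by
  have h1 := grad_aux hF hM hN p₀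
  have h2 := grad_aux (F := fun p => -F p) hF.neg (M := M) (N := N) (by simpa using hM) (by
    intro p
    rw [Dx_neg hF, Dx_neg (smooth_Dx hF), Dy_neg hF, Dy_neg (smooth_Dy hF)]
    have := hN p
    rw [← abs_neg] at this
    convert this using 2
    ring) p₀
  rw [Dy_neg hF] at h2
  rw [abs_le]
  constructor <;> linarith

/-- exchange of the variables -/
def sw (F : ℝ × ℝ → ℝ) (p : ℝ × ℝ) : ℝ := F (p.2, p.1)

lemma smooth_sw {F : ℝ × ℝ → ℝ} (hF : ContDiff ℝ ∞ F) : ContDiff ℝ ∞ (sw F) :=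
  hF.comp (contDiff_snd.prodMk contDiff_fst)

lemma Dy_sw {F : ℝ × ℝ → ℝ} (hF : ContDiff ℝ ∞ F) : Dy (sw F) = sw (Dx F) := by
  funext p
  exact Dy_eq (smooth_sw hF) (hasDerivAt_Dx hF p.2 p.1)

lemma Dx_sw {F : ℝ × ℝ → ℝ} (hF : ContDiff ℝ ∞ F) : Dx (sw F) = sw (Dy F) := by
  funext p
  exact Dx_eq (smooth_sw hF) (hasDerivAt_Dy hF p.2 p.1)

lemma grad_x {F : ℝ × ℝ → ℝ} (hF : ContDiff ℝ ∞ F) {M N : ℝ} (hM : ∀ p, |F p| ≤ M)
    (hN : ∀ p, |Dx (Dx F) p + Dy (Dy F) p| < N) (p₀ : ℝ × ℝ) : |Dx F p₀| ≤ 2 * M + N / 2 := by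
  have h1 := grad_y (smooth_sw hF) (M := M) (N := N) (fun p => hM _) (by
    intro p
    rw [Dx_sw hF, Dx_sw (smooth_Dy hF), Dy_sw hF, Dy_sw (smooth_Dx hF), add_comm]
    exact hN (p.2, p.1)) (p₀.2, p₀.1)
  rw [Dy_sw hF] at h1
  exact h1

/-- Lipschitz bound -/
lemma lip {F : ℝ × ℝ → ℝ} (hF : ContDiff ℝ ∞ F) {M N : ℝ} (hM : ∀ p, |F p| ≤ M)
    (hN : ∀ p, |Dx (Dx F) p + Dy (Dy F) p| < N) (x y x' y' : ℝ) :
    |F (x, y) - F (x', y')| ≤ (2 * M + N / 2) * (|x - x'| + |y - y'|) := by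
  have h1 := Convex.norm_image_sub_le_of_norm_hasDerivWithin_le (s := univ)
    (f := fun s => F (s, y)) (f' := fun s => Dx F (s, y)) (C := 2 * M + N / 2) (x := x') (y := x)
    (fun t _ => (hasDerivAt_Dx hF t y).hasDerivWithinAt)
    (fun t _ => grad_x hF hM hN (t, y)) convex_univ trivial trivial
  have h2 := Convex.norm_image_sub_le_of_norm_hasDerivWithin_le (s := univ)
    (f := fun t => F (x', t)) (f' := fun t => Dy F (x', t)) (C := 2 * M + N / 2) (x := y') (y := y)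
    (fun t _ => (hasDerivAt_Dy hF x' t).hasDerivWithinAt)
    (fun t _ => grad_y hF hM hN (x', t)) convex_univ trivial trivial
  simp only [Real.norm_eq_abs] at h1 h2
  have h3 := abs_add_le (F (x, y) - F (x', y)) (F (x', y) - F (x', y'))
  rw [sub_add_sub_cancel] at h3
  rw [mul_add]
  linarith

end Pool.Agent.X146.Yau
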