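import Pool.Agent.X146.Yau.Sec

set_option autoImplicit false

/-! Rolle steps on the whole line, Sturm comparison and the number of zeros of a single solution of
`G'' = -(q + ν) G`, `ν ≤ 0`, `0 ≤ q ≤ Q₀ e^{-2|x|}`. -/

namespace Pool.Agent.X146.Yau

open Set Filter Topology MeasureTheory

lemma convex_min {F F' F'' : ℝ → ℝ} (h1 : ∀ x, HasDerivAt F (F' x) x)
    (h2 : ∀ x, HasDerivAt F' (F'' x) x) (h3 : ∀ x, 0 ≤ F'' x) (h0 : F' 0 = 0) :
    ∀ x, F 0 ≤ F x := by
  have hm : Monotone F' := monotone_of_hasDerivAt_nonneg h2 h3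
  have hc : Continuous F := continuous_iff_continuousAt.mpr fun x => (h1 x).continuousAt
  intro x
  rcases lt_trichotomy x 0 with hx | hx | hx
  · obtain ⟨c, hc1, hc2⟩ := exists_hasDerivAt_eq_slope F F' hx hc.continuousOn (fun y _ => h1 y)
    have h4 := hm hc1.2.le
    rw [h0, hc2, div_le_iff₀ (by linarith)] at h4
    linarith
  · rw [hx]
  · obtain ⟨c, hc1, hc2⟩ := exists_hasDerivAt_eq_slope F F' hx hc.continuousOn (fun y _ => h1 y)
    have h4 := hm hc1.1.le
    rw [h0, hc2, le_div_iff₀ (by linarith)] at h4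
    linarith

/-- a positive solution of `h'' = Q h` which grows at both ends -/
lemma exists_grow (Q : ℝ → ℝ) (hQ : Continuous Q) (hpos : ∀ x, 1 ≤ Q x) {M : ℝ}
    (hM : ∀ x, Q x ≤ M) :
    ∃ h h' : ℝ → ℝ, (∀ x, HasDerivAt h (h' x) x) ∧ (∀ x, HasDerivAt h' (Q x * h x) x) ∧
      ∀ x, 1 + x ^ 2 / 2 ≤ h x := by
  have hM0 : 0 ≤ M := (zero_le_one.trans (hpos 0)).trans (hM 0)
  obtain ⟨ξ, h0, hd⟩ := Haraux.global_ode (E := ℝ × ℝ) (fun t p => (p.2, Q t * p.1))
    (Real.toNNReal (M + 1)) (by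
      intro t
      refine LipschitzWith.of_dist_le_mul fun p q => ?_
      rw [Real.coe_toNNReal _ (by linarith), Prod.dist_eq, Prod.dist_eq]
      simp only [Real.dist_eq]
      have h1 : |p.1 - q.1| ≤ max |p.1 - q.1| |p.2 - q.2| := le_max_left _ _
      have h2 : |p.2 - q.2| ≤ max |p.1 - q.1| |p.2 - q.2| := le_max_right _ _
      have h3 : 0 ≤ max |p.1 - q.1| |p.2 - q.2| := (abs_nonneg _).trans h1
      refine max_le ?_ ?_
      · nlinarith
      · rw [← mul_sub, abs_mul, abs_of_nonneg (zero_le_one.trans (hpos t))]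
        have := hM t
        have := hpos t
        nlinarith [abs_nonneg (p.1 - q.1)])
    (by
      simp only [Function.uncurry_def]
      fun_prop) (1, 0)
  have h1 : ∀ x, HasDerivAt (fun t => (ξ t).1) ((ξ x).2) x := fun x => by
    have := (hd x).hasFDerivAt.fst.hasDerivAt
    simpa using this
  have h2 : ∀ x, HasDerivAt (fun t => (ξ t).2) (Q x * (ξ x).1) x := fun x => by
    have := (hd x).hasFDerivAt.snd.hasDerivAt
    simpa using this
  refine ⟨fun t => (ξ t).1, fun t => (ξ t).2, h1, h2, ?_⟩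
  have hsq : ∀ x, 1 ≤ (ξ x).1 * (ξ x).1 := by
    have := convex_min (F := fun t => (ξ t).1 * (ξ t).1) (fun x => (h1 x).mul (h1 x))
      (fun x => ((h2 x).mul (h1 x)).add ((h1 x).mul (h2 x))) (fun x => by
        have := hpos x
        nlinarith [mul_self_nonneg (ξ x).2, mul_nonneg (zero_le_one.trans this)
          (mul_self_nonneg (ξ x).1)]) (by simp [h0])
    intro x
    have := this x
    simp only [h0] at this
    linarith
  have hc : Continuous (fun t => (ξ t).1) :=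
    continuous_iff_continuousAt.mpr fun x => (h1 x).continuousAt
  have hne : ∀ x, (ξ x).1 ≠ 0 := fun x h => by
    have := hsq x
    rw [h] at this
    norm_num at this
  have hp : ∀ x, 0 < (ξ x).1 := by
    intro x
    refine pos_of_ne hc (a := min 0 x) (b := max 0 x) (s := 0) ⟨min_le_left _ _, le_max_left _ _⟩
      (by rw [h0]; norm_num) (fun t _ => hne t) x ⟨min_le_right _ _, le_max_right _ _⟩
  have h1' : ∀ x, 1 ≤ (ξ x).1 := fun x => by nlinarith [hsq x, hp x]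
  intro x
  have := convex_min (F := fun t => (ξ t).1 - t ^ 2 / 2) (F' := fun t => (ξ t).2 - t)
    (F'' := fun t => Q t * (ξ t).1 - 1)
    (fun x => ((h1 x).sub (((hasDerivAt_id x).pow 2).div_const 2)).congr_deriv (by simp))
    (fun x => (h2 x).sub (hasDerivAt_id x)) (fun x => by nlinarith [h1' x, hpos x]) (by simp [h0]) x
  simp only [h0] at this
  linarith

/-- Rolle's theorem at `+∞` -/
lemma rolle_top {F F' : ℝ → ℝ} (hF : ∀ x, HasDerivAt F (F' x) x) {s : ℝ} (hs : F s = 0)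
    (hlim : Tendsto F atTop (𝓝 0)) : ∃ ξ, s < ξ ∧ F' ξ = 0 := by
  by_cases hall : ∀ x, s < x → F x = 0
  · refine ⟨s + 1, by linarith, ?_⟩
    have h1 : F =ᶠ[𝓝 (s + 1)] fun _ => 0 := by
      filter_upwards [lt_mem_nhds (show s < s + 1 by linarith)] with x hx
      exact hall x hx
    exact (hF (s + 1)).unique ((hasDerivAt_const _ _).congr_of_eventuallyEq h1)
  · push Not at hall
    obtain ⟨x₁, hx₁, hne⟩ := hall
    have hsq : Tendsto (fun x => F x ^ 2) atTop (𝓝 0) := by simpa using hlim.pow 2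
    obtain ⟨R, hR, hRx⟩ := ((hsq.eventually_lt_const (show (0 : ℝ) < F x₁ ^ 2 by positivity)).and
      (eventually_gt_atTop x₁)).exists
    have hc : Continuous F := continuous_iff_continuousAt.mpr fun x => (hF x).continuousAt
    obtain ⟨ξ, hξ, hmax⟩ := (isCompact_Icc (a := s) (b := R)).exists_isMaxOn
      (nonempty_Icc.mpr (by linarith)) (f := fun x => F x ^ 2) (hc.pow 2).continuousOn
    have h1 : F x₁ ^ 2 ≤ F ξ ^ 2 := hmax ⟨hx₁.le, hRx.le⟩
    have h2 : 0 < F ξ ^ 2 := lt_of_lt_of_le (by positivity) h1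
    have h3 : F ξ ≠ 0 := fun h => by rw [h] at h2; norm_num at h2
    have hsξ : s < ξ := lt_of_le_of_ne hξ.1 (fun h => h3 (h ▸ hs))
    have hξR : ξ < R := lt_of_le_of_ne hξ.2 (fun h => by rw [h] at h1; linarith)
    have h4 : IsLocalMax (fun x => F x ^ 2) ξ := by
      filter_upwards [Icc_mem_nhds hsξ hξR] with x hx using hmax hx
    have h5 := h4.hasDerivAt_eq_zero ((hF ξ).pow 2)
    refine ⟨ξ, hsξ, ?_⟩
    have h6 : F ξ * F' ξ = 0 := by
      simp only [Nat.cast_ofNat] at h5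
      norm_num at h5
      rcases h5 with h | h
      · rw [h, zero_mul]
      · rw [h, mul_zero]
    exact (mul_eq_zero.mp h6).resolve_left h3

lemma rolle_bot {F F' : ℝ → ℝ} (hF : ∀ x, HasDerivAt F (F' x) x) {s : ℝ} (hs : F s = 0)
    (hlim : Tendsto F atBot (𝓝 0)) : ∃ ξ, ξ < s ∧ F' ξ = 0 := by
  obtain ⟨ξ, hξ, hξ0⟩ := rolle_top (F := fun x => F (-x)) (F' := fun x => -F' (-x)) (s := -s)
    (fun x => by
      have := (hF (-x)).comp x (hasDerivAt_neg x)
      rw [mul_neg, mul_one] at this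
      exact this) (by simpa using hs) (hlim.comp tendsto_neg_atTop_atBot)
  exact ⟨-ξ, by linarith, by simpa using hξ0⟩

lemma div_grow {f h : ℝ → ℝ} {B : ℝ} (hB : ∀ x, |f x| ≤ B) (hgrow : ∀ x, 1 + x ^ 2 / 2 ≤ h x) :
    Tendsto (fun x => f x / h x) atTop (𝓝 0) ∧ Tendsto (fun x => f x / h x) atBot (𝓝 0) := by
  have hB0 : 0 ≤ B := (abs_nonneg _).trans (hB 0)
  have hle : ∀ x, ‖f x / h x‖ ≤ B / (1 + x ^ 2 / 2) := by
    intro x
    have h1 : 0 < 1 + x ^ 2 / 2 := by positivity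
    have h2 : 0 < h x := h1.trans_le (hgrow x)
    rw [Real.norm_eq_abs, abs_div, abs_of_pos h2]
    exact div_le_div₀ hB0 (hB x) h1 (hgrow x)
  have h3 : Tendsto (fun x : ℝ => 1 + x ^ 2 / 2) atTop atTop :=
    tendsto_atTop_add_const_left _ _ ((tendsto_pow_atTop two_ne_zero).atTop_div_const two_pos)
  have h3' : Tendsto (fun x : ℝ => 1 + x ^ 2 / 2) atBot atTop := by
    have := h3.comp tendsto_neg_atBot_atTop
    refine this.congr fun x => ?_
    simp
  exact ⟨squeeze_zero_norm hle (tendsto_const_nhds.div_atTop h3),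
    squeeze_zero_norm hle (tendsto_const_nhds.div_atTop h3')⟩

/-- The operator `f ↦ f'' - Q f` does not decrease the number of zeros of a bounded function. -/
lemma step_line {Q h h' : ℝ → ℝ} (hd : ∀ x, HasDerivAt h (h' x) x)
    (hd' : ∀ x, HasDerivAt h' (Q x * h x) x) (hgrow : ∀ x, 1 + x ^ 2 / 2 ≤ h x)
    {f f' f'' : ℝ → ℝ} (hf : ∀ x, HasDerivAt f (f' x) x) (hf' : ∀ x, HasDerivAt f' (f'' x) x)
    {B : ℝ} (hB : ∀ x, |f x| ≤ B) (S : Finset ℝ) (hS : ∀ s ∈ S, f s = 0) :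
    ∃ S' : Finset ℝ, S.card ≤ S'.card ∧ ∀ s ∈ S', f'' s - Q s * f s = 0 := by
  classical
  rcases S.eq_empty_or_nonempty with h0 | hne
  · exact ⟨∅, by simp [h0], by simp⟩
  have hpos : ∀ x, 0 < h x := fun x => lt_of_lt_of_le (by positivity) (hgrow x)
  have hF : ∀ x, HasDerivAt (fun x => f x / h x) ((f' x * h x - f x * h' x) / h x ^ 2) x :=
    fun x => (hf x).div (hd x) (hpos x).ne'
  have hF0 : ∀ x, (f' x * h x - f x * h' x) / h x ^ 2 = 0 → f' x * h x - f x * h' x = 0 := by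
    intro x hx
    rcases div_eq_zero_iff.mp hx with h1 | h1
    · exact h1
    · exact absurd h1 (pow_ne_zero 2 (hpos x).ne')
  obtain ⟨l1, l2⟩ := div_grow hB hgrow
  obtain ⟨a, ha, ha0⟩ := rolle_bot hF (s := S.min' hne)
    (by rw [hS _ (S.min'_mem hne), zero_div]) l2
  obtain ⟨b, hb, hb0⟩ := rolle_top hF (s := S.max' hne)
    (by rw [hS _ (S.max'_mem hne), zero_div]) l1
  obtain ⟨T, hT, hT0⟩ := rolle_finset (A := S.min' hne) (B := S.max' hne) (fun x _ => hF x) S
    (fun t ht => ⟨⟨S.min'_le t ht, S.le_max' t ht⟩, by rw [hS t ht, zero_div]⟩)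
  have hmm : S.min' hne ≤ S.max' hne := S.min'_le _ (S.max'_mem hne)
  have haT : a ∉ insert b T := by
    intro h
    rcases Finset.mem_insert.mp h with h | h
    · linarith
    · linarith [(hT0 a h).1.1]
  have hbT : b ∉ T := fun h => by linarith [(hT0 b h).1.2]
  have hW : ∀ x, HasDerivAt (fun x => f' x * h x - f x * h' x)
      ((f'' x - Q x * f x) * h x) x := by
    intro x
    refine (((hf' x).mul (hd x)).sub ((hf x).mul (hd' x))).congr_deriv ?_
    ring
  obtain ⟨T', hT', hT0'⟩ := rolle_finset (A := a) (B := b) (fun x _ => hW x)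
    (insert a (insert b T)) (by
      intro t ht
      rcases Finset.mem_insert.mp ht with rfl | ht
      · exact ⟨⟨le_rfl, by linarith⟩, hF0 _ ha0⟩
      rcases Finset.mem_insert.mp ht with rfl | ht
      · exact ⟨⟨by linarith, le_rfl⟩, hF0 _ hb0⟩
      · have := hT0 t ht
        exact ⟨⟨by linarith [this.1.1], by linarith [this.1.2]⟩, hF0 _ this.2⟩)
  refine ⟨T', ?_, fun s hs => ?_⟩
  · rw [Finset.card_insert_of_notMem haT, Finset.card_insert_of_notMem hbT] at hT'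
    omega
  · exact (mul_eq_zero.mp (hT0' s hs).2).resolve_right (hpos s).ne'

/-- Sturm comparison with a strict supersolution, one sided form -/
lemma IsSol.sturm_aux {Q φ φ' : ℝ → ℝ} (h : IsSol Q φ φ') {v v' v'' : ℝ → ℝ} {z z' : ℝ}
    (hz : z < z') (hv1 : ∀ x, HasDerivAt v (v' x) x) (hv2 : ∀ x, HasDerivAt v' (v'' x) x)
    (hvpos : ∀ x ∈ Icc z z', 0 < v x) (hsup : ∀ x ∈ Ioo z z', v'' x + Q x * v x < 0)
    (h0 : φ z = 0) (h1 : φ z' = 0) : ∀ x ∈ Icc z z', φ x ≤ 0 := by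
  have hvc : Continuous v := continuous_iff_continuousAt.mpr fun x => (hv1 x).continuousAt
  obtain ⟨ξ, hξ, hmax⟩ := (isCompact_Icc (a := z) (b := z')).exists_isMaxOn
    (nonempty_Icc.mpr hz.le) (f := fun x => φ x / v x)
    (h.cont.continuousOn.div hvc.continuousOn fun x hx => (hvpos x hx).ne')
  intro x hx
  by_contra hcon
  push Not at hcon
  set t := φ ξ / v ξ with ht
  have ht0 : 0 < t := lt_of_lt_of_le (div_pos hcon (hvpos x hx)) (hmax hx)
  have hφξ : φ ξ = t * v ξ := by rw [ht, div_mul_cancel₀ _ (hvpos ξ hξ).ne']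
  have hφpos : 0 < φ ξ := by rw [hφξ]; exact mul_pos ht0 (hvpos ξ hξ)
  have n1 : z < ξ := lt_of_le_of_ne hξ.1 (fun h => by rw [← h, h0] at hφpos; exact lt_irrefl _ hφpos)
  have n2 : ξ < z' := lt_of_le_of_ne hξ.2 (fun h => by rw [h, h1] at hφpos; exact lt_irrefl _ hφpos)
  have key := nonneg_of_min (g := fun x => t * v x - φ x) (g' := fun x => t * v' x - φ' x)
    (g'' := t * v'' ξ - -(Q ξ * φ ξ)) (x₀ := ξ)
    (Eventually.of_forall fun x => ((hv1 x).const_mul t).sub (h.d1 x))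
    (((hv2 ξ).const_mul t).sub (h.d2 ξ)) (by
      filter_upwards [Icc_mem_nhds n1 n2] with y hy
      rw [hφξ, sub_self]
      have h2 : φ y / v y ≤ t := hmax hy
      rw [div_le_iff₀ (hvpos y hy)] at h2
      linarith)
  have h3 := hsup ξ ⟨n1, n2⟩
  rw [hφξ] at key
  have h4 : t * (v'' ξ + Q ξ * v ξ) < 0 := mul_neg_of_pos_of_neg ht0 h3
  nlinarith

lemma IsSol.neg {Q φ φ' : ℝ → ℝ} (h : IsSol Q φ φ') : IsSol Q (fun x => -φ x) (fun x => -φ' x) :=
  ⟨fun x => (h.d1 x).neg, fun x => (h.d2 x).neg.congr_deriv (by ring)⟩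

/-- a solution with two zeros in an interval with a positive strict supersolution is trivial -/
lemma IsSol.sturm {Q φ φ' : ℝ → ℝ} (h : IsSol Q φ φ') {K : ℝ} (hK : ∀ x, |Q x| ≤ K)
    {v v' v'' : ℝ → ℝ} {z z' : ℝ}
    (hz : z < z') (hv1 : ∀ x, HasDerivAt v (v' x) x) (hv2 : ∀ x, HasDerivAt v' (v'' x) x)
    (hvpos : ∀ x ∈ Icc z z', 0 < v x) (hsup : ∀ x ∈ Ioo z z', v'' x + Q x * v x < 0)
    (h0 : φ z = 0) (h1 : φ z' = 0) : ∀ x, φ x = 0 := by
  have k1 := h.sturm_aux hz hv1 hv2 hvpos hsup h0 h1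
  have k2 := h.neg.sturm_aux hz hv1 hv2 hvpos hsup (by simp [h0]) (by simp [h1])
  have k3 : ∀ x ∈ Icc z z', φ x = 0 := fun x hx => by
    have := k2 x hx
    linarith [k1 x hx]
  have hm : (z + z') / 2 ∈ Ioo z z' := ⟨by linarith, by linarith⟩
  have k4 : φ =ᶠ[𝓝 ((z + z') / 2)] fun _ => 0 := by
    filter_upwards [Icc_mem_nhds hm.1 hm.2] with x hx using k3 x hx
  have k5 : φ' ((z + z') / 2) = 0 :=
    (h.d1 _).unique ((hasDerivAt_const _ _).congr_of_eventuallyEq k4)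
  exact h.zero hK (k3 _ ⟨hm.1.le, hm.2.le⟩) k5

end Pool.Agent.X146.Yau
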