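import Pool.Agent.X146.Yau.Sph

set_option autoImplicit false

/-! The lower bound of the spectrum of a sphere of revolution. -/

namespace Pool.Agent.X146.Yau

open Set Filter Topology MeasureTheory Real
open scoped ContDiff

lemma low_aux {q : ℝ → ℝ} {Q₀ : ℝ} (hQ₀ : 0 < Q₀) (hQ1 : Q₀ < 1)
    (hqe : ∀ x, 0 ≤ x → q x ≤ Q₀ * Real.exp (-2 * x)) {φ φ' : ℝ → ℝ} (h : IsSol q φ φ')
    {B : ℝ} (hB : ∀ x, |φ x| ≤ B) {z : ℝ} (hz : 0 ≤ z) (h0 : φ z = 0) :
    ∀ x, z ≤ x → φ x ≤ 0 := by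
  have hB0 : 0 ≤ B := (abs_nonneg _).trans (hB 0)
  set v : ℝ → ℝ := fun x => 1 - Q₀ / 2 * Real.exp (-2 * x) with hv
  have hE : ∀ x : ℝ, HasDerivAt (fun x : ℝ => Real.exp (-2 * x)) (Real.exp (-2 * x) * (-2)) x := by
    intro x
    have := ((hasDerivAt_id x).const_mul (-2)).exp
    simpa using this
  have hv1 : ∀ x, HasDerivAt v (Q₀ * Real.exp (-2 * x)) x := fun x => by
    refine (((hE x).const_mul (Q₀ / 2)).const_sub 1).congr_deriv ?_
    ring
  have hv2 : ∀ x, HasDerivAt (fun x => Q₀ * Real.exp (-2 * x)) (-(2 * (Q₀ * Real.exp (-2 * x)))) x :=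
    fun x => by
      refine ((hE x).const_mul Q₀).congr_deriv ?_
      ring
  have hvle : ∀ x, v x ≤ 1 := fun x => by
    have : 0 < Q₀ / 2 * Real.exp (-2 * x) := by positivity
    simp only [hv]
    linarith
  have hvge : ∀ x, 0 ≤ x → 1 / 2 ≤ v x := fun x hx => by
    have h1 : Real.exp (-2 * x) ≤ 1 := Real.exp_le_one_iff.mpr (by linarith)
    have h2 : Q₀ / 2 * Real.exp (-2 * x) ≤ Q₀ / 2 * 1 :=
      mul_le_mul_of_nonneg_left h1 (by positivity)
    simp only [hv]
    linarith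
  -- the supremum of `φ / v`
  set A : Set ℝ := (fun x => φ x / v x) '' Ici z with hA
  have hbdd : BddAbove A := by
    refine ⟨2 * B, ?_⟩
    rintro _ ⟨x, hx, rfl⟩
    have h1 := hvge x (hz.trans hx)
    simp only
    rw [div_le_iff₀ (by linarith)]
    have := (abs_le.mp (hB x)).2
    nlinarith
  intro x hx
  by_contra hcon
  push Not at hcon
  set t := sSup A with ht
  have htx : φ x / v x ≤ t := le_csSup hbdd ⟨x, hx, rfl⟩
  have ht0 : 0 < t := lt_of_lt_of_le (div_pos hcon (by linarith [hvge x (hz.trans hx)])) htx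
  have hne : A.Nonempty := ⟨_, ⟨z, mem_Ici.mpr le_rfl, rfl⟩⟩
  obtain ⟨_, ⟨x₁, hx₁, rfl⟩, hlt⟩ := exists_lt_of_lt_csSup hne
    (show 3 / 4 * t < sSup A by rw [← ht]; linarith)
  have key := half_line_max (D := fun x => φ x - 3 / 4 * t * v x)
    (D' := fun x => φ' x - 3 / 4 * t * (Q₀ * Real.exp (-2 * x)))
    (D'' := fun x => -(q x * φ x) - 3 / 4 * t * -(2 * (Q₀ * Real.exp (-2 * x)))) (X := z) (B := B)
    (fun x => (h.d1 x).sub ((hv1 x).const_mul _)) (fun x => (h.d2 x).sub ((hv2 x).const_mul _))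
    (by
      rw [h0]
      have := mul_pos ht0 (show 0 < v z by linarith [hvge z hz])
      nlinarith)
    (fun y hy => by
      have := (abs_le.mp (hB y)).2
      have := mul_nonneg ht0.le (show 0 ≤ v y by linarith [hvge y (hz.trans hy)])
      nlinarith)
    (fun y hy hD => by
      have hy0 : 0 ≤ y := hz.trans hy.le
      have e1 : φ y / v y ≤ t := le_csSup hbdd ⟨y, hy.le, rfl⟩
      have e2 := hvge y hy0
      rw [div_le_iff₀ (by linarith)] at e1
      have e3 : φ y ≤ t := e1.trans (by nlinarith [hvle y])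
      have e4 : 0 < φ y := by
        have : 0 < t * v y := mul_pos ht0 (by linarith)
        nlinarith
      have e5 : 0 < Q₀ * Real.exp (-2 * y) := by positivity
      have e6 : q y * φ y ≤ Q₀ * Real.exp (-2 * y) * φ y :=
        mul_le_mul_of_nonneg_right (hqe y hy0) e4.le
      have e7 : Q₀ * Real.exp (-2 * y) * φ y ≤ Q₀ * Real.exp (-2 * y) * t :=
        mul_le_mul_of_nonneg_left e3 e5.le
      have e8 : 0 < Q₀ * Real.exp (-2 * y) * t := mul_pos e5 ht0
      nlinarith)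
  have h1 := key x₁ hx₁
  simp only at hlt
  rw [lt_div_iff₀ (by linarith [hvge x₁ (hz.trans hx₁)])] at hlt
  linarith

lemma low_half {q : ℝ → ℝ} {Q₀ : ℝ} (hQ₀ : 0 < Q₀) (hQ1 : Q₀ < 1) {K : ℝ}
    (hK : ∀ x, |q x| ≤ K)
    (hqe : ∀ x, 0 ≤ x → q x ≤ Q₀ * Real.exp (-2 * x)) {φ φ' : ℝ → ℝ} (h : IsSol q φ φ')
    {B : ℝ} (hB : ∀ x, |φ x| ≤ B) {z : ℝ} (hz : 0 ≤ z) (h0 : φ z = 0) : ∀ x, φ x = 0 := by
  have k1 := low_aux hQ₀ hQ1 hqe h hB hz h0
  have k2 := low_aux hQ₀ hQ1 hqe h.neg (B := B) (fun x => by rw [abs_neg]; exact hB x) hz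
    (by rw [h0, neg_zero])
  have k3 : ∀ x, z ≤ x → φ x = 0 := fun x hx => by
    have := k2 x hx
    linarith [k1 x hx]
  have k4 : φ =ᶠ[𝓝 (z + 1)] fun _ => 0 := by
    filter_upwards [lt_mem_nhds (show z < z + 1 by linarith)] with x hx using k3 x hx.le
  have k5 : φ' (z + 1) = 0 :=
    (h.d1 _).unique ((hasDerivAt_const _ _).congr_of_eventuallyEq k4)
  exact h.zero hK (k3 _ (by linarith)) k5

/-- a positive solution cannot be concave on the whole line -/
lemma no_pos {q : ℝ → ℝ} (hq : ∀ x, 0 < q x) {φ φ' : ℝ → ℝ} (h : IsSol q φ φ')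
    (hpos : ∀ x, 0 < φ x) : False := by
  have hm : Antitone φ' := by
    have : Monotone (fun x => -φ' x) := monotone_of_hasDerivAt_nonneg (fun x => (h.d2 x).neg)
      (fun x => by
        have := mul_pos (hq x) (hpos x)
        simp only [Pi.zero_apply, neg_neg]
        exact this.le)
    intro a b hab
    have := this hab
    simp only at this
    linarith
  have hzero : ∀ x, φ' x = 0 := by
    intro x₀
    by_contra hne
    rcases lt_or_gt_of_ne hne with hneg | hp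
    · set s := -φ' x₀ with hs
      have hs0 : 0 < s := by linarith
      set y := x₀ + (φ x₀ + 1) / s with hy
      have hyx : x₀ < y := by
        have : 0 < (φ x₀ + 1) / s := div_pos (by linarith [hpos x₀]) hs0
        linarith
      obtain ⟨c, hc1, hc2⟩ := exists_hasDerivAt_eq_slope φ φ' hyx h.cont.continuousOn
        (fun z _ => h.d1 z)
      have h1 : φ' c ≤ -s := by
        have := hm hc1.1.le
        linarith
      rw [hc2, div_le_iff₀ (by linarith)] at h1
      have h2 : s * (y - x₀) = φ x₀ + 1 := by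
        rw [hy]
        field_simp
        ring
      nlinarith [hpos y]
    · set s := φ' x₀ with hs
      set y := x₀ - (φ x₀ + 1) / s with hy
      have hyx : y < x₀ := by
        have : 0 < (φ x₀ + 1) / s := div_pos (by linarith [hpos x₀]) hp
        linarith
      obtain ⟨c, hc1, hc2⟩ := exists_hasDerivAt_eq_slope φ φ' hyx h.cont.continuousOn
        (fun z _ => h.d1 z)
      have h1 : s ≤ φ' c := by
        have := hm hc1.2.le
        linarith
      rw [hc2, le_div_iff₀ (by linarith)] at h1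
      have h2 : s * (x₀ - y) = φ x₀ + 1 := by
        rw [hy]
        field_simp
        ring
      nlinarith [hpos y]
  have h1 : φ' = fun _ => 0 := funext hzero
  have h2 := h.d2 0
  rw [h1] at h2
  have h3 := h2.unique (hasDerivAt_const 0 0)
  have h4 := mul_pos (hq 0) (hpos 0)
  linarith

lemma low_trivial {q : ℝ → ℝ} {Q₀ : ℝ} (hQ₀ : 0 < Q₀) (hQ1 : Q₀ < 1) (hq : ∀ x, 0 < q x)
    (hqe : ∀ x, q x ≤ Q₀ * Real.exp (-2 * |x|)) {φ φ' : ℝ → ℝ} (h : IsSol q φ φ')
    {B : ℝ} (hB : ∀ x, |φ x| ≤ B) : ∀ x, φ x = 0 := by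
  by_contra hne
  push Not at hne
  obtain ⟨x₀, hx₀⟩ := hne
  have hK : ∀ x, |q x| ≤ 1 := fun x => by
    have h1 : Real.exp (-2 * |x|) ≤ 1 := Real.exp_le_one_iff.mpr (by nlinarith [abs_nonneg x])
    rw [abs_of_pos (hq x)]
    have := hqe x
    nlinarith
  have hnz : ∀ z, φ z ≠ 0 := by
    intro z hz
    rcases le_or_gt 0 z with h0 | h0
    · exact hx₀ (low_half hQ₀ hQ1 hK (fun x hx => by
        have := hqe x
        rwa [abs_of_nonneg hx] at this) h hB h0 hz x₀)
    · have := low_half (q := fun x => q (-x)) hQ₀ hQ1 (fun x => hK (-x)) (fun x hx => by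
        have := hqe (-x)
        rwa [abs_neg, abs_of_nonneg hx] at this) h.refl (fun x => hB (-x)) (z := -z)
        (by linarith) (by rw [neg_neg]; exact hz) (-x₀)
      rw [neg_neg] at this
      exact hx₀ this
  have hsign : ∀ ψ ψ' : ℝ → ℝ, IsSol q ψ ψ' → (∀ z, ψ z ≠ 0) → 0 < ψ 0 → False := by
    intro ψ ψ' hs hz h0
    refine no_pos hq hs fun x => ?_
    exact pos_of_ne hs.cont (a := min 0 x) (b := max 0 x) (s := 0)
      ⟨min_le_left _ _, le_max_left _ _⟩ h0 (fun t _ => hz t) x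
      ⟨min_le_right _ _, le_max_right _ _⟩
  rcases lt_or_gt_of_ne (hnz 0) with h0 | h0
  · exact hsign _ _ h.neg (fun z => neg_ne_zero.mpr (hnz z)) (by linarith)
  · exact hsign _ _ h hnz h0

lemma one_le_Q {q : ℝ → ℝ} {Q₀ : ℝ} (hQ₀ : 0 < Q₀) (hq : ∀ x, 0 < q x)
    (hqe : ∀ x, q x ≤ Q₀ * Real.exp (-2 * |x|)) {u : ℝ × ℝ → ℝ} (hu : IsSph q u)
    (hne : ∃ p, u p ≠ 0) : 1 ≤ Q₀ := by
  by_contra hcon
  push Not at hcon
  obtain ⟨⟨x, θ⟩, hp⟩ := hne
  obtain ⟨B, hB⟩ := hu.bdd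
  have hK : ∀ k : ℤ, (0 : ℤ) < |k| → ∀ x, q x < (k : ℝ) ^ 2 := by
    intro k hk x
    have h1 : Real.exp (-2 * |x|) ≤ 1 := Real.exp_le_one_iff.mpr (by nlinarith [abs_nonneg x])
    have h2 := hqe x
    have h3 : (1 : ℝ) ≤ |(k : ℝ)| := by
      have : (1 : ℤ) ≤ |k| := hk
      exact_mod_cast this
    rw [← sq_abs]
    nlinarith
  have h0 : IsSol q (fun x => fc (fun t => u (x, t)) 0) (fun x => fc (fun t => Dx u (x, t)) 0) := by
    have := fc_sol hu 0
    have e : (fun x => q x + -((0 : ℤ) : ℝ) ^ 2) = q := by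
      funext x
      simp
    rwa [e] at this
  have h1 := low_trivial hQ₀ hcon hq hqe h0 (B := B)
    (fun y => coef_bdd (fun t => hB _) (fun t => abs_cos_le_one _)) x
  have h2 := expand hu hK x θ
  simp only [neg_zero, Finset.Icc_self, Finset.sum_singleton, Int.cast_zero, zero_mul, cos_zero,
    sin_zero, mul_one, mul_zero, add_zero] at h2
  rw [h1] at h2
  exact hp h2

end Pool.Agent.X146.Yau
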