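import Pool.Agent.X146.Yau.Count

set_option autoImplicit false

/-! Second derivative tests, the range of the eigenvalues and the maximum principle on small
rectangles. -/

namespace Pool.Agent.X146.Yau

open Set Filter Topology

/-- second derivative test -/
lemma nonneg_of_min {g g' : ℝ → ℝ} {g'' x₀ : ℝ} (h1 : ∀ᶠ x in 𝓝 x₀, HasDerivAt g (g' x) x)
    (h2 : HasDerivAt g' g'' x₀) (hmin : IsLocalMin g x₀) : 0 ≤ g'' := by
  by_contra hneg
  push Not at hneg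
  have h0 : g' x₀ = 0 := hmin.hasDerivAt_eq_zero h1.self_of_nhds
  -- `g' < 0` on a right neighbourhood
  have h3 := h2.tendsto_slope
  have h4 : ∀ᶠ x in 𝓝[≠] x₀, slope g' x₀ x < 0 := h3.eventually_lt_const hneg
  rw [eventually_nhdsWithin_iff] at h4
  have h5 := (h4.and (h1.and hmin))
  obtain ⟨δ, hδ, hball⟩ := Metric.eventually_nhds_iff_ball.mp h5
  set x₁ := x₀ + δ / 2 with hx₁
  have hin : ∀ x ∈ Icc x₀ x₁, x ∈ Metric.ball x₀ δ := fun x hx => by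
    rw [Metric.mem_ball, Real.dist_eq, abs_lt]
    constructor <;> linarith [hx.1, hx.2]
  obtain ⟨c, hc, hc'⟩ := exists_hasDerivAt_eq_slope g g' (show x₀ < x₁ by linarith)
    (fun x hx => (hball x (hin x hx)).2.1.continuousAt.continuousWithinAt)
    (fun x hx => (hball x (hin x ⟨hx.1.le, hx.2.le⟩)).2.1)
  have h6 := (hball c (hin c ⟨hc.1.le, hc.2.le⟩)).1 (by simpa using hc.1.ne')
  rw [slope_def_field, h0, sub_zero, div_lt_iff₀ (by linarith [hc.1]), zero_mul] at h6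
  have h7 := (hball x₁ (hin x₁ ⟨by linarith, le_rfl⟩)).2.2
  have h8 : g' c = (g x₁ - g x₀) / (x₁ - x₀) := hc'
  have h9 : 0 ≤ (g x₁ - g x₀) / (x₁ - x₀) := div_nonneg (by linarith) (by linarith)
  linarith

/-- no periodic solution if the potential is negative -/
lemma IsSol.trivial_of_neg {Q φ φ' : ℝ → ℝ} (h : IsSol Q φ φ') {α : ℝ} (hα : 0 < α)
    (hp : Function.Periodic φ α) (hQ : ∀ x, Q x < 0) : ∀ x, φ x = 0 := by
  have key : ∀ ψ ψ' : ℝ → ℝ, IsSol Q ψ ψ' → Function.Periodic ψ α → ∀ x, 0 ≤ ψ x := by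
    intro ψ ψ' hs hp
    obtain ⟨x₀, -, hx₀⟩ := (isCompact_Icc (a := (0 : ℝ)) (b := α)).exists_isMinOn
      (nonempty_Icc.mpr hα.le) hs.cont.continuousOn
    have hglob : ∀ x, ψ x₀ ≤ ψ x := fun x => by
      obtain ⟨y, hy, hxy⟩ := hp.exists_mem_Ico₀ hα x
      rw [hxy]
      exact hx₀ (mem_Icc_of_Ico hy)
    have h1 := nonneg_of_min (Eventually.of_forall hs.d1) (hs.d2 x₀)
      (Eventually.of_forall hglob)
    have h2 := hQ x₀
    intro x
    have h3 : 0 ≤ ψ x₀ := by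
      by_contra h4
      push Not at h4
      nlinarith [mul_pos_of_neg_of_neg h2 h4]
    exact h3.trans (hglob x)
  intro x
  have h1 := key φ φ' h hp x
  have h2 := key (fun x => -φ x) (fun x => -φ' x)
    ⟨fun x => (h.d1 x).neg, fun x => by
      have := (h.d2 x).neg
      refine this.congr_deriv ?_
      ring⟩ (fun x => by simp only [hp x]) x
  linarith

/-- a continuous function without zeros on an interval has constant sign -/
lemma pos_of_ne {g : ℝ → ℝ} (hg : Continuous g) {a b s : ℝ} (hs : s ∈ Icc a b) (hpos : 0 < g s)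
    (hne : ∀ t ∈ Icc a b, g t ≠ 0) : ∀ t ∈ Icc a b, 0 < g t := by
  intro t ht
  by_contra hcon
  push Not at hcon
  have h1 := intermediate_value_uIcc (a := t) (b := s) (f := g) hg.continuousOn
  have h2 : (0 : ℝ) ∈ uIcc (g t) (g s) := by
    rw [uIcc_of_le (hcon.trans hpos.le)]
    exact ⟨hcon, hpos.le⟩
  obtain ⟨r, hr, hr0⟩ := h1 h2
  have h3 : uIcc t s ⊆ Icc a b := ordConnected_Icc.uIcc_subset ht hs
  exact hne r (h3 hr) hr0

/-- data of a solution of `Δu + q u = 0` -/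
structure IsHelm (q : ℝ → ℝ → ℝ) (u : ℝ → ℝ → ℝ) : Prop where
  cont : Continuous (fun p : ℝ × ℝ => u p.1 p.2)
  eq : ∃ ux uxx uy uyy : ℝ → ℝ → ℝ, (∀ x y, HasDerivAt (fun s => u s y) (ux x y) x) ∧
    (∀ x y, HasDerivAt (fun s => ux s y) (uxx x y) x) ∧
    (∀ x y, HasDerivAt (fun t => u x t) (uy x y) y) ∧
    (∀ x y, HasDerivAt (fun t => uy x t) (uyy x y) y) ∧
    ∀ x y, uxx x y + uyy x y = -(q x y * u x y)

lemma IsHelm.neg {q u : ℝ → ℝ → ℝ} (h : IsHelm q u) : IsHelm q (fun x y => -u x y) := by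
  obtain ⟨hc, ux, uxx, uy, uyy, h1, h2, h3, h4, h5⟩ := h
  refine ⟨hc.neg, fun x y => -ux x y, fun x y => -uxx x y, fun x y => -uy x y,
    fun x y => -uyy x y, fun x y => (h1 x y).neg, fun x y => (h2 x y).neg,
    fun x y => (h3 x y).neg, fun x y => (h4 x y).neg, fun x y => ?_⟩
  have := h5 x y
  linarith

/-- **Maximum principle on small rectangles.** A solution which is positive on the boundary of a
small rectangle is positive in the rectangle. -/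
lemma IsHelm.pos {q u : ℝ → ℝ → ℝ} (h : IsHelm q u) {B δ : ℝ} (hq0 : ∀ x y, 0 ≤ q x y)
    (hqB : ∀ x y, q x y ≤ B) (hδ : (B + 1) * δ ^ 2 < 8) {x₁ x₂ y₁ y₂ : ℝ}
    (hx : x₁ ≤ x₂) (hy : y₁ ≤ y₂) (hxδ : x₂ - x₁ ≤ δ) (hyδ : y₂ - y₁ ≤ δ)
    (hb : ∀ x ∈ Icc x₁ x₂, ∀ y ∈ Icc y₁ y₂, (x = x₁ ∨ x = x₂ ∨ y = y₁ ∨ y = y₂) → 0 < u x y) :
    ∀ x ∈ Icc x₁ x₂, ∀ y ∈ Icc y₁ y₂, 0 < u x y := by
  have hB0 : 0 ≤ B := (hq0 0 0).trans (hqB 0 0)
  obtain ⟨hc, ux, uxx, uy, uyy, d1, d2, d3, d4, hpde⟩ := h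
  set R : Set (ℝ × ℝ) := Icc x₁ x₂ ×ˢ Icc y₁ y₂ with hR
  have hRc : IsCompact R := isCompact_Icc.prod isCompact_Icc
  have hRne : R.Nonempty := ⟨(x₁, y₁), ⟨⟨le_rfl, hx⟩, ⟨le_rfl, hy⟩⟩⟩
  -- the boundary
  set E : Set (ℝ × ℝ) := {p | p.1 = x₁ ∨ p.1 = x₂ ∨ p.2 = y₁ ∨ p.2 = y₂} with hE
  have hEcl : IsClosed E := by
    have e1 : IsClosed {p : ℝ × ℝ | p.1 = x₁} := isClosed_eq continuous_fst continuous_const
    have e2 : IsClosed {p : ℝ × ℝ | p.1 = x₂} := isClosed_eq continuous_fst continuous_const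
    have e3 : IsClosed {p : ℝ × ℝ | p.2 = y₁} := isClosed_eq continuous_snd continuous_const
    have e4 : IsClosed {p : ℝ × ℝ | p.2 = y₂} := isClosed_eq continuous_snd continuous_const
    exact e1.union (e2.union (e3.union e4))
  obtain ⟨p₀, hp₀, hmin₀⟩ := (hRc.inter_right hEcl).exists_isMinOn
    ⟨(x₁, y₁), ⟨⟨⟨le_rfl, hx⟩, ⟨le_rfl, hy⟩⟩, Or.inl rfl⟩⟩ hc.continuousOn
  set s := u p₀.1 p₀.2 with hs
  have hspos : 0 < s := hb _ hp₀.1.1 _ hp₀.1.2 hp₀.2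
  -- the comparison function
  set xc := (x₁ + x₂) / 2 with hxc
  set yc := (y₁ + y₂) / 2 with hyc
  set c := (B + 1) / 4 with hcdef
  have hcpos : 0 < c := by positivity
  set w : ℝ → ℝ → ℝ := fun x y => 1 - c * ((x - xc) ^ 2 + (y - yc) ^ 2) with hw
  have hwpos : ∀ p ∈ R, 0 < w p.1 p.2 := by
    rintro ⟨x, y⟩ ⟨h1, h2⟩
    simp only [hw]
    simp only at h1 h2
    have e1 : (x - xc) ^ 2 ≤ (δ / 2) ^ 2 := by
      apply sq_le_sq'
      · simp only [hxc]; linarith [h1.1, h1.2]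
      · simp only [hxc]; linarith [h1.1, h1.2]
    have e2 : (y - yc) ^ 2 ≤ (δ / 2) ^ 2 := by
      apply sq_le_sq'
      · simp only [hyc]; linarith [h2.1, h2.2]
      · simp only [hyc]; linarith [h2.1, h2.2]
    have e3 : c * ((x - xc) ^ 2 + (y - yc) ^ 2) ≤ c * ((δ / 2) ^ 2 + (δ / 2) ^ 2) :=
      mul_le_mul_of_nonneg_left (by linarith) hcpos.le
    simp only [hcdef] at e3 ⊢
    nlinarith
  have hwle : ∀ x y, w x y ≤ 1 := fun x y => by
    simp only [hw]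
    have : 0 ≤ c * ((x - xc) ^ 2 + (y - yc) ^ 2) := by positivity
    linarith
  have hwc : Continuous (fun p : ℝ × ℝ => w p.1 p.2) := by
    simp only [hw]
    fun_prop
  obtain ⟨p₁, hp₁, hmin₁⟩ := hRc.exists_isMinOn hRne
    (f := fun p : ℝ × ℝ => (u p.1 p.2 - s) / w p.1 p.2)
    (fun p hp => ((hc.continuousAt.sub continuousAt_const).div hwc.continuousAt
      (hwpos p hp).ne').continuousWithinAt)
  set t := (u p₁.1 p₁.2 - s) / w p₁.1 p₁.2 with ht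
  -- it suffices to show `0 ≤ t`
  suffices h0t : 0 ≤ t by
    intro x hx' y hy'
    have h1 := hmin₁ (show (x, y) ∈ R from ⟨hx', hy'⟩)
    simp only [mem_ofPred_eq] at h1
    have h2 := hwpos (x, y) ⟨hx', hy'⟩
    simp only at h2
    have h3 : 0 ≤ (u x y - s) / w x y := h0t.trans h1
    have h4 := (div_nonneg_iff.mp h3).resolve_right (fun h5 => absurd h5.2 (not_le.mpr h2))
    linarith [h4.1]
  by_contra htneg
  push Not at htneg
  have hp₁E : p₁ ∉ E := by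
    intro hmem
    have h1 := hmin₀ (show p₁ ∈ R ∩ E from ⟨hp₁, hmem⟩)
    simp only [mem_ofPred_eq] at h1
    have : 0 ≤ t := div_nonneg (by linarith) (hwpos p₁ hp₁).le
    linarith
  have hge : ∀ p ∈ R, 0 ≤ u p.1 p.2 - s - t * w p.1 p.2 := by
    intro p hp
    have h1 := hmin₁ hp
    simp only [mem_ofPred_eq] at h1
    have h2 := hwpos p hp
    rw [← ht, le_div_iff₀ h2] at h1
    linarith
  have heq : u p₁.1 p₁.2 - s - t * w p₁.1 p₁.2 = 0 := by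
    rw [ht, div_mul_cancel₀ _ (hwpos p₁ hp₁).ne', sub_self]
  obtain ⟨⟨ha1, ha2⟩, ⟨hb1, hb2⟩⟩ := hp₁
  simp only [hE, mem_ofPred_eq, not_or] at hp₁E
  obtain ⟨n1, n2, n3, n4⟩ := hp₁E
  have hxI : p₁.1 ∈ Ioo x₁ x₂ := ⟨lt_of_le_of_ne ha1 (Ne.symm n1), lt_of_le_of_ne ha2 n2⟩
  have hyI : p₁.2 ∈ Ioo y₁ y₂ := ⟨lt_of_le_of_ne hb1 (Ne.symm n3), lt_of_le_of_ne hb2 n4⟩
  have m1 := nonneg_of_min (g := fun x => u x p₁.2 - s - t * w x p₁.2)
    (g' := fun x => ux x p₁.2 - t * (-(c * (2 * (x - xc)))))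
    (g'' := uxx p₁.1 p₁.2 - t * (-(c * 2))) (x₀ := p₁.1)
    (Eventually.of_forall fun x => by
      have e1 := ((d1 x p₁.2).sub_const s).sub
        (((((((hasDerivAt_id x).sub_const xc).pow 2).add_const ((p₁.2 - yc) ^ 2)).const_mul
          c).const_sub 1).const_mul t)
      refine e1.congr_deriv ?_
      simp)
    (by
      have e1 := (d2 p₁.1 p₁.2).sub
        ((((((hasDerivAt_id p₁.1).sub_const xc).const_mul 2).const_mul c).neg).const_mul t)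
      refine e1.congr_deriv ?_
      simp)
    (by
      filter_upwards [Ioo_mem_nhds hxI.1 hxI.2] with x hx'
      rw [heq]
      exact hge (x, p₁.2) ⟨⟨hx'.1.le, hx'.2.le⟩, ⟨hb1, hb2⟩⟩)
  have m2 := nonneg_of_min (g := fun y => u p₁.1 y - s - t * w p₁.1 y)
    (g' := fun y => uy p₁.1 y - t * (-(c * (2 * (y - yc)))))
    (g'' := uyy p₁.1 p₁.2 - t * (-(c * 2))) (x₀ := p₁.2)
    (Eventually.of_forall fun y => by
      have e1 := ((d3 p₁.1 y).sub_const s).sub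
        (((((((hasDerivAt_id y).sub_const yc).pow 2).const_add ((p₁.1 - xc) ^ 2)).const_mul
          c).const_sub 1).const_mul t)
      refine e1.congr_deriv ?_
      simp)
    (by
      have e1 := (d4 p₁.1 p₁.2).sub
        ((((((hasDerivAt_id p₁.2).sub_const yc).const_mul 2).const_mul c).neg).const_mul t)
      refine e1.congr_deriv ?_
      simp)
    (by
      filter_upwards [Ioo_mem_nhds hyI.1 hyI.2] with y hy'
      rw [heq]
      exact hge (p₁.1, y) ⟨⟨ha1, ha2⟩, ⟨hy'.1.le, hy'.2.le⟩⟩)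
  have m3 := hpde p₁.1 p₁.2
  have m4 : u p₁.1 p₁.2 = s + t * w p₁.1 p₁.2 := by linarith
  have m5 := hq0 p₁.1 p₁.2
  have m6 := hqB p₁.1 p₁.2
  have m7 := hwle p₁.1 p₁.2
  have m8 := hwpos p₁ ⟨⟨ha1, ha2⟩, ⟨hb1, hb2⟩⟩
  rw [m4] at m3
  have m9 : q p₁.1 p₁.2 * w p₁.1 p₁.2 ≤ B := by
    calc q p₁.1 p₁.2 * w p₁.1 p₁.2 ≤ q p₁.1 p₁.2 * 1 := mul_le_mul_of_nonneg_left m7 m5
      _ ≤ B := by linarith
  have m10 : 0 ≤ q p₁.1 p₁.2 * s := mul_nonneg m5 hspos.le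
  have m11 : 0 < (4 * c - q p₁.1 p₁.2 * w p₁.1 p₁.2) := by
    simp only [hcdef]
    linarith
  have m12 : t * (4 * c - q p₁.1 p₁.2 * w p₁.1 p₁.2) < 0 := mul_neg_of_neg_of_pos htneg m11
  nlinarith

/-- a zero in a small rectangle forces a zero on its boundary -/
lemma IsHelm.exists_boundary {q u : ℝ → ℝ → ℝ} (h : IsHelm q u) {B δ : ℝ}
    (hq0 : ∀ x y, 0 ≤ q x y) (hqB : ∀ x y, q x y ≤ B) (hδ : (B + 1) * δ ^ 2 < 8)
    {x₁ x₂ y₁ y₂ : ℝ} (hxδ : x₂ - x₁ ≤ δ) (hyδ : y₂ - y₁ ≤ δ) {x y : ℝ} (hx : x ∈ Icc x₁ x₂)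
    (hy : y ∈ Icc y₁ y₂) (hu : u x y = 0) :
    (∃ t ∈ Icc y₁ y₂, u x₁ t = 0 ∨ u x₂ t = 0) ∨ ∃ s ∈ Icc x₁ x₂, u s y₁ = 0 ∨ u s y₂ = 0 := by
  by_contra hcon
  push Not at hcon
  obtain ⟨c1, c2⟩ := hcon
  have hx12 := hx.1.trans hx.2
  have hy12 := hy.1.trans hy.2
  have key : ∀ v : ℝ → ℝ → ℝ, IsHelm q v → (∀ t ∈ Icc y₁ y₂, v x₁ t ≠ 0 ∧ v x₂ t ≠ 0) →
      (∀ s ∈ Icc x₁ x₂, v s y₁ ≠ 0 ∧ v s y₂ ≠ 0) → 0 < v x₁ y₁ → v x y ≠ 0 := by
    intro v hv e1 e2 e3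
    have hv1 : ∀ x, Continuous (fun t => v x t) := fun x =>
      hv.cont.comp (continuous_const.prodMk continuous_id)
    have hv2 : ∀ y, Continuous (fun s => v s y) := fun y =>
      hv.cont.comp (continuous_id.prodMk continuous_const)
    have f1 := pos_of_ne (hv1 x₁) (s := y₁) ⟨le_rfl, hy12⟩ e3 (fun t ht => (e1 t ht).1)
    have f2 := pos_of_ne (hv2 y₁) (s := x₁) ⟨le_rfl, hx12⟩ e3 (fun t ht => (e2 t ht).1)
    have f3 := pos_of_ne (hv2 y₂) (s := x₁) ⟨le_rfl, hx12⟩ (f1 y₂ ⟨hy12, le_rfl⟩)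
      (fun t ht => (e2 t ht).2)
    have f4 := pos_of_ne (hv1 x₂) (s := y₁) ⟨le_rfl, hy12⟩ (f2 x₂ ⟨hx12, le_rfl⟩)
      (fun t ht => (e1 t ht).2)
    refine (hv.pos hq0 hqB hδ hx12 hy12 hxδ hyδ ?_ x hx y hy).ne'
    intro a ha b hb hab
    rcases hab with rfl | rfl | rfl | rfl
    · exact f1 b hb
    · exact f4 b hb
    · exact f2 a ha
    · exact f3 a ha
  rcases lt_trichotomy (u x₁ y₁) 0 with h1 | h1 | h1
  · refine key (fun x y => -u x y) h.neg (fun t ht => ?_) (fun s hs => ?_) (by linarith)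
      (by simp only [hu, neg_zero])
    · exact ⟨neg_ne_zero.mpr (c1 t ht).1, neg_ne_zero.mpr (c1 t ht).2⟩
    · exact ⟨neg_ne_zero.mpr (c2 s hs).1, neg_ne_zero.mpr (c2 s hs).2⟩
  · exact (c1 y₁ ⟨le_rfl, hy12⟩).1 h1
  · exact key u h c1 c2 h1 hu

end Pool.Agent.X146.Yau
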