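import Pool.Agent.X146.Yau.Eig

set_option autoImplicit false

/-! The symmetric operator on the eigenspace. -/

namespace Pool.Agent.X146.Yau

open Set Filter Topology MeasureTheory
open scoped ContDiff

lemma diag {V : Type} [AddCommGroup V] [Module ℝ V] [FiniteDimensional ℝ V]
    (cd : InnerProductSpace.Core ℝ V) (T : V →ₗ[ℝ] V)
    (hT : ∀ u v, cd.inner (T u) v = cd.inner u (T v)) :
    ∃ (n : ℕ) (e : Fin n → V) (ν : Fin n → ℝ), (∀ i, e i ≠ 0) ∧ (∀ i, T (e i) = ν i • e i) ∧
      ∀ v, ∃ c : Fin n → ℝ, v = ∑ i, c i • e i := by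
  letI : NormedAddCommGroup V := @InnerProductSpace.Core.toNormedAddCommGroup ℝ V _ _ _ cd
  letI : InnerProductSpace ℝ V := InnerProductSpace.ofCore cd.toCore
  have hS : T.IsSymmetric := fun u v => hT u v
  refine ⟨Module.finrank ℝ V, hS.eigenvectorBasis rfl, hS.eigenvalues rfl, fun i => ?_,
    fun i => ?_, fun v => ?_⟩
  · intro h0
    have := (hS.eigenvectorBasis rfl).norm_eq_one i
    rw [h0, norm_zero] at this
    exact zero_ne_one this
  · exact hS.apply_eigenvectorBasis rfl i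
  · exact ⟨fun i => (hS.eigenvectorBasis rfl).repr v i, ((hS.eigenvectorBasis rfl).sum_repr v).symm⟩

/-- potential of a Liouville metric -/
def pot (lam : ℝ) (a b : ℝ → ℝ) (p : ℝ × ℝ) : ℝ := lam * (a p.1 + b p.2)

/-- the operator `-(∂_x² + λ a)` -/
noncomputable def TX (lam : ℝ) (a : ℝ → ℝ) (u : ℝ × ℝ → ℝ) (p : ℝ × ℝ) : ℝ :=
  -(Dx (Dx u) p + lam * a p.1 * u p)

lemma smooth_fst {a : ℝ → ℝ} (ha : ContDiff ℝ ∞ a) : ContDiff ℝ ∞ (fun p : ℝ × ℝ => a p.1) :=
  ha.comp contDiff_fst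

lemma smooth_snd {a : ℝ → ℝ} (ha : ContDiff ℝ ∞ a) : ContDiff ℝ ∞ (fun p : ℝ × ℝ => a p.2) :=
  ha.comp contDiff_snd

lemma Dy_mul_fst {a : ℝ → ℝ} (ha : ContDiff ℝ ∞ a) (c : ℝ) {u : ℝ × ℝ → ℝ}
    (hu : ContDiff ℝ ∞ u) :
    Dy (fun p => c * a p.1 * u p) = fun p => c * a p.1 * Dy u p := by
  funext p
  exact Dy_eq ((contDiff_const.mul (smooth_fst ha)).mul hu)
    ((hasDerivAt_Dy hu p.1 p.2).const_mul (c * a p.1))

lemma Dx_mul_snd {b : ℝ → ℝ} (hb : ContDiff ℝ ∞ b) (c : ℝ) {u : ℝ × ℝ → ℝ}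
    (hu : ContDiff ℝ ∞ u) :
    Dx (fun p => c * b p.2 * u p) = fun p => c * b p.2 * Dx u p := by
  funext p
  exact Dx_eq ((contDiff_const.mul (smooth_snd hb)).mul hu)
    ((hasDerivAt_Dx hu p.1 p.2).const_mul (c * b p.2))

lemma Dx_add' {F G : ℝ × ℝ → ℝ} (hF : ContDiff ℝ ∞ F) (hG : ContDiff ℝ ∞ G) :
    Dx (fun p => F p + G p) = fun p => Dx F p + Dx G p := Dx_add hF hG

lemma Dy_add' {F G : ℝ × ℝ → ℝ} (hF : ContDiff ℝ ∞ F) (hG : ContDiff ℝ ∞ G) :
    Dy (fun p => F p + G p) = fun p => Dy F p + Dy G p := Dy_add hF hG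

lemma TX_mem {α β lam : ℝ} {a b : ℝ → ℝ} (ha : ContDiff ℝ ∞ a) (hb : ContDiff ℝ ∞ b)
    (hap : Function.Periodic a α) {u : ℝ × ℝ → ℝ} (hu : IsEig α β (pot lam a b) u) :
    IsEig α β (pot lam a b) (TX lam a u) := by
  have hs := hu.smooth
  have sxx := smooth_Dx (smooth_Dx hs)
  have syy := smooth_Dy (smooth_Dy hs)
  have sau : ContDiff ℝ ∞ (fun p : ℝ × ℝ => lam * a p.1 * u p) :=
    (contDiff_const.mul (smooth_fst ha)).mul hs
  have sbu : ContDiff ℝ ∞ (fun p : ℝ × ℝ => lam * b p.2 * u p) :=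
    (contDiff_const.mul (smooth_snd hb)).mul hs
  have hTs : ContDiff ℝ ∞ (TX lam a u) := (sxx.add sau).neg
  -- the operator in the other variable
  have hT : TX lam a u = fun p => Dy (Dy u) p + lam * b p.2 * u p := by
    funext p
    have := hu.eq p
    simp only [TX, pot] at this ⊢
    linear_combination (-1) * this
  refine ⟨hTs, fun p => ?_, fun p => ?_⟩
  · have p1 := ((hu.per.Dx hs).Dx (smooth_Dx hs)) p
    have p2 := hu.per p
    simp only [TX]
    refine ⟨?_, ?_⟩
    · rw [p1.1, p2.1, hap]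
    · rw [p1.2, p2.2]
  · -- derivatives in x through the second representation, in y through the first one
    have e1 : Dx (Dx (TX lam a u)) p = Dx (Dx (Dy (Dy u))) p + lam * b p.2 * Dx (Dx u) p := by
      rw [hT, Dx_add' syy sbu, Dx_mul_snd hb lam hs,
        Dx_add' (smooth_Dx syy) ((contDiff_const.mul (smooth_snd hb)).mul (smooth_Dx hs)),
        Dx_mul_snd hb lam (smooth_Dx hs)]
    have e2 : Dy (Dy (TX lam a u)) p = -(Dy (Dy (Dx (Dx u))) p + lam * a p.1 * Dy (Dy u) p) := by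
      have h1 : TX lam a u = fun p => -(Dx (Dx u) p + lam * a p.1 * u p) := rfl
      rw [h1, Dy_neg (sxx.add sau), Dy_add' sxx sau, Dy_mul_fst ha lam hs,
        Dy_neg ((smooth_Dy sxx).add ((contDiff_const.mul (smooth_fst ha)).mul (smooth_Dy hs))),
        Dy_add' (smooth_Dy sxx) ((contDiff_const.mul (smooth_fst ha)).mul (smooth_Dy hs)),
        Dy_mul_fst ha lam (smooth_Dy hs)]
    have e3 : Dx (Dx (Dy (Dy u))) = Dy (Dy (Dx (Dx u))) := by
      rw [comm_xy (smooth_Dy hs), comm_xy hs, comm_xy (smooth_Dy (smooth_Dx hs)),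
        comm_xy (smooth_Dx hs)]
    rw [e1, e2, e3]
    have h4 := hu.eq p
    simp only [TX, pot] at h4 ⊢
    linear_combination (-(lam * a p.1)) * h4

/-- `L²` product over a period -/
noncomputable def ip (α β : ℝ) (u v : ℝ × ℝ → ℝ) : ℝ :=
  ∫ y in (0 : ℝ)..β, ∫ x in (0 : ℝ)..α, u (x, y) * v (x, y)

lemma cont_inner {α : ℝ} {f : ℝ × ℝ → ℝ} (hf : Continuous f) :
    Continuous (fun y => ∫ x in (0 : ℝ)..α, f (x, y)) := by
  refine intervalIntegral.continuous_parametric_intervalIntegral_of_continuous'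
    (f := fun y x => f (x, y)) ?_ 0 α
  simp only [Function.uncurry_def]
  fun_prop

lemma ip_symm {α β : ℝ} {lam : ℝ} {a : ℝ → ℝ} {u v : ℝ × ℝ → ℝ} (hu : ContDiff ℝ ∞ u)
    (hv : ContDiff ℝ ∞ v) (hup : Per α β u) (hvp : Per α β v) (ha : Continuous a) :
    ip α β (TX lam a u) v = ip α β u (TX lam a v) := by
  unfold ip
  congr 1
  funext y
  have hW : ∀ x, HasDerivAt (fun s => Dx u (s, y) * v (s, y) - u (s, y) * Dx v (s, y))
      (Dx (Dx u) (x, y) * v (x, y) - u (x, y) * Dx (Dx v) (x, y)) x := by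
    intro x
    have := ((hasDerivAt_Dx (smooth_Dx hu) x y).mul (hasDerivAt_Dx hv x y)).sub
      ((hasDerivAt_Dx hu x y).mul (hasDerivAt_Dx (smooth_Dx hv) x y))
    refine this.congr_deriv ?_
    ring
  have c1 := (smooth_Dx (smooth_Dx hu)).continuous
  have c2 := (smooth_Dx (smooth_Dx hv)).continuous
  have c3 := hu.continuous
  have c4 := hv.continuous
  have hint := intervalIntegral.integral_eq_sub_of_hasDerivAt (a := 0) (b := α)
    (fun x _ => hW x) (Continuous.intervalIntegrable (by fun_prop) _ _)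
  have hz : Dx u (α, y) * v (α, y) - u (α, y) * Dx v (α, y) -
      (Dx u (0, y) * v (0, y) - u (0, y) * Dx v (0, y)) = 0 := by
    have f1 := (hup.Dx hu).x y 0
    have f2 := (hvp.Dx hv).x y 0
    have f3 := hup.x y 0
    have f4 := hvp.x y 0
    simp only [zero_add] at f1 f2 f3 f4
    rw [f1, f2, f3, f4, sub_self]
  rw [hz] at hint
  rw [← sub_eq_zero, ← intervalIntegral.integral_sub
    (Continuous.intervalIntegrable (by simp only [TX]; fun_prop) _ _)
    (Continuous.intervalIntegrable (by simp only [TX]; fun_prop) _ _), ← neg_eq_zero,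
    ← intervalIntegral.integral_neg, ← hint]
  congr 1
  funext x
  simp only [TX]
  ring

lemma integral_pos_of {f : ℝ → ℝ} (hf : Continuous f) {a b : ℝ} (hab : a < b)
    (h0 : ∀ x, 0 ≤ f x) {c : ℝ} (hc : c ∈ Icc a b) (hpos : 0 < f c) : 0 < ∫ x in a..b, f x := by
  have := intervalIntegral.integral_lt_integral_of_continuousOn_of_le_of_exists_lt
    (f := fun _ => (0 : ℝ)) (g := f) hab continuousOn_const hf.continuousOn
    (fun x _ => h0 x) ⟨c, hc, hpos⟩
  simpa using this

lemma ip_pos {α β : ℝ} (hα : 0 < α) (hβ : 0 < β) {u : ℝ × ℝ → ℝ} (hu : Continuous u)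
    (hp : Per α β u) (hne : u ≠ 0) : 0 < ip α β u u := by
  obtain ⟨p, hp0⟩ : ∃ p, u p ≠ 0 := by
    by_contra hcon
    push Not at hcon
    exact hne (funext hcon)
  obtain ⟨⟨x₀, y₀⟩, ⟨hx, hy⟩, hpp⟩ := hp.exists_mem hα hβ p
  rw [hpp] at hp0
  have hsq : Continuous (fun p : ℝ × ℝ => u p * u p) := hu.mul hu
  refine integral_pos_of (cont_inner hsq) hβ (fun y => ?_) (mem_Icc_of_Ico hy) ?_
  · exact intervalIntegral.integral_nonneg hα.le fun x _ => mul_self_nonneg _
  · refine integral_pos_of (by fun_prop) hα (fun x => mul_self_nonneg _) (mem_Icc_of_Ico hx) ?_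
    exact mul_self_pos.mpr hp0

lemma ip_add {α β : ℝ} {u v w : ℝ × ℝ → ℝ} (hu : Continuous u) (hv : Continuous v)
    (hw : Continuous w) : ip α β (u + v) w = ip α β u w + ip α β v w := by
  unfold ip
  have c1 := cont_inner (α := α) (hu.mul hw)
  have c2 := cont_inner (α := α) (hv.mul hw)
  simp only [Pi.mul_apply] at c1 c2
  rw [← intervalIntegral.integral_add (c1.intervalIntegrable _ _) (c2.intervalIntegrable _ _)]
  congr 1
  funext y
  rw [← intervalIntegral.integral_add
    (Continuous.intervalIntegrable (by fun_prop) _ _)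
    (Continuous.intervalIntegrable (by fun_prop) _ _)]
  congr 1
  funext x
  simp only [Pi.add_apply]
  ring

/-- the inner product of the eigenspace -/
noncomputable def core {α β : ℝ} (hα : 0 < α) (hβ : 0 < β) (q : ℝ × ℝ → ℝ) :
    InnerProductSpace.Core ℝ (eig α β q) where
  inner u v := ip α β u v
  conj_inner_symm u v := by
    simp only [conj_trivial]
    unfold ip
    congr 1
    funext y
    congr 1
    funext x
    ring
  re_inner_nonneg u := by
    by_cases h : (u : ℝ × ℝ → ℝ) = 0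
    · rw [h]
      simp [ip]
    · exact (ip_pos hα hβ u.2.smooth.continuous u.2.per h).le
  add_left u v w := ip_add u.2.smooth.continuous v.2.smooth.continuous w.2.smooth.continuous
  smul_left u v r := by
    simp only [conj_trivial]
    change ip α β (r • (u : ℝ × ℝ → ℝ)) v = r * ip α β u v
    unfold ip
    rw [← intervalIntegral.integral_const_mul]
    congr 1
    funext y
    rw [← intervalIntegral.integral_const_mul]
    congr 1
    funext x
    simp only [Pi.smul_apply, smul_eq_mul]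
    ring
  definite u h := by
    by_contra hne
    have h1 : (u : ℝ × ℝ → ℝ) ≠ 0 := fun h => hne (Subtype.ext h)
    exact (ip_pos hα hβ u.2.smooth.continuous u.2.per h1).ne' h

/-- **Separation of variables.** -/
theorem separation {α β lam : ℝ} (hα : 0 < α) (hβ : 0 < β) {a b : ℝ → ℝ}
    (ha : ContDiff ℝ ∞ a) (hb : ContDiff ℝ ∞ b) (hap : Function.Periodic a α)
    (hbp : Function.Periodic b β) {u : ℝ × ℝ → ℝ} (hu : IsEig α β (pot lam a b) u) :
    ∃ (n : ℕ) (e : Fin n → ℝ × ℝ → ℝ) (ν : Fin n → ℝ) (c : Fin n → ℝ),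
      (∀ i, IsEig α β (pot lam a b) (e i)) ∧ (∀ i, e i ≠ 0) ∧
      (∀ i, TX lam a (e i) = fun p => ν i * e i p) ∧ ∀ p, u p = ∑ i, c i * e i p := by
  obtain ⟨A, hA0, hA⟩ := bounded_of_periodic ha.continuous hα hap
  obtain ⟨B, hB0, hB⟩ := bounded_of_periodic hb.continuous hβ hbp
  have hfd : FiniteDimensional ℝ (eig α β (pot lam a b)) :=
    finDim hα hβ (B := |lam| * (A + B)) (by positivity) (fun p => by
      rw [pot, abs_mul]
      refine mul_le_mul_of_nonneg_left ?_ (abs_nonneg _)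
      exact (abs_add_le _ _).trans (add_le_add (hA _) (hB _)))
  let T : eig α β (pot lam a b) →ₗ[ℝ] eig α β (pot lam a b) :=
    { toFun := fun v => ⟨TX lam a v, TX_mem ha hb hap v.2⟩
      map_add' := fun v w => by
        apply Subtype.ext
        funext p
        change TX lam a ((v : ℝ × ℝ → ℝ) + w) p = TX lam a v p + TX lam a w p
        simp only [TX]
        rw [Dx_add v.2.smooth w.2.smooth, Dx_add (smooth_Dx v.2.smooth) (smooth_Dx w.2.smooth)]
        simp only [Pi.add_apply]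
        ring
      map_smul' := fun r v => by
        apply Subtype.ext
        funext p
        change TX lam a (r • (v : ℝ × ℝ → ℝ)) p = r * TX lam a v p
        simp only [TX]
        rw [Dx_smul v.2.smooth, Dx_smul (smooth_Dx v.2.smooth)]
        simp only [Pi.smul_apply, smul_eq_mul]
        ring }
  obtain ⟨n, e, ν, he0, heT, hspan⟩ := diag (core hα hβ (pot lam a b)) T (fun v w =>
    ip_symm v.2.smooth w.2.smooth v.2.per w.2.per ha.continuous)
  obtain ⟨c, hc⟩ := hspan ⟨u, hu⟩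
  refine ⟨n, fun i => e i, ν, c, fun i => (e i).2, fun i h => he0 i (Subtype.ext h), fun i => ?_,
    fun p => ?_⟩
  · exact congrArg Subtype.val (heT i)
  · have h1 : u = ∑ i, c i • (e i : ℝ × ℝ → ℝ) := by
      have := congrArg Subtype.val hc
      simpa using this
    have h2 := congrFun h1 p
    simpa using h2

end Pool.Agent.X146.Yau
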