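import Mathlib
import Pool.Agent.Helper27.Har.P_global_ode

set_option autoImplicit false

/-! Zeros of functions on the line: Rolle steps for finite sets of zeros. -/

namespace Pool.Agent.X146.Yau

open Set Filter Topology

/-- finitely many zeros of `F` in an interval give one zero less of the derivative. -/
lemma rolle_finset {F F' : ℝ → ℝ} {A B : ℝ} (hF : ∀ x ∈ Icc A B, HasDerivAt F (F' x) x)
    (T : Finset ℝ) (hT : ∀ t ∈ T, t ∈ Icc A B ∧ F t = 0) :
    ∃ T' : Finset ℝ, T.card ≤ T'.card + 1 ∧ ∀ t ∈ T', t ∈ Ioo A B ∧ F' t = 0 := by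
  rcases Nat.eq_zero_or_pos T.card with h0 | hpos
  · exact ⟨∅, by simp [h0], by simp⟩
  obtain ⟨n, hn⟩ : ∃ n, T.card = n + 1 := ⟨T.card - 1, by omega⟩
  set e := T.orderEmbOfFin hn with he
  have hmem : ∀ i, e i ∈ T := fun i => Finset.orderEmbOfFin_mem T hn i
  have hlt : ∀ i : Fin n, e i.castSucc < e i.succ := fun i => by
    have : i.castSucc < i.succ := Fin.castSucc_lt_succ
    exact e.strictMono this
  have hex : ∀ i : Fin n, ∃ c ∈ Ioo (e i.castSucc) (e i.succ), F' c = 0 := by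
    intro i
    refine exists_hasDerivAt_eq_zero (f := F) (hlt i) ?_ ?_ ?_
    · intro x hx
      have hx' : x ∈ Icc A B := ⟨(hT _ (hmem _)).1.1.trans hx.1, hx.2.trans (hT _ (hmem _)).1.2⟩
      exact (hF x hx').continuousAt.continuousWithinAt
    · rw [(hT _ (hmem _)).2, (hT _ (hmem _)).2]
    · intro x hx
      exact hF x ⟨(hT _ (hmem _)).1.1.trans hx.1.le, hx.2.le.trans (hT _ (hmem _)).1.2⟩
  choose c hc hc0 using hex
  have hmono : StrictMono c := by
    intro i j hij
    have h1 : e i.succ ≤ e j.castSucc := e.monotone (by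
      rw [Fin.le_def]
      simp only [Fin.val_succ, Fin.val_castSucc]
      exact hij)
    exact (hc i).2.trans_le (h1.trans (hc j).1.le)
  refine ⟨Finset.univ.map ⟨c, hmono.injective⟩, ?_, ?_⟩
  · simp [hn]
  · intro t ht
    simp only [Finset.mem_map, Finset.mem_univ, Function.Embedding.coeFn_mk, true_and] at ht
    obtain ⟨i, rfl⟩ := ht
    refine ⟨⟨(hT _ (hmem _)).1.1.trans_lt (hc i).1, (hc i).2.trans_le (hT _ (hmem _)).1.2⟩, hc0 i⟩

/-- a positive solution of `h'' = Q h` on `[0, ∞)` -/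
lemma exists_pos (Q : ℝ → ℝ) (hQ : Continuous Q) (hpos : ∀ x, 0 ≤ Q x) {M : ℝ}
    (hM : ∀ x, Q x ≤ M) :
    ∃ h h' : ℝ → ℝ, (∀ x, HasDerivAt h (h' x) x) ∧ (∀ x, HasDerivAt h' (Q x * h x) x) ∧
      ∀ x, 0 ≤ x → 0 < h x := by
  have hM0 : 0 ≤ M := (hpos 0).trans (hM 0)
  obtain ⟨ξ, h0, hd⟩ := Haraux.global_ode (E := ℝ × ℝ) (fun t p => (p.2, Q t * p.1))
    (Real.toNNReal (M + 1)) (by
      intro t
      refine LipschitzWith.of_dist_le_mul fun p q => ?_
      rw [Real.coe_toNNReal _ (by linarith), Prod.dist_eq, Prod.dist_eq]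
      simp only [Real.dist_eq]
      have h1 : |p.1 - q.1| ≤ max |p.1 - q.1| |p.2 - q.2| := le_max_left _ _
      have h2 : |p.2 - q.2| ≤ max |p.1 - q.1| |p.2 - q.2| := le_max_right _ _
      have h3 : 0 ≤ max |p.1 - q.1| |p.2 - q.2| := (abs_nonneg _).trans h1
      refine max_le ?_ ?_
      · nlinarith
      · rw [← mul_sub, abs_mul, abs_of_nonneg (hpos t)]
        have := hM t
        have := hpos t
        nlinarith [abs_nonneg (p.1 - q.1)])
    (by
      simp only [Function.uncurry_def]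
      fun_prop) (1, 0)
  have h1 : ∀ x, HasDerivAt (fun t => (ξ t).1) ((ξ x).2) x := fun x => by
    have := (hd x).hasFDerivAt.fst.hasDerivAt
    simpa using this
  have h2 : ∀ x, HasDerivAt (fun t => (ξ t).2) (Q x * (ξ x).1) x := fun x => by
    have := (hd x).hasFDerivAt.snd.hasDerivAt
    simpa using this
  refine ⟨fun t => (ξ t).1, fun t => (ξ t).2, h1, h2, ?_⟩
  -- `h h'` is nondecreasing
  have hprod : ∀ x, 0 ≤ x → 0 ≤ (ξ x).1 * (ξ x).2 := by
    intro x hx
    have hm : Monotone (fun t => (ξ t).1 * (ξ t).2) := by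
      refine monotone_of_hasDerivAt_nonneg (f' := fun t => (ξ t).2 * (ξ t).2 +
        (ξ t).1 * (Q t * (ξ t).1)) (fun t => (h1 t).mul (h2 t)) ?_
      intro t
      simp only [Pi.zero_apply]
      have := hpos t
      nlinarith [mul_self_nonneg (ξ t).2, mul_nonneg this (mul_self_nonneg (ξ t).1)]
    have := hm hx
    simp only [h0] at this
    linarith
  have hsq : ∀ x, 0 ≤ x → 1 ≤ (ξ x).1 * (ξ x).1 := by
    intro x hx
    have hm : MonotoneOn (fun t => (ξ t).1 * (ξ t).1) (Ici 0) := by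
      refine monotoneOn_of_deriv_nonneg (convex_Ici 0) ?_ ?_ ?_
      · exact fun t _ => ((h1 t).mul (h1 t)).continuousAt.continuousWithinAt
      · exact fun t _ => ((h1 t).mul (h1 t)).differentiableAt.differentiableWithinAt
      · intro t ht
        rw [interior_Ici] at ht
        have hd2 : deriv (fun t => (ξ t).1 * (ξ t).1) t = (ξ t).2 * (ξ t).1 + (ξ t).1 * (ξ t).2 :=
          ((h1 t).mul (h1 t)).deriv
        rw [hd2]
        have := hprod t (le_of_lt ht)
        nlinarith
    have := hm (mem_Ici.mpr le_rfl) (mem_Ici.mpr hx) hx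
    simp only [h0] at this
    linarith
  intro x hx
  by_contra hneg
  push Not at hneg
  have hc : ContinuousOn (fun t => (ξ t).1) (Icc 0 x) := fun t _ =>
    (h1 t).continuousAt.continuousWithinAt
  have := intermediate_value_Icc' hx hc
  have hz : (0 : ℝ) ∈ Icc ((ξ x).1) ((ξ 0).1) := ⟨hneg, by rw [h0]; norm_num⟩
  obtain ⟨t, ht, ht0⟩ := this hz
  have := hsq t ht.1
  simp only at ht0
  rw [ht0] at this
  norm_num at this

end Pool.Agent.X146.Yau
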