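import Pool.Agent.X146.Yau.Op

set_option autoImplicit false

/-! Zeros of the sections; the length bound. -/

namespace Pool.Agent.X146.Yau

open Set Filter Topology MeasureTheory
open scoped ContDiff ENNReal

lemma mode_x {α β lam ν : ℝ} {a b : ℝ → ℝ} {e : ℝ × ℝ → ℝ} (he : IsEig α β (pot lam a b) e)
    (hT : TX lam a e = fun p => ν * e p) (y : ℝ) :
    IsSol (fun x => lam * a x + ν) (fun x => e (x, y)) (fun x => Dx e (x, y)) := by
  refine ⟨fun x => hasDerivAt_Dx he.smooth x y, fun x => ?_⟩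
  have h1 := hasDerivAt_Dx (smooth_Dx he.smooth) x y
  have h2 := congrFun hT (x, y)
  simp only [TX] at h2
  refine h1.congr_deriv ?_
  linear_combination -h2

lemma mode_y {α β lam ν : ℝ} {a b : ℝ → ℝ} {e : ℝ × ℝ → ℝ} (he : IsEig α β (pot lam a b) e)
    (hT : TX lam a e = fun p => ν * e p) (x : ℝ) :
    IsSol (fun y => lam * b y + -ν) (fun y => e (x, y)) (fun y => Dy e (x, y)) := by
  refine ⟨fun y => hasDerivAt_Dy he.smooth x y, fun y => ?_⟩
  have h1 := hasDerivAt_Dy (smooth_Dy he.smooth) x y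
  have h2 := congrFun hT (x, y)
  have h3 := he.eq (x, y)
  simp only [TX, pot] at h2 h3
  refine h1.congr_deriv ?_
  linear_combination h3 + h2

lemma nu_bounds {α β lam ν A B : ℝ} (hα : 0 < α) (hβ : 0 < β) (hlam : 0 < lam) {a b : ℝ → ℝ}
    (hA : ∀ x, |a x| ≤ A) (hB : ∀ y, |b y| ≤ B) {e : ℝ × ℝ → ℝ}
    (he : IsEig α β (pot lam a b) e) (hT : TX lam a e = fun p => ν * e p) (hne : e ≠ 0) :
    -(lam * A) ≤ ν ∧ ν ≤ lam * B := by
  obtain ⟨⟨x₀, y₀⟩, hp⟩ : ∃ p, e p ≠ 0 := by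
    by_contra hcon
    push Not at hcon
    exact hne (funext hcon)
  constructor
  · by_contra hcon
    push Not at hcon
    refine hp ((mode_x he hT y₀).trivial_of_neg hα (he.per.x y₀) (fun x => ?_) x₀)
    have := (abs_le.mp (hA x)).2
    nlinarith
  · by_contra hcon
    push Not at hcon
    refine hp ((mode_y he hT x₀).trivial_of_neg hβ (he.per.y x₀) (fun y => ?_) y₀)
    have := (abs_le.mp (hB y)).2
    nlinarith

lemma IsSol.sum {ι : Type*} (s : Finset ι) {Q : ℝ → ℝ} {g g' : ι → ℝ → ℝ}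
    (h : ∀ i ∈ s, IsSol Q (g i) (g' i)) :
    IsSol Q (fun x => ∑ i ∈ s, g i x) (fun x => ∑ i ∈ s, g' i x) := by
  refine ⟨fun x => ?_, fun x => ?_⟩
  · exact HasDerivAt.fun_sum fun i hi => (h i hi).d1 x
  · refine (HasDerivAt.fun_sum fun i hi => (h i hi).d2 x).congr_deriv ?_
    rw [Finset.mul_sum, ← Finset.sum_neg_distrib]

lemma IsSol.const_mul {Q g g' : ℝ → ℝ} (h : IsSol Q g g') (c : ℝ) :
    IsSol Q (fun x => c * g x) (fun x => c * g' x) := by
  refine ⟨fun x => (h.d1 x).const_mul c, fun x => ((h.d2 x).const_mul c).congr_deriv ?_⟩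
  ring

/-- few zeros of a sum of modes -/
lemma few_of_modes {α K : ℝ} (hα : 0 < α) {q : ℝ → ℝ} (hq : Continuous q)
    (hqp : Function.Periodic q α) {n : ℕ} (ν : Fin n → ℝ) (g g' : Fin n → ℝ → ℝ)
    (hsol : ∀ i, IsSol (fun x => q x + ν i) (g i) (g' i))
    (hper : ∀ i, Function.Periodic (g i) α) (hK : ∀ i x, |q x + ν i| ≤ K)
    (hne : ∃ x, ∑ i, g i x ≠ 0) {m : ℕ} (hm : √K * α < m) :
    Few (fun x => ∑ i, g i x) α m := by
  classical
  intro S hS
  rcases Nat.lt_or_ge S.card 1 with h0 | h0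
  · omega
  have hfib : ∀ x, ∑ μ ∈ Finset.univ.image ν, ∑ i ∈ Finset.univ.filter (fun i => ν i = μ), g i x
      = ∑ i, g i x := fun x =>
    Finset.sum_fiberwise_of_maps_to (fun i _ => Finset.mem_image_of_mem ν (Finset.mem_univ i)) _
  have key := count_aux (K := K) hα hq hqp (Finset.univ.image ν)
    (fun μ x => ∑ i ∈ Finset.univ.filter (fun i => ν i = μ), g i x)
    (fun μ x => ∑ i ∈ Finset.univ.filter (fun i => ν i = μ), g' i x)
    (fun μ _ => IsSol.sum _ fun i hi => by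
      have := (Finset.mem_filter.mp hi).2
      rw [← this]
      exact hsol i)
    (fun μ _ x => Finset.sum_congr rfl fun i _ => hper i x)
    (fun μ hμ x => by
      obtain ⟨i, -, rfl⟩ := Finset.mem_image.mp hμ
      exact hK i x)
    (by
      obtain ⟨x, hx⟩ := hne
      exact ⟨x, by rw [hfib]; exact hx⟩) S
    (fun s hs => ⟨(hS s hs).1, by rw [hfib]; exact (hS s hs).2⟩) h0
  have hK0 : 0 ≤ K * α ^ 2 := (sq_nonneg _).trans key
  have h1 : ((S.card : ℝ) - 1) ≤ √K * α := by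
    have h2 : ((S.card : ℝ) - 1) ≤ √(K * α ^ 2) := Real.le_sqrt_of_sq_le key
    rwa [Real.sqrt_mul' _ (sq_nonneg α), Real.sqrt_sq hα.le] at h2
  have h3 : (S.card : ℝ) < m + 1 := by linarith
  have h4 : S.card < m + 1 := by exact_mod_cast h3
  omega

/-- a nontrivial periodic solution of a short period has no zeros -/
lemma IsSol.ne_zero {Q φ φ' : ℝ → ℝ} (h : IsSol Q φ φ') {K α : ℝ} (hK : ∀ x, |Q x| ≤ K)
    (hα : 0 < α) (hKα : K * α ^ 2 < 1) (hp : Function.Periodic φ α) (hne : ∃ x, φ x ≠ 0) :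
    ∀ x, φ x ≠ 0 := by
  intro x hx
  obtain ⟨ξ, hξ, hξ0⟩ := exists_hasDerivAt_eq_zero (f := φ) (f' := φ') (a := x) (b := x + α)
    (by linarith) h.cont.continuousOn (by rw [hp x]) (fun t _ => h.d1 t)
  have h1 := h.small (d := α) (ε := 0) hK hα.le hKα (x := x) (ξ := ξ)
    (by rw [abs_le]; constructor <;> linarith [hξ.1, hξ.2]) (by rw [hx, abs_zero])
    (by rw [hξ0, abs_zero])
  rw [zero_mul] at h1
  have h2 : φ' x = 0 := abs_eq_zero.mp (le_antisymm (by linarith [abs_nonneg (φ x)])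
    (abs_nonneg _))
  obtain ⟨z, hz⟩ := hne
  exact hz (h.zero hK hx h2 z)

/-- if a periodic solution has no zeros then the mean of the potential is nonpositive -/
lemma IsSol.mean_nonpos {Q φ φ' : ℝ → ℝ} (h : IsSol Q φ φ') {α : ℝ} (hα : 0 < α)
    (hQ : Continuous Q) (hp : Function.Periodic φ α) (hne : ∀ x, φ x ≠ 0) :
    ∫ x in (0 : ℝ)..α, Q x ≤ 0 := by
  have hp' := periodic_deriv h.d1 hp
  have hd : ∀ x, HasDerivAt (fun x => φ' x / φ x) (-(Q x) - (φ' x / φ x) ^ 2) x := by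
    intro x
    refine ((h.d2 x).div (h.d1 x) (hne x)).congr_deriv ?_
    have := hne x
    field_simp
  have hc1 := h.cont
  have hc2 := h.cont'
  have hc3 : Continuous (fun x => φ' x / φ x) := hc2.div hc1 hne
  have hint := intervalIntegral.integral_eq_sub_of_hasDerivAt (a := 0) (b := α)
    (fun x _ => hd x) (Continuous.intervalIntegrable (by fun_prop) _ _)
  have h0 : φ' α / φ α - φ' 0 / φ 0 = 0 := by
    have e1 := hp 0
    have e2 := hp' 0
    rw [zero_add] at e1 e2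
    rw [e1, e2, sub_self]
  rw [h0, intervalIntegral.integral_sub (Continuous.intervalIntegrable (by fun_prop) _ _)
    (Continuous.intervalIntegrable (by fun_prop) _ _), intervalIntegral.integral_neg] at hint
  have h1 : 0 ≤ ∫ x in (0 : ℝ)..α, (φ' x / φ x) ^ 2 :=
    intervalIntegral.integral_nonneg hα.le fun x _ => sq_nonneg _
  linarith

/-- the lower bound of the spectrum -/
lemma spec_lower {α β lam A B : ℝ} (hα : 0 < α) (hβ : 0 < β) (hlam : 0 < lam) {a b : ℝ → ℝ}
    (ha : Continuous a) (hb : Continuous b) (hap : Function.Periodic a α)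
    (hbp : Function.Periodic b β) (hab : ∀ x y, 0 ≤ a x + b y) (hab1 : ∃ x y, 0 < a x + b y)
    (hA : ∀ x, |a x| ≤ A) (hB : ∀ y, |b y| ≤ B) {ν : ℝ} {e : ℝ × ℝ → ℝ}
    (he : IsEig α β (pot lam a b) e) (hT : TX lam a e = fun p => ν * e p) (hne : e ≠ 0) :
    1 ≤ (2 * lam * (A + B)) * (α + β) ^ 2 := by
  by_contra hcon
  push Not at hcon
  have hA0 : 0 ≤ A := (abs_nonneg _).trans (hA 0)
  have hB0 : 0 ≤ B := (abs_nonneg _).trans (hB 0)
  have hν := nu_bounds hα hβ hlam hA hB he hT hne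
  have hK0 : 0 ≤ 2 * lam * (A + B) := by positivity
  have hK1 : ∀ x, |lam * a x + ν| ≤ 2 * lam * (A + B) := fun x => by
    have := abs_le.mp (hA x)
    rw [abs_le]
    constructor <;> nlinarith [mul_nonneg hlam.le hA0, mul_nonneg hlam.le hB0,
      mul_le_mul_of_nonneg_left this.1 hlam.le, mul_le_mul_of_nonneg_left this.2 hlam.le]
  have hK2 : ∀ y, |lam * b y + -ν| ≤ 2 * lam * (A + B) := fun y => by
    have := abs_le.mp (hB y)
    rw [abs_le]
    constructor <;> nlinarith [mul_nonneg hlam.le hA0, mul_nonneg hlam.le hB0,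
      mul_le_mul_of_nonneg_left this.1 hlam.le, mul_le_mul_of_nonneg_left this.2 hlam.le]
  obtain ⟨⟨x₀, y₀⟩, hp⟩ : ∃ p, e p ≠ 0 := by
    by_contra hcon
    push Not at hcon
    exact hne (funext hcon)
  have h1 := (mode_x he hT y₀).ne_zero hK1 hα (by nlinarith) (he.per.x y₀) ⟨x₀, hp⟩
  have h2 := (mode_y he hT x₀).ne_zero hK2 hβ (by nlinarith) (he.per.y x₀) ⟨y₀, hp⟩
  have h3 := (mode_x he hT y₀).mean_nonpos hα (by fun_prop) (he.per.x y₀) h1
  have h4 := (mode_y he hT x₀).mean_nonpos hβ (by fun_prop) (he.per.y x₀) h2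
  rw [intervalIntegral.integral_add (Continuous.intervalIntegrable (by fun_prop) _ _)
    (Continuous.intervalIntegrable (by fun_prop) _ _), intervalIntegral.integral_const_mul,
    intervalIntegral.integral_const, smul_eq_mul, sub_zero] at h3 h4
  set I := ∫ x in (0 : ℝ)..α, a x with hI
  set J := ∫ y in (0 : ℝ)..β, b y with hJ
  have h5' : ∀ y, ∫ x in (0 : ℝ)..α, (a x + b y) = I + α * b y := by
    intro y
    rw [intervalIntegral.integral_add (Continuous.intervalIntegrable (by fun_prop) _ _)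
      (Continuous.intervalIntegrable (by fun_prop) _ _), intervalIntegral.integral_const,
      smul_eq_mul, sub_zero]
  have h5 : ∀ y, 0 ≤ I + α * b y := by
    intro y
    rw [← h5']
    exact intervalIntegral.integral_nonneg hα.le fun x _ => hab x y
  obtain ⟨x₁, y₁, h11⟩ := hab1
  obtain ⟨x₂, hx₂, hx₂'⟩ := hap.exists_mem_Ico₀ hα x₁
  obtain ⟨y₂, hy₂, hy₂'⟩ := hbp.exists_mem_Ico₀ hβ y₁
  rw [hx₂', hy₂'] at h11
  have h5'' : 0 < I + α * b y₂ := by
    rw [← h5']
    exact integral_pos_of (by fun_prop) hα (fun x => hab x y₂) (mem_Icc_of_Ico hx₂) h11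
  have h6 : 0 < β * I + α * J := by
    have : 0 < ∫ y in (0 : ℝ)..β, (I + α * b y) :=
      integral_pos_of (by fun_prop) hβ h5 (mem_Icc_of_Ico hy₂) h5''
    rwa [intervalIntegral.integral_add (Continuous.intervalIntegrable (by fun_prop) _ _)
      (Continuous.intervalIntegrable (by fun_prop) _ _), intervalIntegral.integral_const,
      smul_eq_mul, sub_zero, intervalIntegral.integral_const_mul] at this
  nlinarith [mul_pos hlam h6]

/-- **Yau's upper bound for Liouville tori.** -/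
theorem nodal_le {α β lam A B : ℝ} (hα : 0 < α) (hβ : 0 < β) (hlam : 0 < lam) {a b : ℝ → ℝ}
    (ha : ContDiff ℝ ∞ a) (hb : ContDiff ℝ ∞ b) (hap : Function.Periodic a α)
    (hbp : Function.Periodic b β) (hab : ∀ x y, 0 ≤ a x + b y) (hab1 : ∃ x y, 0 < a x + b y)
    (hA : ∀ x, |a x| ≤ A) (hB : ∀ y, |b y| ≤ B) {u : ℝ × ℝ → ℝ}
    (hu : IsEig α β (pot lam a b) u) (hne : ∃ p, u p ≠ 0) :
    μH[1] (nodal α β (fun x y => u (x, y))) ≤
      ENNReal.ofReal (54 * (α + β) ^ 2 * √(2 * (A + B)) * √lam) := by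
  have hA0 : 0 ≤ A := (abs_nonneg _).trans (hA 0)
  have hB0 : 0 ≤ B := (abs_nonneg _).trans (hB 0)
  obtain ⟨n, e, ν, c, he, he0, hT, hc⟩ := separation hα hβ ha hb hap hbp hu
  set K := 2 * lam * (A + B) with hKdef
  have hK0 : 0 ≤ K := by positivity
  have hn : 0 < n := by
    rcases Nat.eq_zero_or_pos n with h | h
    · subst h
      obtain ⟨p, hp⟩ := hne
      exact absurd (by simpa using hc p) hp
    · exact h
  have hlow : 1 ≤ √K * (α + β) := by
    have := spec_lower hα hβ hlam ha.continuous hb.continuous hap hbp hab hab1 hA hB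
      (he ⟨0, hn⟩) (hT ⟨0, hn⟩)
      (he0 ⟨0, hn⟩)
    have h2 : 1 ≤ √(K * (α + β) ^ 2) := Real.one_le_sqrt.mpr this
    rwa [Real.sqrt_mul' _ (sq_nonneg _), Real.sqrt_sq (by positivity)] at h2
  have hν : ∀ i, -(lam * A) ≤ ν i ∧ ν i ≤ lam * B := fun i =>
    nu_bounds hα hβ hlam hA hB (he i) (hT i) (he0 i)
  have hK1 : ∀ i x, |lam * a x + ν i| ≤ K := fun i x => by
    have := abs_le.mp (hA x)
    rw [abs_le]
    constructor <;> nlinarith [mul_nonneg hlam.le hA0, mul_nonneg hlam.le hB0, hν i,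
      mul_le_mul_of_nonneg_left this.1 hlam.le, mul_le_mul_of_nonneg_left this.2 hlam.le]
  have hK2 : ∀ i y, |lam * b y + -ν i| ≤ K := fun i y => by
    have := abs_le.mp (hB y)
    rw [abs_le]
    constructor <;> nlinarith [mul_nonneg hlam.le hA0, mul_nonneg hlam.le hB0, hν i,
      mul_le_mul_of_nonneg_left this.1 hlam.le, mul_le_mul_of_nonneg_left this.2 hlam.le]
  have hac := ha.continuous
  have hbc := hb.continuous
  have hm : ∀ t : ℝ, t < ((⌊t⌋₊ + 1 : ℕ) : ℝ) := fun t => by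
    push_cast
    exact Nat.lt_floor_add_one t
  have hu' : ∀ x y, u (x, y) = ∑ i, c i * e i (x, y) := fun x y => hc (x, y)
  have hF1 : ∀ y, (∃ x, u (x, y) ≠ 0) → Few (fun x => u (x, y)) α (⌊√K * α⌋₊ + 1) := by
    rintro y ⟨x, hx⟩
    have key := few_of_modes (K := K) hα (q := fun x => lam * a x) (by fun_prop)
      (fun x => by simp only [hap x]) ν (fun i x => c i * e i (x, y))
      (fun i x => c i * Dx (e i) (x, y)) (fun i => (mode_x (he i) (hT i) y).const_mul (c i))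
      (fun i x => by simp only [((he i).per (x, y)).1]) hK1
      ⟨x, by rw [← hu']; exact hx⟩ (hm (√K * α))
    have h1 : (fun x => ∑ i, c i * e i (x, y)) = fun x => u (x, y) := funext fun x => (hu' x y).symm
    rwa [h1] at key
  have hF2 : ∀ x, (∃ y, u (x, y) ≠ 0) → Few (fun y => u (x, y)) β (⌊√K * β⌋₊ + 1) := by
    rintro x ⟨y, hy⟩
    have key := few_of_modes (K := K) hβ (q := fun y => lam * b y) (by fun_prop)
      (fun y => by simp only [hbp y]) (fun i => -ν i) (fun i y => c i * e i (x, y))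
      (fun i y => c i * Dy (e i) (x, y)) (fun i => (mode_y (he i) (hT i) x).const_mul (c i))
      (fun i y => by simp only [((he i).per (x, y)).2]) hK2
      ⟨y, by rw [← hu']; exact hy⟩ (hm (√K * β))
    have h1 : (fun y => ∑ i, c i * e i (x, y)) = fun y => u (x, y) := funext fun y => (hu' x y).symm
    rwa [h1] at key
  have hH : IsHelm (fun x y => pot lam a b (x, y)) (fun x y => u (x, y)) := by
    refine ⟨hu.smooth.continuous, fun x y => Dx u (x, y), fun x y => Dx (Dx u) (x, y),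
      fun x y => Dy u (x, y), fun x y => Dy (Dy u) (x, y), fun x y => hasDerivAt_Dx hu.smooth x y,
      fun x y => hasDerivAt_Dx (smooth_Dx hu.smooth) x y, fun x y => hasDerivAt_Dy hu.smooth x y,
      fun x y => hasDerivAt_Dy (smooth_Dy hu.smooth) x y, fun x y => hu.eq (x, y)⟩
  refine (length_le hH (B := lam * (A + B)) (fun x y => ?_) (fun x y => ?_) hα hβ
    (fun y => hu.per.x y) (fun x => hu.per.y x) hF1 hF2 ?_).trans ?_
  · exact mul_nonneg hlam.le (hab x y)
  · have h1 := (abs_le.mp (hA x)).2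
    have h2 := (abs_le.mp (hB y)).2
    exact mul_le_mul_of_nonneg_left (by simp only; linarith) hlam.le
  · obtain ⟨⟨x, y⟩, h⟩ := hne
    exact ⟨x, y, h⟩
  · refine ENNReal.ofReal_le_ofReal ?_
    have h1 : √(2 * (A + B)) * √lam = √K := by
      rw [← Real.sqrt_mul (by positivity), hKdef]
      congr 1
      ring
    rw [mul_assoc (54 * (α + β) ^ 2), h1]
    have hs0 : 0 ≤ √K := Real.sqrt_nonneg _
    have h2 : ((⌊√K * α⌋₊ + 1 : ℕ) : ℝ) ≤ √K * α + 1 := by
      push_cast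
      linarith [Nat.floor_le (show 0 ≤ √K * α by positivity)]
    have h3 : ((⌊√K * β⌋₊ + 1 : ℕ) : ℝ) ≤ √K * β + 1 := by
      push_cast
      linarith [Nat.floor_le (show 0 ≤ √K * β by positivity)]
    have h4 : ((⌊√K * α⌋₊ + 1 : ℕ) : ℝ) + ((⌊√K * β⌋₊ + 1 : ℕ) : ℝ) ≤ 3 * (√K * (α + β)) := by
      nlinarith
    calc 18 * (α + β) * (((⌊√K * α⌋₊ + 1 : ℕ) : ℝ) + ((⌊√K * β⌋₊ + 1 : ℕ) : ℝ))
        ≤ 18 * (α + β) * (3 * (√K * (α + β))) := mul_le_mul_of_nonneg_left h4 (by positivity)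
      _ = 54 * (α + β) ^ 2 * √K := by ring

end Pool.Agent.X146.Yau
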