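import Pool.Agent.X146.Yau.Line

set_option autoImplicit false

/-! The number of zeros of a single solution of `G'' = -(q + ν) G`, `ν ≤ 0`,
`0 ≤ q ≤ Q₀ e^{-2|x|}`. -/

namespace Pool.Agent.X146.Yau

open Set Filter Topology MeasureTheory

/-- two zeros close to each other -/
lemma sturm_short {q : ℝ → ℝ} {Q₀ ν : ℝ} (hQ₀ : 0 < Q₀)
    (hqe : ∀ x, 0 ≤ x → q x ≤ Q₀ * Real.exp (-2 * x)) (hν : ν ≤ 0) {G G' : ℝ → ℝ}
    (hG : IsSol (fun x => q x + ν) G G') {K : ℝ} (hK : ∀ x, |q x + ν| ≤ K) {z z' : ℝ}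
    (hz0 : 0 ≤ z) (hz : z < z') (hlen : Q₀ * Real.exp (-2 * z) * (z' - z) ^ 2 < 1)
    (h0 : G z = 0) (h1 : G z' = 0) : ∀ x, G x = 0 := by
  set c := Q₀ * Real.exp (-2 * z) with hc
  have hcpos : 0 < c := by positivity
  refine hG.sturm hK (v := fun x => 1 - c * (x - z) ^ 2) (v' := fun x => -(c * (2 * (x - z))))
    (v'' := fun _ => -(c * 2)) hz ?_ ?_ ?_ ?_ h0 h1
  · intro x
    refine ((((hasDerivAt_id x).sub_const z).pow 2).const_mul c |>.const_sub 1).congr_deriv ?_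
    simp
  · intro x
    refine ((((hasDerivAt_id x).sub_const z).const_mul 2).const_mul c).neg.congr_deriv ?_
    simp
  · intro x hx
    have e1 : (x - z) ^ 2 ≤ (z' - z) ^ 2 :=
      pow_le_pow_left₀ (by linarith [hx.1]) (by linarith [hx.2]) 2
    nlinarith
  · intro x hx
    have e1 : (x - z) ^ 2 ≤ (z' - z) ^ 2 :=
      pow_le_pow_left₀ (by linarith [hx.1]) (by linarith [hx.2]) 2
    have e2 : 0 < 1 - c * (x - z) ^ 2 := by nlinarith
    have e3 : 1 - c * (x - z) ^ 2 ≤ 1 := by nlinarith [sq_nonneg (x - z)]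
    have e4 : q x ≤ c := (hqe x (by linarith [hx.1])).trans (mul_le_mul_of_nonneg_left
      (Real.exp_le_exp.mpr (by linarith [hx.1])) hQ₀.le)
    have e5 : (q x + ν) * (1 - c * (x - z) ^ 2) ≤ c * (1 - c * (x - z) ^ 2) :=
      mul_le_mul_of_nonneg_right (by linarith) e2.le
    nlinarith

/-- two zeros far away -/
lemma sturm_far {q : ℝ → ℝ} {Q₀ ν : ℝ} (hQ₀ : 0 < Q₀)
    (hqe : ∀ x, 0 ≤ x → q x ≤ Q₀ * Real.exp (-2 * x)) (hν : ν ≤ 0) {G G' : ℝ → ℝ}
    (hG : IsSol (fun x => q x + ν) G G') {K : ℝ} (hK : ∀ x, |q x + ν| ≤ K) {z z' : ℝ}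
    (hz0 : 0 ≤ z) (hz : z < z') (hfar : Q₀ * Real.exp (-2 * z) < 1)
    (h0 : G z = 0) (h1 : G z' = 0) : ∀ x, G x = 0 := by
  have hE : ∀ x, z ≤ x → Q₀ * Real.exp (-2 * x) < 1 := fun x hx =>
    (mul_le_mul_of_nonneg_left (Real.exp_le_exp.mpr (by linarith)) hQ₀.le).trans_lt hfar
  refine hG.sturm hK (v := fun x => 1 - Q₀ / 4 * Real.exp (-2 * x))
    (v' := fun x => Q₀ / 2 * Real.exp (-2 * x))
    (v'' := fun x => -(Q₀ * Real.exp (-2 * x))) hz ?_ ?_ ?_ ?_ h0 h1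
  · intro x
    have e1 : HasDerivAt (fun x : ℝ => Real.exp (-2 * x)) (Real.exp (-2 * x) * (-2)) x := by
      have := ((hasDerivAt_id x).const_mul (-2)).exp
      simpa using this
    refine ((e1.const_mul (Q₀ / 4)).const_sub 1).congr_deriv ?_
    ring
  · intro x
    have e1 : HasDerivAt (fun x : ℝ => Real.exp (-2 * x)) (Real.exp (-2 * x) * (-2)) x := by
      have := ((hasDerivAt_id x).const_mul (-2)).exp
      simpa using this
    refine (e1.const_mul (Q₀ / 2)).congr_deriv ?_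
    ring
  · intro x hx
    have := hE x hx.1
    linarith
  · intro x hx
    have e0 := hE x hx.1.le
    have e1 : 0 < Q₀ * Real.exp (-2 * x) := by positivity
    have e2 : 0 < 1 - Q₀ / 4 * Real.exp (-2 * x) := by linarith
    have e3 : 1 - Q₀ / 4 * Real.exp (-2 * x) < 1 := by linarith
    have e4 := hqe x (by linarith [hx.1])
    have e5 : (q x + ν) * (1 - Q₀ / 4 * Real.exp (-2 * x)) ≤
        (Q₀ * Real.exp (-2 * x)) * (1 - Q₀ / 4 * Real.exp (-2 * x)) :=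
      mul_le_mul_of_nonneg_right (by linarith) e2.le
    nlinarith

/-- zeros on a half line -/
lemma half_count {q : ℝ → ℝ} {Q₀ ν : ℝ} (hQ₀ : 0 < Q₀)
    (hqe : ∀ x, 0 ≤ x → q x ≤ Q₀ * Real.exp (-2 * x)) (hν : ν ≤ 0) {G G' : ℝ → ℝ}
    (hG : IsSol (fun x => q x + ν) G G') {K : ℝ} (hK : ∀ x, |q x + ν| ≤ K)
    (hne : ∃ x, G x ≠ 0) (S : Finset ℝ) (hS : ∀ s ∈ S, 0 ≤ s ∧ G s = 0) :
    S.card ≤ ⌊2 * √Q₀⌋₊ + 1 := by
  classical
  have hs0 : 0 < √Q₀ := Real.sqrt_pos.mpr hQ₀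
  have hsq : √Q₀ * √Q₀ = Q₀ := Real.mul_self_sqrt hQ₀.le
  have hpair : ∀ z ∈ S, ∀ z' ∈ S, z < z' → ⌊Real.exp (-z) * (2 * √Q₀)⌋₊ ≠
      ⌊Real.exp (-z') * (2 * √Q₀)⌋₊ := by
    intro z hz z' hz' hlt heq
    obtain ⟨x, hx⟩ := hne
    have e2 : Real.exp (-2 * z) = Real.exp (-z) * Real.exp (-z) := by
      rw [← Real.exp_add]
      congr 1
      ring
    rcases Nat.eq_zero_or_pos ⌊Real.exp (-z) * (2 * √Q₀)⌋₊ with hj | hj
    · have h1 : Real.exp (-z) * (2 * √Q₀) < 1 := (Nat.floor_eq_zero).mp hj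
      refine hx (sturm_far hQ₀ hqe hν hG hK (hS z hz).1 hlt ?_ (hS z hz).2 (hS z' hz').2 x)
      have h2 := Real.exp_pos (-z)
      rw [e2, ← hsq]
      nlinarith [mul_pos h2 hs0]
    · refine hx (sturm_short hQ₀ hqe hν hG hK (hS z hz).1 hlt ?_ (hS z hz).2 (hS z' hz').2 x)
      set j := ⌊Real.exp (-z) * (2 * √Q₀)⌋₊ with hjdef
      have h1 : Real.exp (-z) * (2 * √Q₀) < j + 1 := Nat.lt_floor_add_one _
      have h2 : (j : ℝ) ≤ Real.exp (-z') * (2 * √Q₀) := by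
        rw [heq]
        exact Nat.floor_le (by positivity)
      have hj1 : (1 : ℝ) ≤ j := by exact_mod_cast hj
      set δ := z' - z with hδ
      have hδ0 : 0 < δ := by linarith
      have hzz : Real.exp (-z') = Real.exp (-z) * Real.exp (-δ) := by
        rw [← Real.exp_add]
        congr 1
        simp only [hδ]
        ring
      have p1 := Real.exp_pos (-z)
      have p2 := Real.exp_pos (-δ)
      set a := Real.exp (-z) * (2 * √Q₀) with ha
      have ha' : Real.exp (-z') * (2 * √Q₀) = a * Real.exp (-δ) := by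
        rw [hzz, ha]
        ring
      rw [ha'] at h2
      -- `e^{-δ} ≤ 1 / (1 + δ)`
      have h3 : Real.exp (-δ) * (1 + δ) ≤ 1 := by
        have h4 : 1 + δ ≤ Real.exp δ := by linarith [Real.add_one_le_exp δ]
        calc Real.exp (-δ) * (1 + δ) ≤ Real.exp (-δ) * Real.exp δ :=
              mul_le_mul_of_nonneg_left h4 p2.le
          _ = 1 := by rw [← Real.exp_add]; simp
      have ha0 : 0 < a := by positivity
      -- `a δ < 2`
      have h5 : a * (1 - Real.exp (-δ)) < 1 := by nlinarith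
      have h6 : δ < 1 := by
        -- `a e^{-δ} ≥ 1` and `a (1 - e^{-δ}) < 1` give `e^δ < 2`
        have h7 : 1 ≤ a * Real.exp (-δ) := hj1.trans h2
        have h8 : a * (1 - Real.exp (-δ)) < a * Real.exp (-δ) := h5.trans_le h7
        have h9 : 1 - Real.exp (-δ) < Real.exp (-δ) := lt_of_mul_lt_mul_left h8 ha0.le
        nlinarith
      have h7 : δ / 2 ≤ 1 - Real.exp (-δ) := by nlinarith
      have h8 : a * (δ / 2) < 1 := (mul_le_mul_of_nonneg_left h7 ha0.le).trans_lt h5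
      have h9 : Q₀ * Real.exp (-2 * z) * δ ^ 2 = (a * (δ / 2)) ^ 2 := by
        rw [e2, ha]
        nth_rewrite 1 [← hsq]
        ring
      rw [h9]
      have h10 : 0 ≤ a * (δ / 2) := by positivity
      nlinarith
  have hcard : S.card ≤ (Finset.range (⌊2 * √Q₀⌋₊ + 1)).card := by
    refine Finset.card_le_card_of_injOn (fun z => ⌊Real.exp (-z) * (2 * √Q₀)⌋₊) ?_ ?_
    · intro z hz
      rw [Finset.mem_coe] at hz
      rw [Finset.coe_range, mem_Iio]
      refine Nat.lt_succ_of_le (Nat.floor_le_floor ?_)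
      have h1 : Real.exp (-z) ≤ 1 := Real.exp_le_one_iff.mpr (by linarith [(hS z hz).1])
      nlinarith
    · intro z hz z' hz' heq
      rw [Finset.mem_coe] at hz hz'
      rcases lt_trichotomy z z' with h | h | h
      · exact absurd heq (hpair z hz z' hz' h)
      · exact h
      · exact absurd heq.symm (hpair z' hz' z hz h)
  simpa using hcard

lemma IsSol.refl {Q φ φ' : ℝ → ℝ} (h : IsSol Q φ φ') :
    IsSol (fun x => Q (-x)) (fun x => φ (-x)) (fun x => -φ' (-x)) := by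
  refine ⟨fun x => ?_, fun x => ?_⟩
  · have := (h.d1 (-x)).comp x (hasDerivAt_neg x)
    rw [mul_neg, mul_one] at this
    exact this
  · have := ((h.d2 (-x)).comp x (hasDerivAt_neg x)).neg
    refine this.congr_deriv ?_
    ring

lemma full_count {q : ℝ → ℝ} {Q₀ ν : ℝ} (hQ₀ : 0 < Q₀)
    (hqe : ∀ x, q x ≤ Q₀ * Real.exp (-2 * |x|)) (hν : ν ≤ 0) {G G' : ℝ → ℝ}
    (hG : IsSol (fun x => q x + ν) G G') {K : ℝ} (hK : ∀ x, |q x + ν| ≤ K)
    (hne : ∃ x, G x ≠ 0) (S : Finset ℝ) (hS : ∀ s ∈ S, G s = 0) :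
    (S.card : ℝ) ≤ 4 * √Q₀ + 2 := by
  classical
  have h1 := half_count hQ₀ (fun x hx => by have := hqe x; rwa [abs_of_nonneg hx] at this) hν hG hK
    hne (S.filter (fun s => 0 ≤ s)) (fun s hs => ⟨(Finset.mem_filter.mp hs).2,
      hS s (Finset.mem_filter.mp hs).1⟩)
  have h2 := half_count (q := fun x => q (-x)) hQ₀ (fun x hx => by
      have := hqe (-x)
      rwa [abs_neg, abs_of_nonneg hx] at this) hν hG.refl (fun x => hK (-x))
    (by obtain ⟨x, hx⟩ := hne; exact ⟨-x, by simpa using hx⟩)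
    ((S.filter (fun s => ¬ 0 ≤ s)).image (fun s => -s)) (fun s hs => by
      obtain ⟨t, ht, rfl⟩ := Finset.mem_image.mp hs
      have := Finset.mem_filter.mp ht
      exact ⟨by linarith [not_le.mp this.2], by rw [neg_neg]; exact hS t this.1⟩)
  rw [Finset.card_image_of_injective _ neg_injective] at h2
  have h3 := Finset.card_filter_add_card_filter_not (s := S) (fun s : ℝ => 0 ≤ s)
  have h4 : (⌊2 * √Q₀⌋₊ : ℝ) ≤ 2 * √Q₀ := Nat.floor_le (by positivity)
  have h5 : S.card ≤ 2 * (⌊2 * √Q₀⌋₊ + 1) := by omega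
  have h6 : (S.card : ℝ) ≤ 2 * ((⌊2 * √Q₀⌋₊ : ℝ) + 1) := by exact_mod_cast h5
  linarith

end Pool.Agent.X146.Yau
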