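import Pool.Agent.X146.Yau.Geo

set_option autoImplicit false

/-! Partial derivatives of smooth functions on the plane. -/

namespace Pool.Agent.X146.Yau

open Set Filter Topology
open scoped ContDiff

/-- derivative with respect to the first variable -/
noncomputable def Dx (F : ℝ × ℝ → ℝ) (p : ℝ × ℝ) : ℝ := fderiv ℝ F p (1, 0)

/-- derivative with respect to the second variable -/
noncomputable def Dy (F : ℝ × ℝ → ℝ) (p : ℝ × ℝ) : ℝ := fderiv ℝ F p (0, 1)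

lemma smooth_Dx {F : ℝ × ℝ → ℝ} (h : ContDiff ℝ ∞ F) : ContDiff ℝ ∞ (Dx F) := by
  have h1 : ContDiff ℝ ∞ (fderiv ℝ F) := h.fderiv_right (by simp)
  exact h1.clm_apply contDiff_const

lemma smooth_Dy {F : ℝ × ℝ → ℝ} (h : ContDiff ℝ ∞ F) : ContDiff ℝ ∞ (Dy F) := by
  have h1 : ContDiff ℝ ∞ (fderiv ℝ F) := h.fderiv_right (by simp)
  exact h1.clm_apply contDiff_const

lemma hasDerivAt_Dx {F : ℝ × ℝ → ℝ} (h : ContDiff ℝ ∞ F) (x y : ℝ) :
    HasDerivAt (fun s => F (s, y)) (Dx F (x, y)) x := by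
  have h1 : HasFDerivAt F (fderiv ℝ F (x, y)) (x, y) :=
    (h.differentiable (by simp)).differentiableAt.hasFDerivAt
  have h2 : HasDerivAt (fun s : ℝ => (s, y)) ((1 : ℝ), (0 : ℝ)) x :=
    (hasDerivAt_id x).prodMk (hasDerivAt_const x y)
  exact h1.comp_hasDerivAt x h2

lemma hasDerivAt_Dy {F : ℝ × ℝ → ℝ} (h : ContDiff ℝ ∞ F) (x y : ℝ) :
    HasDerivAt (fun t => F (x, t)) (Dy F (x, y)) y := by
  have h1 : HasFDerivAt F (fderiv ℝ F (x, y)) (x, y) :=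
    (h.differentiable (by simp)).differentiableAt.hasFDerivAt
  have h2 : HasDerivAt (fun t : ℝ => (x, t)) ((0 : ℝ), (1 : ℝ)) y :=
    (hasDerivAt_const y x).prodMk (hasDerivAt_id y)
  exact h1.comp_hasDerivAt y h2

lemma Dx_eq {F : ℝ × ℝ → ℝ} (h : ContDiff ℝ ∞ F) {x y c : ℝ}
    (hc : HasDerivAt (fun s => F (s, y)) c x) : Dx F (x, y) = c :=
  (hasDerivAt_Dx h x y).unique hc

lemma Dy_eq {F : ℝ × ℝ → ℝ} (h : ContDiff ℝ ∞ F) {x y c : ℝ}
    (hc : HasDerivAt (fun t => F (x, t)) c y) : Dy F (x, y) = c :=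
  (hasDerivAt_Dy h x y).unique hc

lemma comm_xy {F : ℝ × ℝ → ℝ} (h : ContDiff ℝ ∞ F) : Dx (Dy F) = Dy (Dx F) := by
  funext p
  have h1 : ContDiff ℝ ∞ (fderiv ℝ F) := h.fderiv_right (by simp)
  have h2 : DifferentiableAt ℝ (fderiv ℝ F) p := (h1.differentiable (by simp)).differentiableAt
  have e1 : Dx (Dy F) p = fderiv ℝ (fderiv ℝ F) p (1, 0) (0, 1) := by
    unfold Dx
    have : fderiv ℝ (Dy F) p = (fderiv ℝ (fderiv ℝ F) p).flip (0, 1) := by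
      have h3 := (h2.hasFDerivAt.clm_apply (hasFDerivAt_const ((0 : ℝ), (1 : ℝ)) p)).fderiv
      unfold Dy
      rw [h3]
      ext <;> simp
    rw [this]
    rfl
  have e2 : Dy (Dx F) p = fderiv ℝ (fderiv ℝ F) p (0, 1) (1, 0) := by
    unfold Dy
    have : fderiv ℝ (Dx F) p = (fderiv ℝ (fderiv ℝ F) p).flip (1, 0) := by
      have h3 := (h2.hasFDerivAt.clm_apply (hasFDerivAt_const ((1 : ℝ), (0 : ℝ)) p)).fderiv
      unfold Dx
      rw [h3]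
      ext <;> simp
    rw [this]
    rfl
  rw [e1, e2]
  exact (h.contDiffAt.isSymmSndFDerivAt (by
    rw [minSmoothness_of_isRCLikeNormedField]
    exact ENat.LEInfty.out)).eq _ _

/-- doubly periodic -/
def Per (α β : ℝ) (F : ℝ × ℝ → ℝ) : Prop :=
  ∀ p : ℝ × ℝ, F (p.1 + α, p.2) = F p ∧ F (p.1, p.2 + β) = F p

lemma Per.x {α β : ℝ} {F : ℝ × ℝ → ℝ} (h : Per α β F) (y : ℝ) :
    Function.Periodic (fun x => F (x, y)) α := fun x => (h (x, y)).1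

lemma Per.y {α β : ℝ} {F : ℝ × ℝ → ℝ} (h : Per α β F) (x : ℝ) :
    Function.Periodic (fun y => F (x, y)) β := fun y => (h (x, y)).2

lemma Per.Dx {α β : ℝ} {F : ℝ × ℝ → ℝ} (h : Per α β F) (hF : ContDiff ℝ ∞ F) :
    Per α β (Dx F) := by
  rintro ⟨x, y⟩
  constructor
  · exact periodic_deriv (fun x => hasDerivAt_Dx hF x y) (h.x y) x
  · refine Dx_eq hF ?_
    have h1 : (fun s => F (s, y + β)) = fun s => F (s, y) := funext fun s => (h (s, y)).2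
    rw [h1]
    exact hasDerivAt_Dx hF x y

lemma Per.Dy {α β : ℝ} {F : ℝ × ℝ → ℝ} (h : Per α β F) (hF : ContDiff ℝ ∞ F) :
    Per α β (Dy F) := by
  rintro ⟨x, y⟩
  constructor
  · refine Dy_eq hF ?_
    have h1 : (fun s => F (x + α, s)) = fun s => F (x, s) := funext fun s => (h (x, s)).1
    rw [h1]
    exact hasDerivAt_Dy hF x y
  · exact periodic_deriv (fun y => hasDerivAt_Dy hF x y) (h.y x) y

/-- the reduction to the fundamental rectangle -/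
lemma Per.exists_mem {α β : ℝ} (hα : 0 < α) (hβ : 0 < β) {F : ℝ × ℝ → ℝ} (h : Per α β F)
    (p : ℝ × ℝ) : ∃ p' ∈ Ico 0 α ×ˢ Ico 0 β, F p = F p' := by
  obtain ⟨x, hx, hx'⟩ := (h.x p.2).exists_mem_Ico₀ hα p.1
  obtain ⟨y, hy, hy'⟩ := (h.y x).exists_mem_Ico₀ hβ p.2
  refine ⟨(x, y), ⟨hx, hy⟩, ?_⟩
  rw [← hy', ← hx']

/-- maximum of a doubly periodic continuous function -/
lemma Per.exists_max {α β : ℝ} (hα : 0 < α) (hβ : 0 < β) {F : ℝ × ℝ → ℝ} (h : Per α β F)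
    (hc : Continuous F) : ∃ p₀, ∀ p, |F p| ≤ |F p₀| := by
  obtain ⟨p₀, -, hp₀⟩ := ((isCompact_Icc (a := (0 : ℝ)) (b := α)).prod
    (isCompact_Icc (a := (0 : ℝ)) (b := β))).exists_isMaxOn
    ⟨(0, 0), ⟨⟨le_rfl, hα.le⟩, ⟨le_rfl, hβ.le⟩⟩⟩ (f := fun p => |F p|) hc.abs.continuousOn
  refine ⟨p₀, fun p => ?_⟩
  obtain ⟨p', hp', hpp⟩ := h.exists_mem hα hβ p
  rw [hpp]
  exact hp₀ ⟨mem_Icc_of_Ico hp'.1, mem_Icc_of_Ico hp'.2⟩

end Pool.Agent.X146.Yau
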