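import Pool.Agent.X146.Yau.Four

set_option autoImplicit false

/-! Bounded solutions of `u_xx + u_θθ + q(x) u = 0` on the cylinder. -/

namespace Pool.Agent.X146.Yau

open Set Filter Topology MeasureTheory Real
open scoped ContDiff

/-- bounded solution on the cylinder -/
structure IsSph (q : ℝ → ℝ) (u : ℝ × ℝ → ℝ) : Prop where
  smooth : ContDiff ℝ ∞ u
  per : ∀ x, Function.Periodic (fun t => u (x, t)) (2 * π)
  bdd : ∃ B, ∀ p, |u p| ≤ B
  eq : ∀ p, Dx (Dx u) p + Dy (Dy u) p = -(q p.1 * u p)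

lemma int_parts {u : ℝ × ℝ → ℝ} (hu : ContDiff ℝ ∞ u)
    (hp : ∀ x, Function.Periodic (fun t => u (x, t)) (2 * π)) {w w' : ℝ → ℝ} {κ : ℝ}
    (hw1 : ∀ t, HasDerivAt w (w' t) t) (hw2 : ∀ t, HasDerivAt w' (-(κ * w t)) t)
    (hwp : Function.Periodic w (2 * π)) (x : ℝ) :
    ∫ t in (0 : ℝ)..2 * π, Dy (Dy u) (x, t) * w t =
      -κ * ∫ t in (0 : ℝ)..2 * π, u (x, t) * w t := by
  have c0 := hu.continuous
  have c1 := (smooth_Dy hu).continuous
  have c2 := (smooth_Dy (smooth_Dy hu)).continuous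
  have cw : Continuous w := continuous_iff_continuousAt.mpr fun x => (hw1 x).continuousAt
  have cw' : Continuous w' := continuous_iff_continuousAt.mpr fun x => (hw2 x).continuousAt
  have hW : ∀ t, HasDerivAt (fun t => Dy u (x, t) * w t - u (x, t) * w' t)
      (Dy (Dy u) (x, t) * w t + κ * (u (x, t) * w t)) t := by
    intro t
    refine (((hasDerivAt_Dy (smooth_Dy hu) x t).mul (hw1 t)).sub
      ((hasDerivAt_Dy hu x t).mul (hw2 t))).congr_deriv ?_
    ring
  have hint := intervalIntegral.integral_eq_sub_of_hasDerivAt (a := 0) (b := 2 * π)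
    (fun t _ => hW t) (Continuous.intervalIntegrable (by fun_prop) _ _)
  have p1 := hp x 0
  have p2 := periodic_deriv (fun t => hasDerivAt_Dy hu x t) (hp x) 0
  have p3 := hwp 0
  have p4 := periodic_deriv hw1 hwp 0
  simp only [zero_add] at p1 p2 p3 p4
  rw [p1, p2, p3, p4, sub_self, intervalIntegral.integral_add
    (Continuous.intervalIntegrable (by fun_prop) _ _)
    (Continuous.intervalIntegrable (by fun_prop) _ _), intervalIntegral.integral_const_mul] at hint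
  linarith

lemma mode_sol {q : ℝ → ℝ} {u : ℝ × ℝ → ℝ} (hu : IsSph q u) {w w' : ℝ → ℝ} {κ : ℝ}
    (hw1 : ∀ t, HasDerivAt w (w' t) t) (hw2 : ∀ t, HasDerivAt w' (-(κ * w t)) t)
    (hwp : Function.Periodic w (2 * π)) (C : ℝ) :
    IsSol (fun x => q x + -κ) (fun x => C * ∫ t in (0 : ℝ)..2 * π, u (x, t) * w t)
      (fun x => C * ∫ t in (0 : ℝ)..2 * π, Dx u (x, t) * w t) := by
  have cw : Continuous w := continuous_iff_continuousAt.mpr fun x => (hw1 x).continuousAt
  refine ⟨fun x => (deriv_integral hu.smooth cw _ x).const_mul C, fun x => ?_⟩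
  refine ((deriv_integral (smooth_Dx hu.smooth) cw _ x).const_mul C).congr_deriv ?_
  have c0 := hu.smooth.continuous
  have c1 := (smooth_Dx (smooth_Dx hu.smooth)).continuous
  have c2 := (smooth_Dy (smooth_Dy hu.smooth)).continuous
  have h1 := int_parts hu.smooth hu.per hw1 hw2 hwp x
  have h2 : ∫ t in (0 : ℝ)..2 * π, Dx (Dx u) (x, t) * w t =
      -(q x * ∫ t in (0 : ℝ)..2 * π, u (x, t) * w t) -
        ∫ t in (0 : ℝ)..2 * π, Dy (Dy u) (x, t) * w t := by
    rw [← intervalIntegral.integral_const_mul, ← intervalIntegral.integral_neg,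
      ← intervalIntegral.integral_sub (Continuous.intervalIntegrable (by fun_prop) _ _)
      (Continuous.intervalIntegrable (by fun_prop) _ _)]
    congr 1
    funext t
    have := hu.eq (x, t)
    simp only at this
    have h3 : Dx (Dx u) (x, t) = -(q x * u (x, t)) - Dy (Dy u) (x, t) := by linarith
    rw [h3]
    ring
  rw [h2, h1]
  ring

lemma cos_data (k : ℤ) : (∀ t : ℝ, HasDerivAt (fun t => cos (k * t)) (-(k * sin (k * t))) t) ∧
    (∀ t : ℝ, HasDerivAt (fun t => -(k * sin (k * t))) (-((k : ℝ) ^ 2 * cos (k * t))) t) ∧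
    Function.Periodic (fun t : ℝ => cos (k * t)) (2 * π) := by
  have e : ∀ t : ℝ, HasDerivAt (fun t : ℝ => (k : ℝ) * t) k t := fun t => by
    simpa using (hasDerivAt_id t).const_mul (k : ℝ)
  refine ⟨fun t => ?_, fun t => ?_, fun t => ?_⟩
  · refine (e t).cos.congr_deriv ?_
    ring
  · refine (((e t).sin).const_mul (k : ℝ)).neg.congr_deriv ?_
    ring
  · simp only
    rw [mul_add, cos_add_int_mul_two_pi]

lemma sin_data (k : ℤ) : (∀ t : ℝ, HasDerivAt (fun t => sin (k * t)) (k * cos (k * t)) t) ∧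
    (∀ t : ℝ, HasDerivAt (fun t => k * cos (k * t)) (-((k : ℝ) ^ 2 * sin (k * t))) t) ∧
    Function.Periodic (fun t : ℝ => sin (k * t)) (2 * π) := by
  have e : ∀ t : ℝ, HasDerivAt (fun t : ℝ => (k : ℝ) * t) k t := fun t => by
    simpa using (hasDerivAt_id t).const_mul (k : ℝ)
  refine ⟨fun t => ?_, fun t => ?_, fun t => ?_⟩
  · refine (e t).sin.congr_deriv ?_
    ring
  · refine (((e t).cos).const_mul (k : ℝ)).congr_deriv ?_
    ring
  · simp only
    rw [mul_add, sin_add_int_mul_two_pi]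

lemma fc_sol {q : ℝ → ℝ} {u : ℝ × ℝ → ℝ} (hu : IsSph q u) (k : ℤ) :
    IsSol (fun x => q x + -(k : ℝ) ^ 2) (fun x => fc (fun t => u (x, t)) k)
      (fun x => fc (fun t => Dx u (x, t)) k) :=
  mode_sol hu (cos_data k).1 (cos_data k).2.1 (cos_data k).2.2 _

lemma fs_sol {q : ℝ → ℝ} {u : ℝ × ℝ → ℝ} (hu : IsSph q u) (k : ℤ) :
    IsSol (fun x => q x + -(k : ℝ) ^ 2) (fun x => fs (fun t => u (x, t)) k)
      (fun x => fs (fun t => Dx u (x, t)) k) :=
  mode_sol hu (sin_data k).1 (sin_data k).2.1 (sin_data k).2.2 _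

lemma coef_bdd {f w : ℝ → ℝ} {B : ℝ} (hB : ∀ t, |f t| ≤ B) (hw : ∀ t, |w t| ≤ 1) :
    |(1 / (2 * π)) * ∫ t in (0 : ℝ)..2 * π, f t * w t| ≤ B := by
  have hB0 : 0 ≤ B := (abs_nonneg _).trans (hB 0)
  have h1 : |∫ t in (0 : ℝ)..2 * π, f t * w t| ≤ B * |2 * π - 0| := by
    have h3 : ∀ t ∈ uIoc (0 : ℝ) (2 * π), ‖f t * w t‖ ≤ B := by
      intro t _
      rw [Real.norm_eq_abs, abs_mul]
      calc |f t| * |w t| ≤ B * 1 := mul_le_mul (hB t) (hw t) (abs_nonneg _) hB0
        _ = B := mul_one B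
    exact intervalIntegral.norm_integral_le_of_norm_le_const h3
  have h2 : (0 : ℝ) < 2 * π := two_pi_pos
  rw [sub_zero, abs_of_pos h2] at h1
  rw [abs_mul, abs_of_pos (by positivity : (0 : ℝ) < 1 / (2 * π))]
  calc 1 / (2 * π) * |∫ t in (0 : ℝ)..2 * π, f t * w t| ≤ 1 / (2 * π) * (B * (2 * π)) :=
        mul_le_mul_of_nonneg_left h1 (by positivity)
    _ = B := by field_simp

/-- the finite expansion -/
lemma expand {q : ℝ → ℝ} {u : ℝ × ℝ → ℝ} (hu : IsSph q u) {K : ℤ}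
    (hK : ∀ k : ℤ, K < |k| → ∀ x, q x < (k : ℝ) ^ 2) (x θ : ℝ) :
    u (x, θ) = ∑ k ∈ Finset.Icc (-K) K, (fc (fun t => u (x, t)) k * cos (k * θ) +
      fs (fun t => u (x, t)) k * sin (k * θ)) := by
  obtain ⟨B, hB⟩ := hu.bdd
  refine trig_expand (f := fun t => u (x, t)) (hu.smooth.continuous.comp (by fun_prop)) (hu.per x)
    (fun k hk => ?_) (fun k hk => ?_) θ
  · exact (fc_sol hu k).trivial_of_bdd (B := B) (fun y => coef_bdd (fun t => hB _)
      (fun t => abs_cos_le_one _)) (fun y => by have := hK k hk y; linarith) x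
  · exact (fs_sol hu k).trivial_of_bdd (B := B) (fun y => coef_bdd (fun t => hB _)
      (fun t => abs_sin_le_one _)) (fun y => by have := hK k hk y; linarith) x

lemma IsSol.add {Q g g' k k' : ℝ → ℝ} (hg : IsSol Q g g') (hk : IsSol Q k k') :
    IsSol Q (fun x => g x + k x) (fun x => g' x + k' x) :=
  ⟨fun x => (hg.d1 x).add (hk.d1 x), fun x => ((hg.d2 x).add (hk.d2 x)).congr_deriv (by ring)⟩

/-- few zeros on the lines `θ = const` -/
lemma few_line {q : ℝ → ℝ} (hq : Continuous q) {Q₀ : ℝ} (hQ₀ : 0 < Q₀)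
    (hq0 : ∀ x, 0 ≤ q x) (hqe : ∀ x, q x ≤ Q₀ * Real.exp (-2 * |x|)) {u : ℝ × ℝ → ℝ}
    (hu : IsSph q u) {K : ℤ} (hK : ∀ k : ℤ, K < |k| → ∀ x, q x < (k : ℝ) ^ 2) (θ : ℝ)
    (hne : ∃ x, u (x, θ) ≠ 0) (S : Finset ℝ) (hS : ∀ s ∈ S, u (s, θ) = 0) :
    (S.card : ℝ) ≤ 4 * √Q₀ + 2 := by
  classical
  obtain ⟨B, hB⟩ := hu.bdd
  set g : ℤ → ℝ → ℝ := fun k x => fc (fun t => u (x, t)) k * cos (k * θ) +
    fs (fun t => u (x, t)) k * sin (k * θ) with hg
  set g' : ℤ → ℝ → ℝ := fun k x => fc (fun t => Dx u (x, t)) k * cos (k * θ) +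
    fs (fun t => Dx u (x, t)) k * sin (k * θ) with hg'
  have hsol : ∀ k : ℤ, IsSol (fun x => q x + -(k : ℝ) ^ 2) (g k) (g' k) := by
    intro k
    have h1 := ((fc_sol hu k).const_mul (cos (k * θ))).add ((fs_sol hu k).const_mul (sin (k * θ)))
    have e1 : g k = fun x => cos (k * θ) * fc (fun t => u (x, t)) k +
        sin (k * θ) * fs (fun t => u (x, t)) k := by
      funext x
      simp only [hg]
      ring
    have e2 : g' k = fun x => cos (k * θ) * fc (fun t => Dx u (x, t)) k +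
        sin (k * θ) * fs (fun t => Dx u (x, t)) k := by
      funext x
      simp only [hg']
      ring
    rw [e1, e2]
    exact h1
  have hbd : ∀ k x, |g k x| ≤ 2 * B := by
    intro k x
    have h1 : |fc (fun t => u (x, t)) k| ≤ B := coef_bdd (fun t => hB _) (fun t => abs_cos_le_one _)
    have h2 : |fs (fun t => u (x, t)) k| ≤ B := coef_bdd (fun t => hB _) (fun t => abs_sin_le_one _)
    have hB0 : 0 ≤ B := (abs_nonneg _).trans h1
    refine (abs_add_le _ _).trans ?_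
    rw [abs_mul, abs_mul]
    have h3 := mul_le_mul h1 (abs_cos_le_one (k * θ)) (abs_nonneg _) hB0
    have h4 := mul_le_mul h2 (abs_sin_le_one (k * θ)) (abs_nonneg _) hB0
    linarith
  set I := Finset.Icc (-K) K with hI
  set ν : ℤ → ℝ := fun k => -(k : ℝ) ^ 2 with hν
  have hfib : ∀ x, ∑ μ ∈ I.image ν, ∑ i ∈ I.filter (fun i => ν i = μ), g i x = u (x, θ) := by
    intro x
    rw [Finset.sum_fiberwise_of_maps_to (fun i hi => Finset.mem_image_of_mem ν hi)]
    exact (expand hu hK x θ).symm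
  refine count_line hq hQ₀ hq0 hqe (I.image ν) (fun μ hμ => ?_)
    (fun μ x => ∑ i ∈ I.filter (fun i => ν i = μ), g i x)
    (fun μ x => ∑ i ∈ I.filter (fun i => ν i = μ), g' i x)
    (fun μ _ => IsSol.sum _ fun i hi => ?_) (fun μ _ => ?_) ?_ S ?_
  · obtain ⟨k, -, rfl⟩ := Finset.mem_image.mp hμ
    simp only [hν]
    nlinarith [sq_nonneg (k : ℝ)]
  · have := (Finset.mem_filter.mp hi).2
    rw [← this]
    exact hsol i
  · refine ⟨∑ i ∈ I.filter (fun i => ν i = μ), 2 * B, fun x => ?_⟩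
    exact (Finset.abs_sum_le_sum_abs _ _).trans (Finset.sum_le_sum fun i _ => hbd i x)
  · obtain ⟨x, hx⟩ := hne
    exact ⟨x, by rw [hfib]; exact hx⟩
  · intro s hs
    rw [hfib]
    exact hS s hs

/-- few zeros on the circles `x = const` -/
lemma few_circle {q : ℝ → ℝ} {Q₀ : ℝ} {u : ℝ × ℝ → ℝ}
    (hu : IsSph q u) {K : ℤ} (hK : ∀ k : ℤ, K < |k| → ∀ x, q x < (k : ℝ) ^ 2)
    (hKQ : ∀ k ∈ Finset.Icc (-K) K, (k : ℝ) ^ 2 ≤ Q₀) (x : ℝ)
    (hne : ∃ θ, u (x, θ) ≠ 0) {m : ℕ} (hm : √Q₀ * (2 * π) < m) :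
    Few (fun θ => u (x, θ)) (2 * π) m := by
  classical
  intro S hS
  rcases Nat.lt_or_ge S.card 1 with h0 | h0
  · omega
  set g : ℤ → ℝ → ℝ := fun k t => fc (fun t => u (x, t)) k * cos (k * t) +
    fs (fun t => u (x, t)) k * sin (k * t) with hg
  set g' : ℤ → ℝ → ℝ := fun k t => fc (fun t => u (x, t)) k * -(k * sin (k * t)) +
    fs (fun t => u (x, t)) k * (k * cos (k * t)) with hg'
  have hsol : ∀ k : ℤ, IsSol (fun _ => 0 + (k : ℝ) ^ 2) (g k) (g' k) := by
    intro k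
    refine ⟨fun t => ?_, fun t => ?_⟩
    · exact (((cos_data k).1 t).const_mul _).add (((sin_data k).1 t).const_mul _)
    · refine ((((cos_data k).2.1 t).const_mul _).add
        (((sin_data k).2.1 t).const_mul _)).congr_deriv ?_
      simp only [hg]
      ring
  set I := Finset.Icc (-K) K with hI
  set ν : ℤ → ℝ := fun k => (k : ℝ) ^ 2 with hν
  have hfib : ∀ t, ∑ μ ∈ I.image ν, ∑ i ∈ I.filter (fun i => ν i = μ), g i t = u (x, t) := by
    intro t
    rw [Finset.sum_fiberwise_of_maps_to (fun i hi => Finset.mem_image_of_mem ν hi)]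
    exact (expand hu hK x t).symm
  have key := count_aux (K := Q₀) two_pi_pos (q := fun _ => 0) continuous_const
    (fun _ => rfl) (I.image ν)
    (fun μ x => ∑ i ∈ I.filter (fun i => ν i = μ), g i x)
    (fun μ x => ∑ i ∈ I.filter (fun i => ν i = μ), g' i x)
    (fun μ _ => IsSol.sum _ fun i hi => by
      have := (Finset.mem_filter.mp hi).2
      rw [← this]
      exact hsol i)
    (fun μ _ t => Finset.sum_congr rfl fun i _ => by
      simp only [hg]
      rw [mul_add, cos_add_int_mul_two_pi, sin_add_int_mul_two_pi])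
    (fun μ hμ t => by
      obtain ⟨k, hk, rfl⟩ := Finset.mem_image.mp hμ
      simp only [hν]
      rw [zero_add, abs_of_nonneg (sq_nonneg _)]
      exact hKQ k hk)
    (by
      obtain ⟨t, ht⟩ := hne
      exact ⟨t, by rw [hfib]; exact ht⟩) S
    (fun s hs => ⟨(hS s hs).1, by rw [hfib]; exact (hS s hs).2⟩) h0
  have h1 : ((S.card : ℝ) - 1) ≤ √Q₀ * (2 * π) := by
    have h2 : ((S.card : ℝ) - 1) ≤ √(Q₀ * (2 * π) ^ 2) := Real.le_sqrt_of_sq_le key
    rwa [Real.sqrt_mul' _ (sq_nonneg _), Real.sqrt_sq two_pi_pos.le] at h2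
  have h3 : (S.card : ℝ) < m + 1 := by linarith
  have h4 : S.card < m + 1 := by exact_mod_cast h3
  omega

end Pool.Agent.X146.Yau
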