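import Pool.Agent.X146.Yau.Strip

set_option autoImplicit false

/-! Yau's upper bound for spheres of revolution. -/

namespace Pool.Agent.X146.Yau

open Set Filter Topology MeasureTheory Real
open scoped ContDiff ENNReal

/-- the strips -/
theorem strip_bound {q : ℝ → ℝ} (hq : Continuous q) {Q₀ : ℝ} (hQ₀ : 0 < Q₀)
    (hq0 : ∀ x, 0 < q x) (hqe : ∀ x, q x ≤ Q₀ * Real.exp (-2 * |x|)) {u : ℝ × ℝ → ℝ}
    (hu : IsSph q u) (hne : ∃ p, u p ≠ 0) (X : ℝ) :
    μH[1] (strip X (2 * π) (fun x y => u (x, y))) ≤ ENNReal.ofReal (1350 * √Q₀) := by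
  have hqQ : ∀ x, q x ≤ Q₀ := fun x => (hqe x).trans (by
    have : Real.exp (-2 * |x|) ≤ 1 := Real.exp_le_one_iff.mpr (by nlinarith [abs_nonneg x])
    nlinarith)
  have hQ1 := one_le_Q hQ₀ hq0 hqe hu hne
  have hs1 : 1 ≤ √Q₀ := Real.one_le_sqrt.mpr hQ1
  have hss : √Q₀ * √Q₀ = Q₀ := Real.mul_self_sqrt hQ₀.le
  set K : ℤ := ⌊√Q₀⌋ with hKdef
  have hKle : (K : ℝ) ≤ √Q₀ := Int.floor_le _
  have hKlt : √Q₀ < K + 1 := Int.lt_floor_add_one _
  have hK : ∀ k : ℤ, K < |k| → ∀ x, q x < (k : ℝ) ^ 2 := by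
    intro k hk x
    have h1 : (K : ℝ) + 1 ≤ |(k : ℝ)| := by
      have : K + 1 ≤ |k| := hk
      exact_mod_cast this
    rw [← sq_abs]
    nlinarith [hqQ x]
  have hKQ : ∀ k ∈ Finset.Icc (-K) K, (k : ℝ) ^ 2 ≤ Q₀ := by
    intro k hk
    have h1 : |k| ≤ K := abs_le.mpr (Finset.mem_Icc.mp hk)
    have h2 : |(k : ℝ)| ≤ K := by exact_mod_cast h1
    rw [← sq_abs]
    nlinarith [abs_nonneg (k : ℝ)]
  have hH : IsHelm (fun x _ => q x) (fun x y => u (x, y)) := by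
    refine ⟨hu.smooth.continuous, fun x y => Dx u (x, y), fun x y => Dx (Dx u) (x, y),
      fun x y => Dy u (x, y), fun x y => Dy (Dy u) (x, y), fun x y => hasDerivAt_Dx hu.smooth x y,
      fun x y => hasDerivAt_Dx (smooth_Dx hu.smooth) x y, fun x y => hasDerivAt_Dy hu.smooth x y,
      fun x y => hasDerivAt_Dy (smooth_Dy hu.smooth) x y, fun x y => hu.eq (x, y)⟩
  have key := strip_le hH (B := Q₀) (fun x _ => (hq0 x).le) (fun x _ => hqQ x) two_pi_pos hu.per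
    (m₁ := ⌊4 * √Q₀ + 2⌋₊) (m₂ := ⌊√Q₀ * (2 * π)⌋₊ + 1)
    (fun y hy S hS => by
      have := few_line hq hQ₀ (fun x => (hq0 x).le) hqe hu hK y hy S hS
      exact Nat.le_floor this)
    (fun x hx => few_circle hu hK hKQ x hx (by
      push_cast
      exact Nat.lt_floor_add_one _))
    (by obtain ⟨⟨x, y⟩, h⟩ := hne; exact ⟨x, y, h⟩) X
  refine key.trans (ENNReal.ofReal_le_ofReal ?_)
  have h1 : ((⌊4 * √Q₀ + 2⌋₊ : ℕ) : ℝ) ≤ 4 * √Q₀ + 2 := Nat.floor_le (by positivity)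
  have h2 : ((⌊√Q₀ * (2 * π)⌋₊ : ℕ) : ℝ) ≤ √Q₀ * (2 * π) := Nat.floor_le (by positivity)
  have hpi : π < 3.15 := pi_lt_d2
  have h3 : √Q₀ * (2 * π) ≤ √Q₀ * 6.3 := mul_le_mul_of_nonneg_left (by linarith) (by positivity)
  have h4 : ((⌊4 * √Q₀ + 2⌋₊ + 3 * (⌊√Q₀ * (2 * π)⌋₊ + 1) : ℕ) : ℝ) ≤ 28 * √Q₀ := by
    push_cast
    nlinarith
  have h5 : (6 : ℝ) * (1 + 2 * π) ≤ 43.8 := by linarith
  calc 6 * (1 + 2 * π) * ((⌊4 * √Q₀ + 2⌋₊ + 3 * (⌊√Q₀ * (2 * π)⌋₊ + 1) : ℕ) : ℝ)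
      ≤ 43.8 * (28 * √Q₀) := mul_le_mul h5 h4 (by positivity) (by norm_num)
    _ ≤ 1350 * √Q₀ := by nlinarith

/-- **Yau's upper bound for spheres of revolution.** -/
theorem sphere_le {ρ : ℝ → ℝ} (hρ : Continuous ρ) {M lam : ℝ} (hlam : 0 < lam)
    (hρ0 : ∀ x, 0 < ρ x) (hρe : ∀ x, ρ x ≤ M * Real.exp (-2 * |x|)) {u : ℝ × ℝ → ℝ}
    (hu : IsSph (fun x => lam * ρ x) u) (hne : ∃ p, u p ≠ 0) :
    ∫⁻ z in {z : ℂ | z.im ∈ Icc 0 (2 * π) ∧ u (z.re, z.im) = 0}, ENNReal.ofReal √(ρ z.re) ∂μH[1] ≤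
      ENNReal.ofReal (5400 * M * √lam) := by
  have hM : 0 < M := by
    have h1 := (hρ0 0).trans_le (hρe 0)
    simpa using h1
  have hstrip := strip_bound (q := fun x => lam * ρ x) (hρ.const_mul lam) (Q₀ := lam * M)
    (by positivity) (fun x => mul_pos hlam (hρ0 x)) (fun x => by
      rw [mul_assoc]
      exact mul_le_mul_of_nonneg_left (hρe x) hlam.le) hu hne
  set L : ℝ≥0∞ := ENNReal.ofReal (1350 * √(lam * M)) with hL
  set Z : Set ℂ := {z : ℂ | z.im ∈ Icc 0 (2 * π) ∧ u (z.re, z.im) = 0} with hZ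
  set A : ℕ → Set ℂ := fun n => strip n (2 * π) (fun x y => u (x, y)) with hA
  set A' : ℕ → Set ℂ := fun n => strip (-n - 1) (2 * π) (fun x y => u (x, y)) with hA'
  have hcov : Z ⊆ ⋃ n : ℕ, (A n ∪ A' n) := by
    intro z hz
    rw [mem_iUnion]
    refine ⟨⌊|z.re|⌋₊, ?_⟩
    have h1 := Nat.floor_le (abs_nonneg z.re)
    have h2 := Nat.lt_floor_add_one |z.re|
    rcases le_or_gt 0 z.re with h0 | h0
    · left
      rw [abs_of_nonneg h0] at h1 h2 ⊢
      exact ⟨⟨h1, h2.le⟩, hz.1, hz.2⟩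
    · right
      rw [abs_of_neg h0] at h1 h2 ⊢
      exact ⟨⟨by linarith, by linarith⟩, hz.1, hz.2⟩
  have hsqrt : ∀ (n : ℕ) (x : ℝ), (n : ℝ) ≤ |x| →
      ENNReal.ofReal √(ρ x) ≤ ENNReal.ofReal √M * (2 : ℝ≥0∞)⁻¹ ^ n := by
    intro n x hx
    have h1 : √(ρ x) ≤ √M * (1 / 2) ^ n := by
      refine Real.sqrt_le_iff.mpr ⟨by positivity, ?_⟩
      rw [mul_pow, Real.sq_sqrt hM.le]
      refine (hρe x).trans (mul_le_mul_of_nonneg_left ?_ hM.le)
      have h2 : Real.exp (-1) ≤ 1 / 2 := by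
        rw [Real.exp_neg]
        have h3 : (2 : ℝ) ≤ Real.exp 1 := by
          have := Real.add_one_le_exp (1 : ℝ)
          linarith
        rw [inv_eq_one_div]
        exact one_div_le_one_div_of_le (by norm_num) h3
      calc Real.exp (-2 * |x|) ≤ Real.exp (-2 * n) := Real.exp_le_exp.mpr (by linarith)
        _ = (Real.exp (-1) ^ n) ^ 2 := by
            rw [← Real.exp_nat_mul, ← Real.exp_nat_mul]
            congr 1
            push_cast
            ring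
        _ ≤ ((1 / 2) ^ n) ^ 2 := by
            refine pow_le_pow_left₀ (by positivity) (pow_le_pow_left₀ (Real.exp_pos _).le h2 n) 2
    refine (ENNReal.ofReal_le_ofReal h1).trans (le_of_eq ?_)
    rw [ENNReal.ofReal_mul (Real.sqrt_nonneg _), ENNReal.ofReal_pow (by norm_num), one_div,
      ENNReal.ofReal_inv_of_pos (by norm_num)]
    norm_num
  have hpiece : ∀ (n : ℕ) (E : Set ℂ), MeasurableSet E → μH[1] E ≤ L →
      (∀ z ∈ E, (n : ℝ) ≤ |z.re|) →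
      ∫⁻ z in E, ENNReal.ofReal √(ρ z.re) ∂μH[1] ≤ ENNReal.ofReal √M * (2 : ℝ≥0∞)⁻¹ ^ n * L := by
    intro n E hEm hEL hE
    calc ∫⁻ z in E, ENNReal.ofReal √(ρ z.re) ∂μH[1]
        ≤ ∫⁻ _ in E, ENNReal.ofReal √M * (2 : ℝ≥0∞)⁻¹ ^ n ∂μH[1] :=
          setLIntegral_mono' hEm fun z hz => hsqrt n z.re (hE z hz)
      _ = ENNReal.ofReal √M * (2 : ℝ≥0∞)⁻¹ ^ n * μH[1] E := by rw [setLIntegral_const]
      _ ≤ ENNReal.ofReal √M * (2 : ℝ≥0∞)⁻¹ ^ n * L := mul_le_mul_right hEL _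
  have huc := hu.smooth.continuous
  have hmeas : ∀ X : ℝ, MeasurableSet (strip X (2 * π) (fun x y => u (x, y))) := by
    intro X
    have h1 : IsClosed (strip X (2 * π) (fun x y => u (x, y))) := by
      have e1 : IsClosed {z : ℂ | z.re ∈ Icc X (X + 1)} := isClosed_Icc.preimage Complex.continuous_re
      have e2 : IsClosed {z : ℂ | z.im ∈ Icc (0 : ℝ) (2 * π)} :=
        isClosed_Icc.preimage Complex.continuous_im
      have e3 : IsClosed {z : ℂ | u (z.re, z.im) = 0} :=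
        isClosed_eq (huc.comp (Complex.continuous_re.prodMk Complex.continuous_im)) continuous_const
      exact e1.inter (e2.inter e3)
    exact h1.measurableSet
  calc ∫⁻ z in Z, ENNReal.ofReal √(ρ z.re) ∂μH[1]
      ≤ ∫⁻ z in ⋃ n : ℕ, (A n ∪ A' n), ENNReal.ofReal √(ρ z.re) ∂μH[1] :=
        lintegral_mono_set hcov
    _ ≤ ∑' n : ℕ, ∫⁻ z in A n ∪ A' n, ENNReal.ofReal √(ρ z.re) ∂μH[1] :=
        lintegral_iUnion_le _ _
    _ ≤ ∑' n : ℕ, (2 * (ENNReal.ofReal √M * L)) * (2 : ℝ≥0∞)⁻¹ ^ n := by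
        refine ENNReal.tsum_le_tsum fun n => ?_
        refine (lintegral_union_le _ _ _).trans ?_
        have h1 := hpiece n (A n) (hmeas _) (hstrip n) (fun z hz => by
          have := hz.1.1
          exact this.trans (le_abs_self _))
        have h2 := hpiece n (A' n) (hmeas _) (hstrip (-n - 1)) (fun z hz => by
          have := hz.1.2
          rw [abs_of_nonpos (by
            have : (0 : ℝ) ≤ n := Nat.cast_nonneg n
            linarith [hz.1.2])]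
          linarith)
        refine (add_le_add h1 h2).trans (le_of_eq ?_)
        ring
    _ = 2 * (ENNReal.ofReal √M * L) * 2 := by
        rw [ENNReal.tsum_mul_left, ENNReal.tsum_geometric, ENNReal.one_sub_inv_two, inv_inv]
    _ = ENNReal.ofReal (5400 * M * √lam) := by
        rw [hL, ← ENNReal.ofReal_mul (Real.sqrt_nonneg _)]
        have e2 : (2 : ℝ≥0∞) = ENNReal.ofReal 2 := by norm_num
        rw [e2, ← ENNReal.ofReal_mul (by norm_num), ← ENNReal.ofReal_mul (by positivity)]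
        congr 1
        rw [Real.sqrt_mul hlam.le]
        have h2 := Real.mul_self_sqrt hM.le
        linear_combination (5400 * √lam) * h2

end Pool.Agent.X146.Yau
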