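import Pool.Agent.X146.Yau.Rolle

set_option autoImplicit false

/-! The operator `f ↦ f'' - Q f` does not decrease the number of zeros in a period. -/

namespace Pool.Agent.X146.Yau

open Set Filter Topology

lemma step {α : ℝ} (hα : 0 < α) {Q h h' : ℝ → ℝ} (hd : ∀ x, HasDerivAt h (h' x) x)
    (hd' : ∀ x, HasDerivAt h' (Q x * h x) x) (hpos : ∀ x, 0 ≤ x → 0 < h x)
    {f f' f'' : ℝ → ℝ} (hf : ∀ x, HasDerivAt f (f' x) x) (hf' : ∀ x, HasDerivAt f' (f'' x) x)
    (hper : Function.Periodic f α) (hg : Function.Periodic (fun x => f'' x - Q x * f x) α)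
    (S : Finset ℝ) (hS : ∀ s ∈ S, s ∈ Ico 0 α ∧ f s = 0) :
    ∃ S' : Finset ℝ, S.card ≤ S'.card ∧ ∀ s ∈ S', s ∈ Ico 0 α ∧ f'' s - Q s * f s = 0 := by
  classical
  rcases Nat.eq_zero_or_pos S.card with h0 | hSpos
  · exact ⟨∅, by simp [h0], by simp⟩
  -- three periods
  set T : Finset ℝ := (S ×ˢ Finset.range 3).image (fun p => p.1 + (p.2 : ℝ) * α) with hT
  have hTcard : T.card = S.card * 3 := by
    rw [hT, Finset.card_image_of_injOn, Finset.card_product, Finset.card_range]
    rintro ⟨s, i⟩ hs ⟨t, j⟩ ht hst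
    simp only [Finset.coe_product, mem_prod, Finset.mem_coe] at hs ht
    simp only at hst
    have h1 := (hS s hs.1).1
    have h2 := (hS t ht.1).1
    have hij : i = j := by
      have h3 : ((i : ℝ) - j) * α < 1 * α := by linarith [h1.1, h2.2]
      have h4 : ((j : ℝ) - i) * α < 1 * α := by linarith [h2.1, h1.2]
      have h5 := lt_of_mul_lt_mul_right h3 hα.le
      have h6 := lt_of_mul_lt_mul_right h4 hα.le
      have h7 : (i : ℝ) < (j : ℝ) + 1 := by linarith
      have h8 : (j : ℝ) < (i : ℝ) + 1 := by linarith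
      have h9 : i < j + 1 := by exact_mod_cast h7
      have h10 : j < i + 1 := by exact_mod_cast h8
      omega
    subst hij
    simp only [Prod.mk.injEq, and_true]
    linarith
  have hTz : ∀ t ∈ T, t ∈ Icc 0 (3 * α) ∧ f t / h t = 0 := by
    intro t ht
    rw [hT, Finset.mem_image] at ht
    obtain ⟨⟨s, i⟩, hp, rfl⟩ := ht
    rw [Finset.mem_product, Finset.mem_range] at hp
    simp only at hp ⊢
    have h1 := hS s hp.1
    have hi : (i : ℝ) ≤ 2 := by
      have : i ≤ 2 := by omega
      exact_mod_cast this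
    have hi0 : (0 : ℝ) ≤ i := Nat.cast_nonneg i
    refine ⟨⟨?_, ?_⟩, ?_⟩
    · have := h1.1.1
      positivity
    · have := h1.1.2
      nlinarith
    · have := hper.nat_mul i s
      rw [this, h1.2, zero_div]
  -- first Rolle step
  obtain ⟨T1, hT1c, hT1⟩ := rolle_finset (F := fun x => f x / h x)
    (F' := fun x => (f' x * h x - f x * h' x) / h x ^ 2) (A := 0) (B := 3 * α)
    (fun x hx => (hf x).div (hd x) (hpos x hx.1).ne') T hTz
  -- second Rolle step
  obtain ⟨T2, hT2c, hT2⟩ := rolle_finset (F := fun x => f' x * h x - f x * h' x)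
    (F' := fun x => (f'' x - Q x * f x) * h x) (A := 0) (B := 3 * α)
    (fun x _ => by
      have := ((hf' x).mul (hd x)).sub ((hf x).mul (hd' x))
      refine this.congr_deriv ?_
      ring) T1 (fun t ht => ⟨⟨(hT1 t ht).1.1.le, (hT1 t ht).1.2.le⟩, by
      have h1 := (hT1 t ht).2
      have h2 := hpos t (hT1 t ht).1.1.le
      rw [div_eq_zero_iff] at h1
      rcases h1 with h1 | h1
      · exact h1
      · exact absurd h1 (by positivity)⟩)
  have hT2z : ∀ t ∈ T2, f'' t - Q t * f t = 0 := fun t ht => by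
    have h1 := (hT2 t ht).2
    have h2 := hpos t (hT2 t ht).1.1.le
    rcases mul_eq_zero.mp h1 with h | h
    · exact h
    · exact absurd h h2.ne'
  -- pigeonhole
  have hcard : S.card * 3 ≤ T2.card + 2 := by omega
  have hex : ∃ i ∈ Finset.range 3, S.card ≤ (T2.filter (fun x => ⌊x / α⌋₊ = i)).card := by
    by_contra hcon
    push Not at hcon
    have := Finset.card_le_mul_card_image_of_maps_to (s := T2) (t := Finset.range 3)
      (f := fun x => ⌊x / α⌋₊) (fun x hx => by
        have h1 := (hT2 x hx).1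
        rw [Finset.mem_range, Nat.floor_lt (by have := h1.1; positivity)]
        rw [div_lt_iff₀ hα]
        push_cast
        exact h1.2) (S.card - 1) (fun i hi => by
        have := hcon i hi
        omega)
    rw [Finset.card_range] at this
    omega
  obtain ⟨i, hi, hci⟩ := hex
  refine ⟨(T2.filter (fun x => ⌊x / α⌋₊ = i)).map ⟨fun x => x - i * α, fun x y hxy => by
    simpa using hxy⟩, by simpa using hci, ?_⟩
  intro s hs
  simp only [Finset.mem_map, Finset.mem_filter, Function.Embedding.coeFn_mk] at hs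
  obtain ⟨x, ⟨hx, hxi⟩, rfl⟩ := hs
  have hx0 := (hT2 x hx).1
  have hfl : (i : ℝ) ≤ x / α ∧ x / α < i + 1 := by
    rw [Nat.floor_eq_iff (by have := hx0.1; positivity)] at hxi
    exact hxi
  refine ⟨⟨?_, ?_⟩, ?_⟩
  · have := (le_div_iff₀ hα).mp hfl.1
    linarith
  · have := (div_lt_iff₀ hα).mp hfl.2
    linarith
  · have h1 := hg.sub_nat_mul_eq i (x := x)
    rw [h1]
    exact hT2z x hx

end Pool.Agent.X146.Yau
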