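import Pool.Agent.X146.Yau.Low

set_option autoImplicit false

/-! The length of the zero set in a vertical strip of width one. -/

namespace Pool.Agent.X146.Yau

open Set Filter Topology MeasureTheory
open scoped ENNReal

/-- at most `m` zeros on the line -/
def FewLine (f : ℝ → ℝ) (m : ℕ) : Prop := ∀ S : Finset ℝ, (∀ s ∈ S, f s = 0) → S.card ≤ m

lemma FewLine.finset {f : ℝ → ℝ} {m : ℕ} (h : FewLine f m) :
    ∃ Z : Finset ℝ, Z.card ≤ m ∧ ∀ x, x ∈ Z ↔ f x = 0 := by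
  have hfin : {x | f x = 0}.Finite := by
    by_contra hinf
    obtain ⟨S, hS, hc⟩ := Set.Infinite.exists_subset_card_eq hinf (m + 1)
    have := h S (fun s hs => hS hs)
    omega
  exact ⟨hfin.toFinset, h _ (fun s hs => by simpa using hs), fun x => by simp⟩

lemma FewLine.countable {f : ℝ → ℝ} {m : ℕ} (h : FewLine f m) : {x | f x = 0}.Countable := by
  obtain ⟨Z, -, hZ⟩ := h.finset
  refine Z.countable_toSet.mono fun x hx => ?_
  rw [Finset.mem_coe, hZ]
  exact hx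

/-- the zero set in the strip `X ≤ x ≤ X + 1` -/
def strip (X β : ℝ) (u : ℝ → ℝ → ℝ) : Set ℂ :=
  {z | z.re ∈ Icc X (X + 1) ∧ z.im ∈ Icc 0 β ∧ u z.re z.im = 0}

lemma cover_strip {q u : ℝ → ℝ → ℝ} (h : IsHelm q u) {B : ℝ} (hq0 : ∀ x y, 0 ≤ q x y)
    (hqB : ∀ x y, q x y ≤ B) {β : ℝ} (hβ : 0 < β)
    (hpy : ∀ x, Function.Periodic (fun y => u x y) β) {m₁ m₂ : ℕ}
    (h₁ : ∀ y, (∃ x, u x y ≠ 0) → FewLine (fun x => u x y) m₁)
    (h₂ : ∀ x, (∃ y, u x y ≠ 0) → Few (fun y => u x y) β m₂)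
    (hne : ∃ x y, u x y ≠ 0) (X : ℝ) {n : ℕ} (hn : 1 ≤ n)
    (hnB : (B + 1) * ((1 + β) / n) ^ 2 < 8) :
    ∃ P : Finset ℂ, P.card ≤ (2 * n + 1) * (m₁ + 3 * m₂) ∧
      strip X β u ⊆ ⋃ p ∈ P, Metric.closedBall p ((1 + β) / n) := by
  classical
  have hn' : (0 : ℝ) < n := by exact_mod_cast hn
  obtain ⟨a, b, hab⟩ := hne
  obtain ⟨x₀, hx₀, hx₀'⟩ := exists_offset (u := fun x y => u (X + x) y) (y₀ := b) one_pos
    ((h₁ b ⟨a, hab⟩).countable.preimage_of_injOn (f := fun x => X + x)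
      (fun a _ b _ hab => by simpa using hab)) (1 / n)
  obtain ⟨y₀, hy₀, hy₀'⟩ := exists_offset (u := fun y x => u x y) hβ
    ((h₂ a ⟨b, hab⟩).countable hβ (hpy a)) (β / n)
  have hV : ∀ i : ℕ, ∃ Z : Finset ℝ, Z.card ≤ 3 * m₂ ∧
      ∀ y, y ∈ Z ↔ y ∈ Ico (-β) (2 * β) ∧ u (X + (x₀ + i * (1 / n))) y = 0 := fun i =>
    (h₂ _ ⟨b, hx₀' i⟩).three hβ (hpy _)
  have hH : ∀ j : ℕ, ∃ Z : Finset ℝ, Z.card ≤ m₁ ∧
      ∀ x, x ∈ Z ↔ u x (y₀ + j * (β / n)) = 0 := fun j => (h₁ _ ⟨a, hy₀' j⟩).finset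
  choose V hVc hVm using hV
  choose H hHc hHm using hH
  set P1 : Finset ℂ := (Finset.range (2 * n + 1)).biUnion
    (fun i => (V i).image (fun y => (⟨X + (x₀ + i * (1 / n)), y⟩ : ℂ))) with hP1
  set P2 : Finset ℂ := (Finset.range (2 * n + 1)).biUnion
    (fun j => (H j).image (fun x => (⟨x, y₀ + j * (β / n)⟩ : ℂ))) with hP2
  refine ⟨P1 ∪ P2, ?_, ?_⟩
  · have e1 : P1.card ≤ (2 * n + 1) * (3 * m₂) := by
      have := Finset.card_biUnion_le_card_mul (Finset.range (2 * n + 1))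
        (fun i => (V i).image (fun y => (⟨X + (x₀ + i * (1 / n)), y⟩ : ℂ))) (3 * m₂)
        (fun i _ => Finset.card_image_le.trans (hVc i))
      rwa [Finset.card_range] at this
    have e2 : P2.card ≤ (2 * n + 1) * m₁ := by
      have := Finset.card_biUnion_le_card_mul (Finset.range (2 * n + 1))
        (fun j => (H j).image (fun x => (⟨x, y₀ + j * (β / n)⟩ : ℂ))) m₁
        (fun i _ => Finset.card_image_le.trans (hHc i))
      simpa using this
    have e3 := Finset.card_union_le P1 P2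
    rw [mul_add]
    omega
  · rintro ⟨x, y⟩ ⟨hx, hy, hu⟩
    simp only at hx hy hu
    obtain ⟨i, hi, hxi'⟩ := exists_cell one_pos hn hx₀
      (show x - X ∈ Icc (0 : ℝ) 1 from ⟨by linarith [hx.1], by linarith [hx.2]⟩)
    obtain ⟨j, hj, hyj⟩ := exists_cell hβ hn hy₀ hy
    have hαn : (0 : ℝ) < 1 / n := by positivity
    have hβn : 0 < β / n := by positivity
    have hsum : (1 + β) / n = 1 / n + β / n := by ring
    have hxi : x ∈ Icc (X + (x₀ + i * (1 / n))) (X + (x₀ + (i + 1 : ℕ) * (1 / n))) :=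
      ⟨by linarith [hxi'.1], by linarith [hxi'.2]⟩
    have hwx : X + (x₀ + (i + 1 : ℕ) * (1 / n)) - (X + (x₀ + i * (1 / n))) = (1 : ℝ) / n := by
      push_cast; ring
    have hwy : y₀ + (j + 1 : ℕ) * (β / n) - (y₀ + j * (β / n)) = β / n := by push_cast; ring
    -- ranges
    have ry : ∀ s ∈ Icc (y₀ + j * (β / n)) (y₀ + (j + 1 : ℕ) * (β / n)), s ∈ Ico (-β) (2 * β) := by
      intro s hs
      have hj' : ((j + 1 : ℕ) : ℝ) ≤ 2 * n := by exact_mod_cast hj
      have e1 : ((j + 1 : ℕ) : ℝ) * (β / n) ≤ 2 * n * (β / n) :=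
        mul_le_mul_of_nonneg_right hj' hβn.le
      have e2 : 2 * (n : ℝ) * (β / n) = 2 * β := by field_simp
      have e3 : 0 ≤ (j : ℝ) * (β / n) := by positivity
      exact ⟨by linarith [hs.1, hy₀.1], by linarith [hs.2, hy₀.2]⟩
    -- distances
    have hdist : ∀ s ∈ Icc (X + (x₀ + i * (1 / n))) (X + (x₀ + (i + 1 : ℕ) * (1 / n))),
        ∀ t ∈ Icc (y₀ + j * (β / n)) (y₀ + (j + 1 : ℕ) * (β / n)),
        (⟨x, y⟩ : ℂ) ∈ Metric.closedBall (⟨s, t⟩ : ℂ) ((1 + β) / n) := by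
      intro s hs t ht
      rw [Metric.mem_closedBall, dist_eq_norm]
      refine (Complex.norm_le_abs_re_add_abs_im _).trans ?_
      rw [hsum]
      refine add_le_add ?_ ?_
      · rw [abs_le]
        simp only [Complex.sub_re]
        constructor <;> linarith [hs.1, hs.2, hxi.1, hxi.2]
      · rw [abs_le]
        simp only [Complex.sub_im]
        constructor <;> linarith [ht.1, ht.2, hyj.1, hyj.2]
    have lx : X + (x₀ + i * (1 / n)) ∈
        Icc (X + (x₀ + i * (1 / n))) (X + (x₀ + (i + 1 : ℕ) * (1 / n))) := ⟨le_rfl, by linarith⟩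
    have ux : X + (x₀ + (i + 1 : ℕ) * (1 / n)) ∈
        Icc (X + (x₀ + i * (1 / n))) (X + (x₀ + (i + 1 : ℕ) * (1 / n))) := ⟨by linarith, le_rfl⟩
    have ly : y₀ + j * (β / n) ∈ Icc (y₀ + j * (β / n)) (y₀ + (j + 1 : ℕ) * (β / n)) :=
      ⟨le_rfl, by linarith⟩
    have uy : y₀ + (j + 1 : ℕ) * (β / n) ∈ Icc (y₀ + j * (β / n)) (y₀ + (j + 1 : ℕ) * (β / n)) :=
      ⟨by linarith, le_rfl⟩
    have memV : ∀ k : ℕ, k < 2 * n + 1 → ∀ t, t ∈ Ico (-β) (2 * β) →
        u (X + (x₀ + k * (1 / n))) t = 0 → (⟨X + (x₀ + k * (1 / n)), t⟩ : ℂ) ∈ P1 ∪ P2 := by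
      intro k hk t ht hut
      refine Finset.mem_union_left _ ?_
      rw [hP1, Finset.mem_biUnion]
      exact ⟨k, Finset.mem_range.mpr hk, Finset.mem_image.mpr ⟨t, (hVm k t).mpr ⟨ht, hut⟩, rfl⟩⟩
    have memH : ∀ k : ℕ, k < 2 * n + 1 → ∀ t, u t (y₀ + k * (β / n)) = 0 →
        (⟨t, y₀ + k * (β / n)⟩ : ℂ) ∈ P1 ∪ P2 := by
      intro k hk t hut
      refine Finset.mem_union_right _ ?_
      rw [hP2, Finset.mem_biUnion]
      exact ⟨k, Finset.mem_range.mpr hk, Finset.mem_image.mpr ⟨t, (hHm k t).mpr hut, rfl⟩⟩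
    rw [mem_iUnion₂]
    rcases h.exists_boundary hq0 hqB hnB (by rw [hwx, hsum]; linarith)
      (by rw [hwy, hsum]; linarith) hxi hyj hu with ⟨t, ht, ht' | ht'⟩ | ⟨s, hs, hs' | hs'⟩
    · exact ⟨_, memV i (by omega) t (ry t ht) ht', hdist _ lx t ht⟩
    · exact ⟨_, memV (i + 1) (by omega) t (ry t ht) ht', hdist _ ux t ht⟩
    · exact ⟨_, memH j (by omega) s hs', hdist s hs _ ly⟩
    · exact ⟨_, memH (j + 1) (by omega) s hs', hdist s hs _ uy⟩

/-- from coverings to the Hausdorff measure -/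
lemma length_of_cover {A : Set ℂ} {r : ℝ} (hr : 0 ≤ r) {m n₀ : ℕ}
    (h : ∀ n : ℕ, n₀ ≤ n → 1 ≤ n → ∃ P : Finset ℂ, P.card ≤ (2 * n + 1) * m ∧
      A ⊆ ⋃ p ∈ P, Metric.closedBall p (r / n)) :
    μH[1] A ≤ ENNReal.ofReal (6 * r * m) := by
  have hP : ∀ n, max n₀ 1 ≤ n → ∃ P : Finset ℂ, P.card ≤ (2 * n + 1) * m ∧
      A ⊆ ⋃ p ∈ P, Metric.closedBall p (r / n) := fun n hn =>
    h n ((le_max_left _ _).trans hn) ((le_max_right _ _).trans hn)
  choose! P hPc hPcov using hP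
  have hrt : Tendsto (fun n : ℕ => ENNReal.ofReal (2 * (r / n))) atTop (𝓝 0) := by
    have h1 := (tendsto_const_div_atTop_nhds_zero_nat r).const_mul 2
    have h2 := ENNReal.tendsto_ofReal h1
    simpa using h2
  have hdiam : ∀ (n : ℕ) (p : ℂ), Metric.ediam (Metric.closedBall p (r / n)) ≤
      ENNReal.ofReal (2 * (r / n)) := by
    intro n p
    refine Metric.ediam_le_of_forall_dist_le fun x hx y hy => ?_
    have := dist_triangle_right x y p
    rw [Metric.mem_closedBall] at hx hy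
    linarith
  refine (Measure.hausdorffMeasure_le_liminf_sum (β := ℕ) (ι := fun n => P n) 1 A
    (l := atTop) (fun n => ENNReal.ofReal (2 * (r / n))) hrt
    (fun n p => Metric.closedBall (p : ℂ) (r / n))
    (Eventually.of_forall fun n p => hdiam n p) ?_).trans ?_
  · filter_upwards [eventually_ge_atTop (max n₀ 1)] with n hn
    intro z hz
    have := hPcov n hn hz
    rw [mem_iUnion₂] at this
    obtain ⟨p, hp, hz'⟩ := this
    rw [mem_iUnion]
    exact ⟨⟨p, hp⟩, hz'⟩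
  · refine (liminf_le_liminf (v := fun _ => ENNReal.ofReal (6 * r * m)) ?_).trans
      (by rw [liminf_const])
    filter_upwards [eventually_ge_atTop (max n₀ 1)] with n hn
    have hn1 : (1 : ℝ) ≤ n := by exact_mod_cast (le_max_right _ _).trans hn
    calc ∑ p : P n, Metric.ediam (Metric.closedBall (p : ℂ) (r / n)) ^ (1 : ℝ)
        ≤ ∑ p : P n, ENNReal.ofReal (2 * (r / n)) := by
          refine Finset.sum_le_sum fun p _ => ?_
          rw [ENNReal.rpow_one]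
          exact hdiam n p
      _ = ((P n).card : ℝ≥0∞) * ENNReal.ofReal (2 * (r / n)) := by
          rw [Finset.sum_const, nsmul_eq_mul]
          simp
      _ = ENNReal.ofReal ((P n).card * (2 * (r / n))) := by
          rw [ENNReal.ofReal_mul (p := ((P n).card : ℝ)) (by positivity), ENNReal.ofReal_natCast]
      _ ≤ ENNReal.ofReal (6 * r * m) := by
          refine ENNReal.ofReal_le_ofReal ?_
          have h1 : ((P n).card : ℝ) ≤ ((2 * n + 1) * m : ℕ) := by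
            exact_mod_cast hPc n hn
          push_cast at h1
          have h2 : (0 : ℝ) ≤ 2 * (r / n) := by positivity
          have h3 : ((2 : ℝ) * n + 1) ≤ 3 * n := by linarith
          have h4 : (0 : ℝ) ≤ m := by positivity
          calc ((P n).card : ℝ) * (2 * (r / n))
              ≤ ((2 * n + 1) * m) * (2 * (r / n)) :=
                mul_le_mul_of_nonneg_right h1 h2
            _ ≤ ((3 * n) * m) * (2 * (r / n)) :=
                mul_le_mul_of_nonneg_right (mul_le_mul_of_nonneg_right h3 h4) h2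
            _ = 6 * r * m := by field_simp; ring

theorem strip_le {q u : ℝ → ℝ → ℝ} (h : IsHelm q u) {B : ℝ} (hq0 : ∀ x y, 0 ≤ q x y)
    (hqB : ∀ x y, q x y ≤ B) {β : ℝ} (hβ : 0 < β)
    (hpy : ∀ x, Function.Periodic (fun y => u x y) β) {m₁ m₂ : ℕ}
    (h₁ : ∀ y, (∃ x, u x y ≠ 0) → FewLine (fun x => u x y) m₁)
    (h₂ : ∀ x, (∃ y, u x y ≠ 0) → Few (fun y => u x y) β m₂)
    (hne : ∃ x y, u x y ≠ 0) (X : ℝ) :
    μH[1] (strip X β u) ≤ ENNReal.ofReal (6 * (1 + β) * (m₁ + 3 * m₂ : ℕ)) := by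
  have hB0 : 0 ≤ B := (hq0 0 0).trans (hqB 0 0)
  have hlim : Tendsto (fun n : ℕ => (B + 1) * ((1 + β) / (n : ℝ)) ^ 2) atTop (𝓝 0) := by
    have h1 := tendsto_const_div_atTop_nhds_zero_nat (1 + β)
    have h2 := (h1.pow 2).const_mul (B + 1)
    simpa using h2
  obtain ⟨n₀, hn₀⟩ := (hlim.eventually_lt_const
    (show (0 : ℝ) < 8 by norm_num)).exists_forall_of_atTop
  exact length_of_cover (n₀ := n₀) (by positivity) fun n hn hn1 =>
    cover_strip h hq0 hqB hβ hpy h₁ h₂ hne X hn1 (hn₀ n hn)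

end Pool.Agent.X146.Yau
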