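import Pool.Agent.X146.Yau.Single

set_option autoImplicit false

/-! The number of zeros of a finite sum of bounded solutions of `G'' = -(q + ν) G`, `ν ≤ 0`,
`0 ≤ q ≤ Q₀ e^{-2|x|}`, on the whole line. -/

namespace Pool.Agent.X146.Yau

open Set Filter Topology MeasureTheory

/-- maximum principle on a half line -/
lemma half_line_max {D D' D'' : ℝ → ℝ} (h1 : ∀ x, HasDerivAt D (D' x) x)
    (h2 : ∀ x, HasDerivAt D' (D'' x) x) {X B : ℝ} (hX : D X ≤ 0)
    (hB : ∀ x, X ≤ x → D x ≤ B)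
    (hpos : ∀ x, X < x → 0 < D x → 0 < D'' x) : ∀ x, X ≤ x → D x ≤ 0 := by
  intro x₁ hx₁
  by_contra hcon
  push Not at hcon
  have hlt : X < x₁ := lt_of_le_of_ne hx₁ (fun h => by rw [← h] at hcon; linarith)
  set ε := D x₁ / (2 * (x₁ - X)) with hε
  have hd : 0 < x₁ - X := by linarith
  have hε0 : 0 < ε := by positivity
  have hE1 : D x₁ - ε * (x₁ - X) = D x₁ / 2 := by
    rw [hε]
    field_simp
    ring
  set R := max x₁ (X + (B + 1) / ε) with hR
  have hRX : X < R := hlt.trans_le (le_max_left _ _)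
  have hER : D R - ε * (R - X) < 0 := by
    have h3 : (B + 1) / ε ≤ R - X := by linarith [le_max_right x₁ (X + (B + 1) / ε)]
    rw [div_le_iff₀ hε0] at h3
    linarith [hB R hRX.le]
  have hc : Continuous D := continuous_iff_continuousAt.mpr fun x => (h1 x).continuousAt
  obtain ⟨ξ, hξ, hmax⟩ := (isCompact_Icc (a := X) (b := R)).exists_isMaxOn
    (nonempty_Icc.mpr hRX.le) (f := fun x => D x - ε * (x - X)) (by fun_prop)
  have h3 : D x₁ - ε * (x₁ - X) ≤ D ξ - ε * (ξ - X) := hmax ⟨hlt.le, le_max_left _ _⟩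
  rw [hE1] at h3
  have n1 : X < ξ := lt_of_le_of_ne hξ.1 (fun h => by
    rw [← h, sub_self, mul_zero, sub_zero] at h3
    linarith)
  have n2 : ξ < R := lt_of_le_of_ne hξ.2 (fun h => by
    rw [h] at h3
    linarith)
  have key := nonneg_of_min (g := fun x => -(D x - ε * (x - X))) (g' := fun x => -(D' x - ε * 1))
    (g'' := -(D'' ξ)) (x₀ := ξ)
    (Eventually.of_forall fun x => ((h1 x).sub (((hasDerivAt_id x).sub_const X).const_mul ε)).neg)
    ((h2 ξ).sub_const (ε * 1)).neg (by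
      filter_upwards [Icc_mem_nhds n1 n2] with y hy
      have : D y - ε * (y - X) ≤ D ξ - ε * (ξ - X) := hmax hy
      linarith)
  have h4 : 0 < D ξ := by
    have : 0 < ε * (ξ - X) := mul_pos hε0 (by linarith)
    linarith
  linarith [hpos ξ n1 h4]

lemma ratio_aux {q : ℝ → ℝ} {ω ν : ℝ} (hων : ν < ω) {g g' k k' : ℝ → ℝ}
    (hg : IsSol (fun x => q x + ω) g g') (hk : IsSol (fun x => q x + ν) k k') {X Bg Bk : ℝ}
    (hgb : ∀ x, |g x| ≤ Bg) (hkb : ∀ x, |k x| ≤ Bk) (hgX : ∀ x, X ≤ x → 0 < g x)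
    (hneg : ∀ x, X ≤ x → q x + ν < 0) :
    ∀ x, X ≤ x → k x ≤ |k X| / g X * g x := by
  set c := |k X| / g X with hc
  have hgX0 := hgX X le_rfl
  have hc0 : 0 ≤ c := div_nonneg (abs_nonneg _) hgX0.le
  have key := half_line_max (D := fun x => k x - c * g x) (D' := fun x => k' x - c * g' x)
    (D'' := fun x => -((q x + ν) * k x) - c * -((q x + ω) * g x)) (X := X)
    (B := Bk + c * Bg) (fun x => (hk.d1 x).sub ((hg.d1 x).const_mul c))
    (fun x => (hk.d2 x).sub ((hg.d2 x).const_mul c)) (by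
      rw [hc, div_mul_cancel₀ _ hgX0.ne']
      linarith [le_abs_self (k X)])
    (fun x _ => by
      have e1 := (abs_le.mp (hkb x)).2
      have e2 := (abs_le.mp (hgb x)).1
      nlinarith)
    (fun x hx hD => by
      have e1 := hneg x hx.le
      have e2 := hgX x hx.le
      have e3 : 0 < -(q x + ν) * (k x - c * g x) := mul_pos (by linarith) hD
      have e4 : 0 ≤ c * ((ω - ν) * g x) := by
        have : 0 < (ω - ν) * g x := mul_pos (by linarith) e2
        positivity
      nlinarith)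
  intro x hx
  linarith [key x hx]

lemma ratio_bound {q : ℝ → ℝ} {ω ν : ℝ} (hων : ν < ω) {g g' k k' : ℝ → ℝ}
    (hg : IsSol (fun x => q x + ω) g g') (hk : IsSol (fun x => q x + ν) k k') {X Bg Bk : ℝ}
    (hgb : ∀ x, |g x| ≤ Bg) (hkb : ∀ x, |k x| ≤ Bk) (hgX : ∀ x, X ≤ x → g x ≠ 0)
    (hneg : ∀ x, X ≤ x → q x + ν < 0) :
    ∃ c, 0 ≤ c ∧ ∀ x, X ≤ x → |k x| ≤ c * |g x| := by
  have key : ∀ f f' : ℝ → ℝ, IsSol (fun x => q x + ω) f f' → (∀ x, |f x| = |g x|) → 0 < f X →
      ∃ c, 0 ≤ c ∧ ∀ x, X ≤ x → |k x| ≤ c * |g x| := by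
    intro f f' hf hfg hfX
    have hf0 : ∀ x, X ≤ x → f x ≠ 0 := fun x hx h => by
      have := hfg x
      rw [h, abs_zero] at this
      exact hgX x hx (abs_eq_zero.mp this.symm)
    have hfpos : ∀ x, X ≤ x → 0 < f x := fun x hx =>
      pos_of_ne hf.cont (a := X) (b := x) (s := X) ⟨le_rfl, hx⟩ hfX (fun t ht => hf0 t ht.1) x
        ⟨hx, le_rfl⟩
    have hfb : ∀ x, |f x| ≤ Bg := fun x => by rw [hfg]; exact hgb x
    have r1 := ratio_aux hων hf hk hfb hkb hfpos hneg
    have r2 := ratio_aux hων hf hk.neg hfb (fun x => by rw [abs_neg]; exact hkb x) hfpos hneg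
    refine ⟨|k X| / f X, div_nonneg (abs_nonneg _) hfX.le, fun x hx => ?_⟩
    rw [← hfg, abs_of_pos (hfpos x hx), abs_le]
    have e1 := r1 x hx
    have e2 := r2 x hx
    rw [abs_neg] at e2
    constructor <;> linarith
  rcases lt_or_gt_of_ne (hgX X le_rfl) with h | h
  · exact key (fun x => -g x) (fun x => -g' x) hg.neg (fun x => abs_neg _) (by linarith)
  · exact key g g' hg (fun x => rfl) h

/-- zeros are stable -/
lemma zeros_stable {G G' : ℝ → ℝ} (hG : ∀ x, HasDerivAt G (G' x) x) (hG' : Continuous G') (X : ℝ)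
    (hne : ∀ x, G x ≠ 0 ∨ G' x ≠ 0) :
    ∃ ε > 0, ∀ g g' : ℝ → ℝ, (∀ x, HasDerivAt g (g' x) x) →
      (∀ x ∈ Icc (-X) X, |g x - G x| ≤ ε) → (∀ x ∈ Icc (-X) X, |g' x - G' x| ≤ ε) →
      ∀ T : Finset ℝ, (∀ t ∈ T, t ∈ Icc (-X) X ∧ g t = 0) →
        ∃ Z : Finset ℝ, T.card ≤ Z.card ∧ ∀ z ∈ Z, G z = 0 := by
  classical
  have hGc : Continuous G := continuous_iff_continuousAt.mpr fun x => (hG x).continuousAt
  rcases le_or_gt 0 X with hX | hX
  swap
  · refine ⟨1, one_pos, fun g g' _ _ _ T hT => ⟨∅, ?_, by simp⟩⟩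
    have : T = ∅ := by
      rw [Finset.eq_empty_iff_forall_notMem]
      intro t ht
      have := (hT t ht).1
      linarith [this.1, this.2]
    rw [this]
  obtain ⟨x₀, -, hx₀⟩ := (isCompact_Icc (a := -X - 1) (b := X + 1)).exists_isMinOn
    (nonempty_Icc.mpr (by linarith)) (f := fun x => |G x| + |G' x|)
    (hGc.abs.add hG'.abs).continuousOn
  set c := |G x₀| + |G' x₀| with hc
  have hc0 : 0 < c := by
    rcases hne x₀ with h | h
    · have := abs_pos.mpr h
      have := abs_nonneg (G' x₀)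
      linarith
    · have := abs_pos.mpr h
      have := abs_nonneg (G x₀)
      linarith
  have hlow : ∀ x ∈ Icc (-X - 1) (X + 1), c ≤ |G x| + |G' x| := fun x hx => hx₀ hx
  have huc := (isCompact_Icc (a := -X - 1) (b := X + 1)).uniformContinuousOn_of_continuous
    hG'.continuousOn
  rw [Metric.uniformContinuousOn_iff] at huc
  obtain ⟨δ₀, hδ₀, huc⟩ := huc (c / 4) (by positivity)
  set δ := min (δ₀ / 2) 1 with hδ
  have hδ0 : 0 < δ := by positivity
  have hδ1 : δ ≤ 1 := min_le_right _ _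
  have hδ2 : δ < δ₀ := (min_le_left _ _).trans_lt (by linarith)
  have hvar : ∀ x ∈ Icc (-X - 1) (X + 1), ∀ y ∈ Icc (-X - 1) (X + 1), |x - y| ≤ δ →
      |G' x - G' y| ≤ c / 4 := fun x hx y hy hxy => by
    have := huc x hx y hy (by rw [Real.dist_eq]; linarith)
    rw [Real.dist_eq] at this
    exact this.le
  refine ⟨min (c / 8) (c * δ / 8), by positivity, fun g g' hg hg1 hg2 T hT => ?_⟩
  set ε := min (c / 8) (c * δ / 8) with hε
  have hε1 : ε ≤ c / 8 := min_le_left _ _
  have hε2 : ε ≤ c * δ / 8 := min_le_right _ _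
  have hex : ∀ t ∈ T, ∃ z, |z - t| < δ ∧ G z = 0 := by
    intro t ht
    obtain ⟨htX, ht0⟩ := hT t ht
    have h1 : |G t| ≤ ε := by
      have := hg1 t htX
      rwa [ht0, zero_sub, abs_neg] at this
    have htX' : t ∈ Icc (-X - 1) (X + 1) := ⟨by linarith [htX.1], by linarith [htX.2]⟩
    have h2 := hlow t htX'
    have hab := abs_le.mp h1
    -- mean value on both sides
    have hr : ∃ a ∈ Ioo t (t + δ), G' a = (G (t + δ) - G t) / δ := by
      obtain ⟨a, ha, ha'⟩ := exists_hasDerivAt_eq_slope G G' (show t < t + δ by linarith)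
        hGc.continuousOn (fun y _ => hG y)
      exact ⟨a, ha, by rw [ha']; congr 1; ring⟩
    have hl : ∃ a ∈ Ioo (t - δ) t, G' a = (G t - G (t - δ)) / δ := by
      obtain ⟨a, ha, ha'⟩ := exists_hasDerivAt_eq_slope G G' (show t - δ < t by linarith)
        hGc.continuousOn (fun y _ => hG y)
      exact ⟨a, ha, by rw [ha']; congr 1; ring⟩
    obtain ⟨a, ha, haG⟩ := hr
    obtain ⟨b, hb, hbG⟩ := hl
    have va := abs_le.mp (hvar a ⟨by linarith [ha.1, htX.1], by linarith [ha.2, htX.2]⟩ t htX'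
      (by rw [abs_le]; constructor <;> linarith [ha.1, ha.2]))
    have vb := abs_le.mp (hvar b ⟨by linarith [hb.1, htX.1], by linarith [hb.2, htX.2]⟩ t htX'
      (by rw [abs_le]; constructor <;> linarith [hb.1, hb.2]))
    have eR : G (t + δ) = G t + δ * G' a := by
      rw [haG]
      field_simp
      ring
    have eL : G (t - δ) = G t - δ * G' b := by
      rw [hbG]
      field_simp
      ring
    have hzero : (0 : ℝ) ∈ uIcc (G (t - δ)) (G (t + δ)) ∧ G (t - δ) ≠ 0 ∧ G (t + δ) ≠ 0 := by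
      rcases le_or_gt 0 (G' t) with hs | hs
      · have h3 : 3 * c / 4 ≤ G' t := by
          rw [abs_of_nonneg hs] at h2
          linarith
        have h4 : 0 < G (t + δ) := by
          rw [eR]
          have : δ * (c / 2) ≤ δ * G' a := mul_le_mul_of_nonneg_left (by linarith) hδ0.le
          nlinarith
        have h5 : G (t - δ) < 0 := by
          rw [eL]
          have : δ * (c / 2) ≤ δ * G' b := mul_le_mul_of_nonneg_left (by linarith) hδ0.le
          nlinarith
        exact ⟨by rw [mem_uIcc]; left; exact ⟨h5.le, h4.le⟩, h5.ne, h4.ne'⟩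
      · have h3 : G' t ≤ -(3 * c / 4) := by
          rw [abs_of_neg hs] at h2
          linarith
        have h4 : G (t + δ) < 0 := by
          rw [eR]
          have : δ * G' a ≤ δ * (-(c / 2)) := mul_le_mul_of_nonneg_left (by linarith) hδ0.le
          nlinarith
        have h5 : 0 < G (t - δ) := by
          rw [eL]
          have : δ * G' b ≤ δ * (-(c / 2)) := mul_le_mul_of_nonneg_left (by linarith) hδ0.le
          nlinarith
        exact ⟨by rw [mem_uIcc]; right; exact ⟨h4.le, h5.le⟩, h5.ne', h4.ne⟩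
    obtain ⟨z, hz, hz0⟩ := intermediate_value_uIcc (a := t - δ) (b := t + δ) (f := G)
      hGc.continuousOn hzero.1
    rw [uIcc_of_le (by linarith)] at hz
    refine ⟨z, ?_, hz0⟩
    have n1 : t - δ < z := lt_of_le_of_ne hz.1 (fun h => hzero.2.1 (by rw [h]; exact hz0))
    have n2 : z < t + δ := lt_of_le_of_ne hz.2 (fun h => hzero.2.2 (by rw [← h]; exact hz0))
    rw [abs_lt]
    constructor <;> linarith
  choose! ζ hζ1 hζ2 using hex
  refine ⟨T.image ζ, ?_, fun z hz => ?_⟩
  · rw [Finset.card_image_of_injOn]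
    have hinj : ∀ s ∈ T, ∀ t ∈ T, s < t → ζ s ≠ ζ t := by
      intro s hs t ht hst heq
      obtain ⟨ξ, hξ, hξ0⟩ := exists_hasDerivAt_eq_zero (f := g) (f' := g') hst
        (continuous_iff_continuousAt.mpr fun x => (hg x).continuousAt).continuousOn
        (by rw [(hT s hs).2, (hT t ht).2]) (fun x _ => hg x)
      have e1 := abs_lt.mp (hζ1 s hs)
      have e2 := abs_lt.mp (hζ1 t ht)
      rw [← heq] at e2
      set z := ζ s with hz
      have hz0 : G z = 0 := hζ2 s hs
      have hsX := (hT s hs).1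
      have htX := (hT t ht).1
      have hzX : z ∈ Icc (-X - 1) (X + 1) :=
        ⟨by linarith [hsX.1, hsX.2], by linarith [hsX.1, hsX.2]⟩
      have hξX : ξ ∈ Icc (-X) X := ⟨by linarith [hξ.1, hsX.1], by linarith [hξ.2, htX.2]⟩
      have h3 := hlow z hzX
      rw [hz0, abs_zero, zero_add] at h3
      have h4 := hvar z hzX ξ ⟨by linarith [hξX.1], by linarith [hξX.2]⟩
        (by rw [abs_le]; constructor <;> linarith [hξ.1, hξ.2])
      have h5 := hg2 ξ hξX
      rw [hξ0, zero_sub, abs_neg] at h5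
      have h6 : |G' z| ≤ |G' z - G' ξ| + |G' ξ| := by
        have := abs_add_le (G' z - G' ξ) (G' ξ)
        simpa using this
      linarith
    intro s hs t ht heq
    rw [Finset.mem_coe] at hs ht
    rcases lt_trichotomy s t with h | h | h
    · exact absurd heq (hinj s hs t ht h)
    · exact h
    · exact absurd heq.symm (hinj t ht s hs h)
  · obtain ⟨t, ht, rfl⟩ := Finset.mem_image.mp hz
    exact hζ2 t ht

end Pool.Agent.X146.Yau
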