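import Pool.Agent.X146.Yau.Dens
import Pool.Agent.X146.Yau.Strip

set_option autoImplicit false

/-! Coverings of the nodal set on a twisted torus. -/

namespace Pool.Agent.X146.Yau

open Set Filter Topology MeasureTheory Real
open scoped ContDiff ENNReal

/-- the density of the zeros on the lines `θ = const` -/
lemma line_density {q : ℝ → ℝ} (hq : Continuous q) {α : ℝ} (hα : 0 < α)
    (hqp : Function.Periodic q α) {Q₀ : ℝ} (hq0 : ∀ x, 0 ≤ q x) (hqQ : ∀ x, q x ≤ Q₀)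
    {u : ℝ × ℝ → ℝ} (hu : IsSph q u) {K : ℤ} (hK : ∀ k : ℤ, K < |k| → ∀ x, q x < (k : ℝ) ^ 2)
    (hKQ : ∀ k ∈ Finset.Icc (-K) K, (k : ℝ) ^ 2 ≤ Q₀) {d : ℝ} (hd0 : 0 < d)
    (hKd : Q₀ * d ^ 2 < 1) (θ : ℝ) (hne : ∃ x, u (x, θ) ≠ 0) :
    ∃ c : ℝ, ∀ a b : ℝ, a ≤ b → ∀ S : Finset ℝ, (∀ s ∈ S, s ∈ Icc a b ∧ u (s, θ) = 0) →
      (S.card : ℝ) ≤ (b - a) / d + c := by
  classical
  obtain ⟨B, hB⟩ := hu.bdd
  have hQ₀ : 0 ≤ Q₀ := (hq0 0).trans (hqQ 0)
  set g : ℤ → ℝ → ℝ := fun k x => fc (fun t => u (x, t)) k * cos (k * θ) +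
    fs (fun t => u (x, t)) k * sin (k * θ) with hg
  set g' : ℤ → ℝ → ℝ := fun k x => fc (fun t => Dx u (x, t)) k * cos (k * θ) +
    fs (fun t => Dx u (x, t)) k * sin (k * θ) with hg'
  have hsol : ∀ k : ℤ, IsSol (fun x => q x + -(k : ℝ) ^ 2) (g k) (g' k) := by
    intro k
    have h1 := ((fc_sol hu k).const_mul (cos (k * θ))).add ((fs_sol hu k).const_mul (sin (k * θ)))
    have e1 : g k = fun x => cos (k * θ) * fc (fun t => u (x, t)) k +
        sin (k * θ) * fs (fun t => u (x, t)) k := by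
      funext x
      simp only [hg]
      ring
    have e2 : g' k = fun x => cos (k * θ) * fc (fun t => Dx u (x, t)) k +
        sin (k * θ) * fs (fun t => Dx u (x, t)) k := by
      funext x
      simp only [hg']
      ring
    rw [e1, e2]
    exact h1
  have hbd : ∀ k x, |g k x| ≤ 2 * B := by
    intro k x
    have h1 : |fc (fun t => u (x, t)) k| ≤ B := coef_bdd (fun t => hB _) (fun t => abs_cos_le_one _)
    have h2 : |fs (fun t => u (x, t)) k| ≤ B := coef_bdd (fun t => hB _) (fun t => abs_sin_le_one _)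
    have hB0 : 0 ≤ B := (abs_nonneg _).trans h1
    refine (abs_add_le _ _).trans ?_
    rw [abs_mul, abs_mul]
    have h3 := mul_le_mul h1 (abs_cos_le_one (k * θ)) (abs_nonneg _) hB0
    have h4 := mul_le_mul h2 (abs_sin_le_one (k * θ)) (abs_nonneg _) hB0
    linarith
  set I := Finset.Icc (-K) K with hI
  set ν : ℤ → ℝ := fun k => -(k : ℝ) ^ 2 with hν
  have hfib : ∀ x, ∑ μ ∈ I.image ν, ∑ i ∈ I.filter (fun i => ν i = μ), g i x = u (x, θ) := by
    intro x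
    rw [Finset.sum_fiberwise_of_maps_to (fun i hi => Finset.mem_image_of_mem ν hi)]
    exact (expand hu hK x θ).symm
  obtain ⟨c, hc⟩ := density (K := Q₀) hq hα hqp (I.image ν)
    (fun μ x => ∑ i ∈ I.filter (fun i => ν i = μ), g i x)
    (fun μ x => ∑ i ∈ I.filter (fun i => ν i = μ), g' i x)
    (fun μ _ => IsSol.sum _ fun i hi => by
      have := (Finset.mem_filter.mp hi).2
      rw [← this]
      exact hsol i)
    (fun μ hμ x => by
      obtain ⟨k, hk, rfl⟩ := Finset.mem_image.mp hμ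
      have h1 := hKQ k hk
      have h2 := hq0 x
      have h3 := hqQ x
      have h4 := sq_nonneg (k : ℝ)
      simp only [hν]
      rw [abs_le]
      constructor <;> linarith)
    (fun μ _ => ⟨∑ i ∈ I.filter (fun i => ν i = μ), 2 * B, fun x =>
      (Finset.abs_sum_le_sum_abs _ _).trans (Finset.sum_le_sum fun i _ => hbd i x)⟩)
    (by
      obtain ⟨x, hx⟩ := hne
      exact ⟨x, by rw [hfib]; exact hx⟩) hd0 hKd
  exact ⟨c, fun a b hab S hS => hc a b hab S fun s hs => ⟨(hS s hs).1, by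
    rw [hfib]; exact (hS s hs).2⟩⟩

/-- zeros of bounded density -/
def Dens (f : ℝ → ℝ) (d c : ℝ) : Prop :=
  ∀ a b : ℝ, a ≤ b → ∀ S : Finset ℝ, (∀ s ∈ S, s ∈ Icc a b ∧ f s = 0) →
    (S.card : ℝ) ≤ (b - a) / d + c

lemma Dens.finset {f : ℝ → ℝ} {d c : ℝ} (h : Dens f d c) {a b : ℝ} (hab : a ≤ b) :
    ∃ Z : Finset ℝ, (Z.card : ℝ) ≤ (b - a) / d + c ∧ ∀ x, x ∈ Z ↔ x ∈ Icc a b ∧ f x = 0 := by
  have hfin : {x | x ∈ Icc a b ∧ f x = 0}.Finite := by
    by_contra hinf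
    obtain ⟨S, hS, hc⟩ := Set.Infinite.exists_subset_card_eq hinf (⌊(b - a) / d + c⌋₊ + 1)
    have h1 := h a b hab S (fun s hs => hS hs)
    rw [hc] at h1
    have h2 := Nat.lt_floor_add_one ((b - a) / d + c)
    push_cast at h1
    linarith
  exact ⟨hfin.toFinset, h a b hab _ (fun s hs => by simpa using hs), fun x => by simp⟩

lemma Dens.countable {f : ℝ → ℝ} {d c : ℝ} (h : Dens f d c) : {x | f x = 0}.Countable := by
  have : {x | f x = 0} ⊆ ⋃ n : ℕ, {x | x ∈ Icc (-(n : ℝ)) n ∧ f x = 0} := by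
    intro x hx
    rw [mem_iUnion]
    obtain ⟨n, hn⟩ := exists_nat_ge |x|
    exact ⟨n, abs_le.mp hn, hx⟩
  refine (countable_iUnion fun n => ?_).mono this
  obtain ⟨Z, -, hZ⟩ := h.finset (a := -(n : ℝ)) (b := n)
    (by have : (0 : ℝ) ≤ n := Nat.cast_nonneg n; linarith)
  refine Z.countable_toSet.mono fun x hx => ?_
  rw [Finset.mem_coe, hZ]
  exact hx

/-- covering of the nodal set in `n` periods -/
lemma cover_long {q u : ℝ → ℝ → ℝ} (h : IsHelm q u) {B : ℝ} (hq0 : ∀ x y, 0 ≤ q x y)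
    (hqB : ∀ x y, q x y ≤ B) {α β d : ℝ} (hα : 0 < α) (hβ : 0 < β)
    (hpy : ∀ x, Function.Periodic (fun y => u x y) β) {m₂ : ℕ}
    (h₁ : ∀ y, (∃ x, u x y ≠ 0) → ∃ c, Dens (fun x => u x y) d c)
    (h₂ : ∀ x, (∃ y, u x y ≠ 0) → Few (fun y => u x y) β m₂)
    (hne : ∃ x y, u x y ≠ 0) {m : ℕ} (hm : 1 ≤ m) (hmB : (B + 1) * ((α + β) / m) ^ 2 < 8) :
    ∃ C : ℝ, ∀ n : ℕ, 1 ≤ n → ∃ P : Finset ℂ,
      (P.card : ℝ) ≤ (2 * (n * m) + 1) * (3 * m₂) + (2 * m + 1) * (3 * (n * α) / d + C) ∧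
      ∀ x ∈ Icc 0 (n * α), ∀ y ∈ Icc 0 β, u x y = 0 →
        ∃ p ∈ P, (⟨x, y⟩ : ℂ) ∈ Metric.closedBall p ((α + β) / m) := by
  classical
  have hm' : (0 : ℝ) < m := by exact_mod_cast hm
  obtain ⟨a, b, hab⟩ := hne
  obtain ⟨c₀, hc₀⟩ := h₁ b ⟨a, hab⟩
  obtain ⟨x₀, hx₀, hx₀'⟩ := exists_offset (u := u) hα hc₀.countable (α / m)
  obtain ⟨y₀, hy₀, hy₀'⟩ := exists_offset (u := fun y x => u x y) hβ
    ((h₂ a ⟨b, hab⟩).countable hβ (hpy a)) (β / m)
  have hV : ∀ i : ℕ, ∃ Z : Finset ℝ, Z.card ≤ 3 * m₂ ∧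
      ∀ y, y ∈ Z ↔ y ∈ Ico (-β) (2 * β) ∧ u (x₀ + i * (α / m)) y = 0 := fun i =>
    (h₂ _ ⟨b, hx₀' i⟩).three hβ (hpy _)
  choose V hVc hVm using hV
  have hH : ∀ j : ℕ, ∃ c, Dens (fun x => u x (y₀ + j * (β / m))) d c := fun j =>
    h₁ _ ⟨a, hy₀' j⟩
  choose c hc using hH
  refine ⟨∑ j ∈ Finset.range (2 * m + 1), |c j|, fun n hn => ?_⟩
  have hn' : (0 : ℝ) < n := by exact_mod_cast hn
  have hnα : 0 < n * α := by positivity
  have hH2 : ∀ j : ℕ, ∃ Z : Finset ℝ, (Z.card : ℝ) ≤ (2 * (n * α) - -(n * α)) / d + c j ∧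
      ∀ x, x ∈ Z ↔ x ∈ Icc (-(n * α)) (2 * (n * α)) ∧ u x (y₀ + j * (β / m)) = 0 := fun j =>
    (hc j).finset (by linarith)
  choose H hHc hHm using hH2
  set P1 : Finset ℂ := (Finset.range (2 * (n * m) + 1)).biUnion
    (fun i => (V i).image (fun y => (⟨x₀ + i * (α / m), y⟩ : ℂ))) with hP1
  set P2 : Finset ℂ := (Finset.range (2 * m + 1)).biUnion
    (fun j => (H j).image (fun x => (⟨x, y₀ + j * (β / m)⟩ : ℂ))) with hP2
  refine ⟨P1 ∪ P2, ?_, ?_⟩
  · have e1 : P1.card ≤ (2 * (n * m) + 1) * (3 * m₂) := by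
      have := Finset.card_biUnion_le_card_mul (Finset.range (2 * (n * m) + 1))
        (fun i => (V i).image (fun y => (⟨x₀ + i * (α / m), y⟩ : ℂ))) (3 * m₂)
        (fun i _ => Finset.card_image_le.trans (hVc i))
      rwa [Finset.card_range] at this
    have e2 : (P2.card : ℝ) ≤ (2 * m + 1) * (3 * (n * α) / d +
        ∑ j ∈ Finset.range (2 * m + 1), |c j|) := by
      have f1 : P2.card ≤ ∑ j ∈ Finset.range (2 * m + 1), (H j).card :=
        Finset.card_biUnion_le.trans (Finset.sum_le_sum fun j _ => Finset.card_image_le)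
      have f2 : (P2.card : ℝ) ≤ ∑ j ∈ Finset.range (2 * m + 1), ((H j).card : ℝ) := by
        exact_mod_cast f1
      have f3 : ∀ j ∈ Finset.range (2 * m + 1), ((H j).card : ℝ) ≤ 3 * (n * α) / d +
          ∑ j ∈ Finset.range (2 * m + 1), |c j| := by
        intro j hj
        have g1 := hHc j
        have g2 : (2 * (n * α) - -(n * α)) = 3 * (n * α) := by ring
        rw [g2] at g1
        have g3 : |c j| ≤ ∑ j ∈ Finset.range (2 * m + 1), |c j| :=
          Finset.single_le_sum (f := fun j => |c j|) (fun _ _ => abs_nonneg _) hj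
        linarith [le_abs_self (c j)]
      refine (f2.trans (Finset.sum_le_card_nsmul _ _ _ f3)).trans (le_of_eq ?_)
      rw [Finset.card_range, nsmul_eq_mul]
      push_cast
      ring
    have e3 : ((P1 ∪ P2).card : ℝ) ≤ P1.card + P2.card := by exact_mod_cast Finset.card_union_le P1 P2
    have e4 : (P1.card : ℝ) ≤ (2 * (n * m) + 1) * (3 * m₂) := by exact_mod_cast e1
    linarith
  · intro x hx y hy hu
    have hnm : 1 ≤ n * m := Nat.one_le_iff_ne_zero.mpr (by positivity)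
    have hmesh : n * α / ((n * m : ℕ) : ℝ) = α / m := by
      push_cast
      field_simp
    obtain ⟨i, hi, hxi⟩ := exists_cell hnα hnm (x₀ := x₀) ⟨by
      have : 1 * α ≤ n * α := mul_le_mul_of_nonneg_right (by exact_mod_cast hn) hα.le
      linarith [hx₀.1], hx₀.2⟩ hx
    rw [hmesh] at hxi
    obtain ⟨j, hj, hyj⟩ := exists_cell hβ hm hy₀ hy
    have hαn : 0 < α / m := by positivity
    have hβn : 0 < β / m := by positivity
    have hsum : (α + β) / m = α / m + β / m := by ring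
    have hwx : x₀ + (i + 1 : ℕ) * (α / m) - (x₀ + i * (α / m)) = α / m := by push_cast; ring
    have hwy : y₀ + (j + 1 : ℕ) * (β / m) - (y₀ + j * (β / m)) = β / m := by push_cast; ring
    -- ranges
    have rx : ∀ s ∈ Icc (x₀ + i * (α / m)) (x₀ + (i + 1 : ℕ) * (α / m)),
        s ∈ Icc (-(n * α)) (2 * (n * α)) := by
      intro s hs
      have hi' : ((i + 1 : ℕ) : ℝ) ≤ 2 * (n * m) := by exact_mod_cast hi
      have e1 : ((i + 1 : ℕ) : ℝ) * (α / m) ≤ 2 * (n * m) * (α / m) :=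
        mul_le_mul_of_nonneg_right hi' hαn.le
      have e2 : 2 * ((n : ℝ) * m) * (α / m) = 2 * (n * α) := by field_simp
      have e3 : 0 ≤ (i : ℝ) * (α / m) := by positivity
      have e4 : 1 * α ≤ n * α := mul_le_mul_of_nonneg_right (by exact_mod_cast hn) hα.le
      exact ⟨by linarith [hs.1, hx₀.1], by linarith [hs.2, hx₀.2]⟩
    have ry : ∀ s ∈ Icc (y₀ + j * (β / m)) (y₀ + (j + 1 : ℕ) * (β / m)), s ∈ Ico (-β) (2 * β) := by
      intro s hs
      have hj' : ((j + 1 : ℕ) : ℝ) ≤ 2 * m := by exact_mod_cast hj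
      have e1 : ((j + 1 : ℕ) : ℝ) * (β / m) ≤ 2 * m * (β / m) :=
        mul_le_mul_of_nonneg_right hj' hβn.le
      have e2 : 2 * (m : ℝ) * (β / m) = 2 * β := by field_simp
      have e3 : 0 ≤ (j : ℝ) * (β / m) := by positivity
      exact ⟨by linarith [hs.1, hy₀.1], by linarith [hs.2, hy₀.2]⟩
    -- distances
    have hdist : ∀ s ∈ Icc (x₀ + i * (α / m)) (x₀ + (i + 1 : ℕ) * (α / m)),
        ∀ t ∈ Icc (y₀ + j * (β / m)) (y₀ + (j + 1 : ℕ) * (β / m)),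
        (⟨x, y⟩ : ℂ) ∈ Metric.closedBall (⟨s, t⟩ : ℂ) ((α + β) / m) := by
      intro s hs t ht
      rw [Metric.mem_closedBall, dist_eq_norm]
      refine (Complex.norm_le_abs_re_add_abs_im _).trans ?_
      rw [hsum]
      refine add_le_add ?_ ?_
      · rw [abs_le]
        simp only [Complex.sub_re]
        constructor <;> linarith [hs.1, hs.2, hxi.1, hxi.2]
      · rw [abs_le]
        simp only [Complex.sub_im]
        constructor <;> linarith [ht.1, ht.2, hyj.1, hyj.2]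
    have lx : x₀ + i * (α / m) ∈ Icc (x₀ + i * (α / m)) (x₀ + (i + 1 : ℕ) * (α / m)) :=
      ⟨le_rfl, by linarith⟩
    have ux : x₀ + (i + 1 : ℕ) * (α / m) ∈ Icc (x₀ + i * (α / m)) (x₀ + (i + 1 : ℕ) * (α / m)) :=
      ⟨by linarith, le_rfl⟩
    have ly : y₀ + j * (β / m) ∈ Icc (y₀ + j * (β / m)) (y₀ + (j + 1 : ℕ) * (β / m)) :=
      ⟨le_rfl, by linarith⟩
    have uy : y₀ + (j + 1 : ℕ) * (β / m) ∈ Icc (y₀ + j * (β / m)) (y₀ + (j + 1 : ℕ) * (β / m)) :=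
      ⟨by linarith, le_rfl⟩
    have memV : ∀ k : ℕ, k < 2 * (n * m) + 1 → ∀ t, t ∈ Ico (-β) (2 * β) →
        u (x₀ + k * (α / m)) t = 0 → (⟨x₀ + k * (α / m), t⟩ : ℂ) ∈ P1 ∪ P2 := by
      intro k hk t ht hut
      refine Finset.mem_union_left _ ?_
      rw [hP1, Finset.mem_biUnion]
      exact ⟨k, Finset.mem_range.mpr hk, Finset.mem_image.mpr ⟨t, (hVm k t).mpr ⟨ht, hut⟩, rfl⟩⟩
    have memH : ∀ k : ℕ, k < 2 * m + 1 → ∀ t, t ∈ Icc (-(n * α)) (2 * (n * α)) →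
        u t (y₀ + k * (β / m)) = 0 → (⟨t, y₀ + k * (β / m)⟩ : ℂ) ∈ P1 ∪ P2 := by
      intro k hk t ht hut
      refine Finset.mem_union_right _ ?_
      rw [hP2, Finset.mem_biUnion]
      exact ⟨k, Finset.mem_range.mpr hk, Finset.mem_image.mpr ⟨t, (hHm k t).mpr ⟨ht, hut⟩, rfl⟩⟩
    rcases h.exists_boundary hq0 hqB hmB (by rw [hwx, hsum]; linarith)
      (by rw [hwy, hsum]; linarith) hxi hyj hu with ⟨t, ht, ht' | ht'⟩ | ⟨s, hs, hs' | hs'⟩
    · exact ⟨_, memV i (by omega) t (ry t ht) ht', hdist _ lx t ht⟩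
    · exact ⟨_, memV (i + 1) (by omega) t (ry t ht) ht', hdist _ ux t ht⟩
    · exact ⟨_, memH j (by omega) s (rx s hs) hs', hdist s hs _ ly⟩
    · exact ⟨_, memH (j + 1) (by omega) s (rx s hs) hs', hdist s hs _ uy⟩

end Pool.Agent.X146.Yau
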