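import Pool.Agent.X146.Yau.Tw
import Pool.Agent.X146.Yau.SphLen
import Pool.Agent.X146.Yau.Sec

set_option autoImplicit false

/-! Yau's upper bound for all tori with a Killing field. -/

namespace Pool.Agent.X146.Yau

open Set Filter Topology MeasureTheory Real
open scoped ContDiff ENNReal

/-- the number of cells near a point -/
lemma card_cells {α r t : ℝ} (hα : 0 < α) (hr : r ≤ α) (n : ℕ) :
    ((Finset.range n).filter
      (fun j : ℕ => t ∈ Icc ((j : ℝ) * α - r) (((j : ℝ) + 1) * α + r))).card ≤ 4 := by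
  classical
  set F := (Finset.range n).filter
      (fun j : ℕ => t ∈ Icc ((j : ℝ) * α - r) (((j : ℝ) + 1) * α + r)) with hF
  have hinj : Function.Injective (fun j : ℕ => (j : ℝ)) := Nat.cast_injective
  have h1 := card_separated (a := t / α - 2) (b := t / α + 1) (d := 1) (by linarith) one_pos
    (F.image (fun j : ℕ => (j : ℝ))) (fun s hs => by
      obtain ⟨j, hj, rfl⟩ := Finset.mem_image.mp hs
      have h2 := (Finset.mem_filter.mp hj).2
      constructor
      · rw [sub_le_iff_le_add, div_le_iff₀ hα]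
        nlinarith [h2.2]
      · rw [← sub_le_iff_le_add, le_div_iff₀ hα]
        nlinarith [h2.1])
    (fun s hs t ht hst => by
      obtain ⟨i, -, rfl⟩ := Finset.mem_image.mp hs
      obtain ⟨j, -, rfl⟩ := Finset.mem_image.mp ht
      have h3 : i < j := by exact_mod_cast hst
      have h4 : ((i + 1 : ℕ) : ℝ) ≤ j := by exact_mod_cast h3
      push_cast at h4
      linarith)
  rw [Finset.card_image_of_injective _ hinj] at h1
  have h2 : (F.card : ℝ) ≤ 4 := by linarith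
  exact_mod_cast h2

/-- covering of one period -/
lemma cover_twist {q u : ℝ → ℝ → ℝ} (h : IsHelm q u) {B : ℝ} (hq0 : ∀ x y, 0 ≤ q x y)
    (hqB : ∀ x y, q x y ≤ B) {α β d τ : ℝ} (hα : 0 < α) (hβ : 0 < β) (hd : 0 < d)
    (hper : ∀ x y, u (x + α) (y + τ) = u x y)
    (hpy : ∀ x, Function.Periodic (fun y => u x y) β) {m₂ : ℕ}
    (h₁ : ∀ y, (∃ x, u x y ≠ 0) → ∃ c, Dens (fun x => u x y) d c)
    (h₂ : ∀ x, (∃ y, u x y ≠ 0) → Few (fun y => u x y) β m₂)
    (hne : ∃ x y, u x y ≠ 0) {m : ℕ} (hm : 1 ≤ m) (hmB : (B + 1) * ((α + β) / m) ^ 2 < 8)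
    (hmα : (α + β) / m ≤ α) :
    ∃ P : Finset ℂ, P.card ≤ (2 * m + 1) * ⌈8 * (3 * m₂ + 3 * α / d + 1)⌉₊ ∧
      {z : ℂ | z.re ∈ Icc 0 α ∧ z.im ∈ Icc 0 β ∧ u z.re z.im = 0} ⊆
        ⋃ p ∈ P, Metric.closedBall p ((α + β) / m) := by
  classical
  obtain ⟨C, hC⟩ := cover_long h hq0 hqB hα hβ hpy h₁ h₂ hne hm hmB
  obtain ⟨n, hn⟩ := exists_nat_ge (max C 1)
  have hnC : C ≤ n := (le_max_left _ _).trans hn
  have hn1 : (1 : ℝ) ≤ n := (le_max_right _ _).trans hn
  have hn1' : 1 ≤ n := by exact_mod_cast hn1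
  have hn0 : (0 : ℝ) < n := by linarith
  obtain ⟨P, hPc, hP⟩ := hC n hn1'
  set r := (α + β) / m with hr
  set R : ℕ → ℂ → Prop := fun j p => p.re ∈ Icc ((j : ℝ) * α - r) (((j : ℝ) + 1) * α + r) with hR
  have hsum : ∑ j ∈ Finset.range n, (P.filter (R j)).card ≤ P.card * 4 := by
    have h1 := Finset.sum_card_bipartiteAbove_eq_sum_card_bipartiteBelow R
      (s := Finset.range n) (t := P)
    have h2 : ∑ j ∈ Finset.range n, (P.filter (R j)).card =
        ∑ p ∈ P, ((Finset.range n).filter (fun j => R j p)).card := h1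
    rw [h2]
    calc ∑ p ∈ P, ((Finset.range n).filter (fun j => R j p)).card ≤ ∑ p ∈ P, 4 :=
          Finset.sum_le_sum fun p _ => card_cells hα hmα n
      _ = P.card * 4 := by rw [Finset.sum_const, smul_eq_mul]
  obtain ⟨j, hj, hjle⟩ := Finset.exists_le_of_sum_le (s := Finset.range n)
    (f := fun j => n * (P.filter (R j)).card) (g := fun _ => 4 * P.card)
    (Finset.nonempty_range_iff.mpr (by omega)) (by
      rw [← Finset.mul_sum, Finset.sum_const, Finset.card_range, smul_eq_mul]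
      refine Nat.mul_le_mul_left n ?_
      rw [mul_comm 4]
      exact hsum)
  have hjn : j < n := Finset.mem_range.mp hj
  set l : ℤ := ⌊(j : ℝ) * τ / β⌋ with hl
  have hl1 : (l : ℝ) * β ≤ j * τ := by
    have := Int.floor_le ((j : ℝ) * τ / β)
    rwa [← hl, le_div_iff₀ hβ] at this
  have hl2 : (j : ℝ) * τ < (l + 1) * β := by
    have := Int.lt_floor_add_one ((j : ℝ) * τ / β)
    rwa [← hl, div_lt_iff₀ hβ] at this
  set v : ℤ → ℂ := fun k => (⟨j * α, j * τ - k * β⟩ : ℂ) with hv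
  have hperj : ∀ (k : ℕ) (x y : ℝ), u (x + k * α) (y + k * τ) = u x y := by
    intro k
    induction k with
    | zero => intro x y; simp
    | succ k ih =>
      intro x y
      have e1 : x + ((k + 1 : ℕ) : ℝ) * α = (x + k * α) + α := by push_cast; ring
      have e2 : y + ((k + 1 : ℕ) : ℝ) * τ = (y + k * τ) + τ := by push_cast; ring
      rw [e1, e2, hper, ih]
  refine ⟨(P.filter (R j)).image (fun p => p - v l) ∪
    (P.filter (R j)).image (fun p => p - v (l + 1)), ?_, ?_⟩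
  · have e1 := Finset.card_union_le ((P.filter (R j)).image (fun p => p - v l))
      ((P.filter (R j)).image (fun p => p - v (l + 1)))
    have e2 := Finset.card_image_le (s := P.filter (R j)) (f := fun p => p - v l)
    have e3 := Finset.card_image_le (s := P.filter (R j)) (f := fun p => p - v (l + 1))
    have e4 : (((P.filter (R j)).image (fun p => p - v l) ∪
        (P.filter (R j)).image (fun p => p - v (l + 1))).card : ℝ) ≤ 2 * (P.filter (R j)).card := by
      exact_mod_cast (by omega)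
    have e5 : (n : ℝ) * (P.filter (R j)).card ≤ 4 * P.card := by exact_mod_cast hjle
    have e6 : (n : ℝ) * (2 * (P.filter (R j)).card) ≤
        n * ((2 * m + 1) * (8 * (3 * m₂ + 3 * α / d + 1))) := by
      have hm0 : (0 : ℝ) ≤ m := Nat.cast_nonneg m
      have hm20 : (0 : ℝ) ≤ m₂ := Nat.cast_nonneg m₂
      have f1 : (2 * ((n : ℝ) * m) + 1) * (3 * m₂) ≤ (n * (2 * m + 1)) * (3 * m₂) := by
        refine mul_le_mul_of_nonneg_right ?_ (by positivity)
        linarith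
      have f2 : (2 * (m : ℝ) + 1) * (3 * (n * α) / d + C) ≤
          (2 * m + 1) * (n * (3 * α / d) + n) := by
        refine mul_le_mul_of_nonneg_left ?_ (by positivity)
        have : 3 * (n * α) / d = n * (3 * α / d) := by ring
        linarith
      calc (n : ℝ) * (2 * (P.filter (R j)).card) = 2 * (n * (P.filter (R j)).card) := by ring
        _ ≤ 8 * P.card := by linarith
        _ ≤ 8 * ((2 * (n * m) + 1) * (3 * m₂) + (2 * m + 1) * (3 * (n * α) / d + C)) := by linarith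
        _ ≤ 8 * ((n * (2 * m + 1)) * (3 * m₂) + (2 * m + 1) * (n * (3 * α / d) + n)) := by linarith
        _ = n * ((2 * m + 1) * (8 * (3 * m₂ + 3 * α / d + 1))) := by ring
    have e7 := le_of_mul_le_mul_left e6 hn0
    have e8 : (2 * (m : ℝ) + 1) * (8 * (3 * m₂ + 3 * α / d + 1)) ≤
        (2 * m + 1) * (⌈8 * (3 * m₂ + 3 * α / d + 1)⌉₊ : ℝ) :=
      mul_le_mul_of_nonneg_left (Nat.le_ceil _) (by positivity)
    have e9 := (e4.trans e7).trans e8
    exact_mod_cast e9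
  · rintro ⟨x, y⟩ ⟨hx, hy, hu⟩
    simp only at hx hy hu
    -- the translate of the point
    obtain ⟨k, hk, hyk⟩ : ∃ k : ℤ, (k = l ∨ k = l + 1) ∧ y + j * τ - k * β ∈ Icc 0 β := by
      rcases le_or_gt (y + j * τ - l * β) β with h1 | h1
      · exact ⟨l, Or.inl rfl, by linarith [hy.1], h1⟩
      · refine ⟨l + 1, Or.inr rfl, ?_, ?_⟩
        · push_cast
          linarith
        · push_cast
          linarith [hy.2]
    have hxj : x + j * α ∈ Icc 0 (n * α) := by
      have e1 : 0 ≤ (j : ℝ) * α := by positivity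
      have e2 : ((j + 1 : ℕ) : ℝ) ≤ n := by exact_mod_cast hjn
      have e3 : ((j + 1 : ℕ) : ℝ) * α ≤ n * α := mul_le_mul_of_nonneg_right e2 hα.le
      push_cast at e3
      exact ⟨by linarith [hx.1], by linarith [hx.2]⟩
    have huj : u (x + j * α) (y + j * τ - k * β) = 0 := by
      have e1 := (hpy (x + j * α)).sub_int_mul_eq k (x := y + j * τ)
      rw [e1, hperj, hu]
    obtain ⟨p, hp, hpz⟩ := hP _ hxj _ hyk huj
    have hpr : R j p := by
      have e1 : |x + j * α - p.re| ≤ r := by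
        have e2 := Complex.abs_re_le_norm ((⟨x + j * α, y + j * τ - k * β⟩ : ℂ) - p)
        rw [Metric.mem_closedBall, dist_eq_norm] at hpz
        simp only [Complex.sub_re] at e2
        exact e2.trans hpz
      rw [abs_le] at e1
      simp only [hR]
      exact ⟨by linarith [e1.1, e1.2, hx.1], by linarith [e1.1, e1.2, hx.2]⟩
    have hz : (⟨x, y⟩ : ℂ) ∈ Metric.closedBall (p - v k) r := by
      rw [Metric.mem_closedBall, dist_eq_norm] at hpz ⊢
      have e : (⟨x, y⟩ : ℂ) - (p - v k) = (⟨x + j * α, y + j * τ - k * β⟩ : ℂ) - p := by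
        apply Complex.ext
        · simp only [hv, Complex.sub_re]
          ring
        · simp only [hv, Complex.sub_im]
          ring
      rw [e]
      exact hpz
    rw [mem_iUnion₂]
    refine ⟨p - v k, ?_, hz⟩
    rw [Finset.mem_union]
    rcases hk with rfl | rfl
    · exact Or.inl (Finset.mem_image_of_mem _ (Finset.mem_filter.mpr ⟨hp, hpr⟩))
    · exact Or.inr (Finset.mem_image_of_mem _ (Finset.mem_filter.mpr ⟨hp, hpr⟩))

theorem twist_le {q u : ℝ → ℝ → ℝ} (h : IsHelm q u) {B : ℝ} (hq0 : ∀ x y, 0 ≤ q x y)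
    (hqB : ∀ x y, q x y ≤ B) {α β d τ : ℝ} (hα : 0 < α) (hβ : 0 < β) (hd : 0 < d)
    (hper : ∀ x y, u (x + α) (y + τ) = u x y)
    (hpy : ∀ x, Function.Periodic (fun y => u x y) β) {m₂ : ℕ}
    (h₁ : ∀ y, (∃ x, u x y ≠ 0) → ∃ c, Dens (fun x => u x y) d c)
    (h₂ : ∀ x, (∃ y, u x y ≠ 0) → Few (fun y => u x y) β m₂)
    (hne : ∃ x y, u x y ≠ 0) :
    μH[1] {z : ℂ | z.re ∈ Icc 0 α ∧ z.im ∈ Icc 0 β ∧ u z.re z.im = 0} ≤
      ENNReal.ofReal (6 * (α + β) * (⌈8 * (3 * m₂ + 3 * α / d + 1)⌉₊ : ℕ)) := by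
  have hlim : Tendsto (fun n : ℕ => (B + 1) * ((α + β) / (n : ℝ)) ^ 2) atTop (𝓝 0) := by
    have h1 := tendsto_const_div_atTop_nhds_zero_nat (α + β)
    have h2 := (h1.pow 2).const_mul (B + 1)
    simpa using h2
  obtain ⟨n₀, hn₀⟩ := ((hlim.eventually_lt_const (show (0 : ℝ) < 8 by norm_num)).and
    ((tendsto_const_div_atTop_nhds_zero_nat (α + β)).eventually_lt_const hα)).exists_forall_of_atTop
  exact length_of_cover (n₀ := n₀) (by positivity) fun n hn hn1 =>
    cover_twist h hq0 hqB hα hβ hd hper hpy h₁ h₂ hne hn1 (hn₀ n hn).1 (hn₀ n hn).2.le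

/-- the lower bound of the spectrum -/
lemma twist_low {q : ℝ → ℝ} (hq : Continuous q) {α τ : ℝ} (hα : 0 < α) {Q₀ : ℝ}
    (hq0 : ∀ x, 0 < q x) (hqQ : ∀ x, q x ≤ Q₀) {u : ℝ × ℝ → ℝ}
    (hu : IsSph q u) (hper : ∀ x y, u (x + α, y + τ) = u (x, y)) (hne : ∃ p, u p ≠ 0) :
    1 ≤ (1 + α) * √Q₀ := by
  by_contra hcon
  push Not at hcon
  have hQ₀ : 0 < Q₀ := (hq0 0).trans_le (hqQ 0)
  have hs0 : 0 < √Q₀ := Real.sqrt_pos.mpr hQ₀
  have hss : √Q₀ * √Q₀ = Q₀ := Real.mul_self_sqrt hQ₀.le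
  have hs1 : √Q₀ < 1 := by nlinarith
  have hs2 : √Q₀ * α < 1 := by nlinarith
  have hQ1 : Q₀ < 1 := by nlinarith
  have hQα : Q₀ * α ^ 2 < 1 := by
    have : Q₀ * α ^ 2 = (√Q₀ * α) * (√Q₀ * α) := by
      calc Q₀ * α ^ 2 = (√Q₀ * √Q₀) * α ^ 2 := by rw [hss]
        _ = _ := by ring
    rw [this]
    have : 0 < √Q₀ * α := by positivity
    nlinarith
  obtain ⟨⟨x₀, θ₀⟩, hp⟩ := hne
  have hK : ∀ k : ℤ, (0 : ℤ) < |k| → ∀ x, q x < (k : ℝ) ^ 2 := by
    intro k hk x
    have h3 : (1 : ℝ) ≤ |(k : ℝ)| := by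
      have : (1 : ℤ) ≤ |k| := hk
      exact_mod_cast this
    rw [← sq_abs]
    nlinarith [hqQ x]
  set φ : ℝ → ℝ := fun x => fc (fun t => u (x, t)) 0 with hφ
  have h0 : IsSol q φ (fun x => fc (fun t => Dx u (x, t)) 0) := by
    have := fc_sol hu 0
    have e : (fun x => q x + -((0 : ℤ) : ℝ) ^ 2) = q := by
      funext x
      simp
    rwa [e] at this
  have hexp : ∀ x θ, u (x, θ) = φ x := by
    intro x θ
    have h2 := expand hu hK x θ
    simp only [neg_zero, Finset.Icc_self, Finset.sum_singleton, Int.cast_zero, zero_mul, cos_zero,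
      sin_zero, mul_one, mul_zero, add_zero] at h2
    exact h2
  have hφp : Function.Periodic φ α := fun x => by
    rw [← hexp (x + α) (0 + τ), ← hexp x 0, hper]
  have hnz := h0.ne_zero (K := Q₀) (fun x => by rw [abs_of_pos (hq0 x)]; exact hqQ x) hα hQα hφp
    ⟨x₀, by rw [← hexp x₀ θ₀]; exact hp⟩
  have h1 := h0.mean_nonpos hα hq hφp hnz
  have h2 : 0 < ∫ x in (0 : ℝ)..α, q x :=
    intervalIntegral.intervalIntegral_pos_of_pos (hq.intervalIntegrable _ _) hq0 hα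
  linarith

/-- periodicity under the whole lattice -/
lemma lattice_bdd {α τ : ℝ} (hα : 0 < α) {u : ℝ × ℝ → ℝ} (hu : Continuous u)
    (hp : ∀ x, Function.Periodic (fun t => u (x, t)) (2 * π))
    (hper : ∀ x y, u (x + α, y + τ) = u (x, y)) : ∃ B, ∀ p, |u p| ≤ B := by
  obtain ⟨B, hB⟩ := ((isCompact_Icc (a := (0 : ℝ)) (b := α)).prod
    (isCompact_Icc (a := (0 : ℝ)) (b := 2 * π))).exists_bound_of_continuousOn (f := u)
    hu.continuousOn
  refine ⟨B, fun ⟨x, y⟩ => ?_⟩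
  set k : ℤ := ⌊x / α⌋ with hk
  have h1 : (k : ℝ) * α ≤ x := by
    have := Int.floor_le (x / α)
    rwa [← hk, le_div_iff₀ hα] at this
  have h2 : x < (k + 1) * α := by
    have := Int.lt_floor_add_one (x / α)
    rwa [← hk, div_lt_iff₀ hα] at this
  have hf : Function.Periodic (fun s : ℝ => u (x - s * α, y - s * τ)) 1 := by
    intro s
    simp only
    have := hper (x - (s + 1) * α) (y - (s + 1) * τ)
    rw [← this]
    congr 2 <;> ring
  have h3 : u (x - k * α, y - k * τ) = u (x, y) := by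
    have := hf.int_mul_eq k
    simpa using this
  obtain ⟨t, ht, ht'⟩ := (hp (x - k * α)).exists_mem_Ico₀ two_pi_pos (y - k * τ)
  rw [h3] at ht'
  rw [ht']
  exact hB (_, t) ⟨⟨by simp only; linarith, by simp only; linarith⟩, mem_Icc_of_Ico ht⟩

/-- **Yau's upper bound for tori with a Killing field.** -/
theorem torus_le {ρ : ℝ → ℝ} (hρ : Continuous ρ) {α τ M lam : ℝ} (hα : 0 < α) (hlam : 0 < lam)
    (hρp : Function.Periodic ρ α) (hρ0 : ∀ x, 0 < ρ x) (hρM : ∀ x, ρ x ≤ M) {u : ℝ × ℝ → ℝ}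
    (hs : ContDiff ℝ ∞ u) (hp : ∀ x, Function.Periodic (fun t => u (x, t)) (2 * π))
    (hper : ∀ x y, u (x + α, y + τ) = u (x, y))
    (heq : ∀ p, Dx (Dx u) p + Dy (Dy u) p = -(lam * ρ p.1 * u p)) (hne : ∃ p, u p ≠ 0) :
    ∫⁻ z in {z : ℂ | z.re ∈ Icc 0 α ∧ z.im ∈ Icc 0 (2 * π) ∧ u (z.re, z.im) = 0},
      ENNReal.ofReal √(ρ z.re) ∂μH[1] ≤ ENNReal.ofReal (7000 * (1 + α) ^ 2 * M * √lam) := by
  have hM : 0 < M := (hρ0 0).trans_le (hρM 0)
  set q : ℝ → ℝ := fun x => lam * ρ x with hq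
  have hqc : Continuous q := hρ.const_mul lam
  have hq0 : ∀ x, 0 < q x := fun x => mul_pos hlam (hρ0 x)
  set Q₀ := lam * M with hQ
  have hQ₀ : 0 < Q₀ := mul_pos hlam hM
  have hqQ : ∀ x, q x ≤ Q₀ := fun x => mul_le_mul_of_nonneg_left (hρM x) hlam.le
  have hu : IsSph q u := ⟨hs, hp, lattice_bdd hα hs.continuous hp hper, heq⟩
  have hlow := twist_low hqc hα hq0 hqQ hu hper hne
  have hs0 : 0 < √Q₀ := Real.sqrt_pos.mpr hQ₀
  have hss : √Q₀ * √Q₀ = Q₀ := Real.mul_self_sqrt hQ₀.le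
  set K : ℤ := ⌊√Q₀⌋ with hKdef
  have hKle : (K : ℝ) ≤ √Q₀ := Int.floor_le _
  have hKlt : √Q₀ < K + 1 := Int.lt_floor_add_one _
  have hK : ∀ k : ℤ, K < |k| → ∀ x, q x < (k : ℝ) ^ 2 := by
    intro k hk x
    have h1 : (K : ℝ) + 1 ≤ |(k : ℝ)| := by
      have : K + 1 ≤ |k| := hk
      exact_mod_cast this
    rw [← sq_abs]
    nlinarith [hqQ x]
  have hKQ : ∀ k ∈ Finset.Icc (-K) K, (k : ℝ) ^ 2 ≤ Q₀ := by
    intro k hk
    have h1 : |k| ≤ K := abs_le.mpr (Finset.mem_Icc.mp hk)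
    have h2 : |(k : ℝ)| ≤ K := by exact_mod_cast h1
    rw [← sq_abs]
    nlinarith [abs_nonneg (k : ℝ)]
  have hH : IsHelm (fun x _ => q x) (fun x y => u (x, y)) := by
    refine ⟨hu.smooth.continuous, fun x y => Dx u (x, y), fun x y => Dx (Dx u) (x, y),
      fun x y => Dy u (x, y), fun x y => Dy (Dy u) (x, y), fun x y => hasDerivAt_Dx hu.smooth x y,
      fun x y => hasDerivAt_Dx (smooth_Dx hu.smooth) x y, fun x y => hasDerivAt_Dy hu.smooth x y,
      fun x y => hasDerivAt_Dy (smooth_Dy hu.smooth) x y, fun x y => hu.eq (x, y)⟩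
  set d : ℝ := 1 / (2 * √Q₀) with hd
  have hd0 : 0 < d := by positivity
  have hKd : Q₀ * d ^ 2 < 1 := by
    have : Q₀ * d ^ 2 = 1 / 4 := by
      rw [hd, div_pow, mul_pow, Real.sq_sqrt hQ₀.le]
      field_simp
      norm_num
    rw [this]
    norm_num
  have key := twist_le hH (B := Q₀) (fun x _ => (hq0 x).le) (fun x _ => hqQ x) hα two_pi_pos hd0
    (τ := τ) hper hu.per (m₂ := ⌊√Q₀ * (2 * π)⌋₊ + 1)
    (fun y hy => line_density hqc hα (fun x => by simp only [hq, hρp x]) (fun x => (hq0 x).le)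
      hqQ hu hK hKQ hd0 hKd y hy)
    (fun x hx => few_circle hu hK hKQ x hx (by
      push_cast
      exact Nat.lt_floor_add_one _))
    (by obtain ⟨⟨x, y⟩, h⟩ := hne; exact ⟨x, y, h⟩)
  set Z : Set ℂ := {z : ℂ | z.re ∈ Icc 0 α ∧ z.im ∈ Icc 0 (2 * π) ∧ u (z.re, z.im) = 0} with hZ
  have hZm : MeasurableSet Z := by
    have h1 : IsClosed Z := by
      have e1 : IsClosed {z : ℂ | z.re ∈ Icc 0 α} := isClosed_Icc.preimage Complex.continuous_re
      have e2 : IsClosed {z : ℂ | z.im ∈ Icc (0 : ℝ) (2 * π)} :=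
        isClosed_Icc.preimage Complex.continuous_im
      have e3 : IsClosed {z : ℂ | u (z.re, z.im) = 0} :=
        isClosed_eq (hs.continuous.comp (Complex.continuous_re.prodMk Complex.continuous_im))
          continuous_const
      exact e1.inter (e2.inter e3)
    exact h1.measurableSet
  have h2 : ((⌊√Q₀ * (2 * π)⌋₊ : ℕ) : ℝ) ≤ √Q₀ * (2 * π) := Nat.floor_le (by positivity)
  have hpi : π < 3.15 := pi_lt_d2
  have h3 : √Q₀ * (2 * π) ≤ √Q₀ * 6.3 := mul_le_mul_of_nonneg_left (by linarith) (by positivity)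
  set s := √Q₀ with hsdef
  have h4 : 3 * α / d = 6 * (α * s) := by
    rw [hd]
    field_simp
    ring
  have hαs : 0 < α * s := mul_pos hα hs0
  have h5 : (⌈8 * (3 * ((⌊s * (2 * π)⌋₊ + 1 : ℕ) : ℝ) + 3 * α / d + 1)⌉₊ : ℝ) ≤
      185 * ((1 + α) * s) := by
    have e1 := Nat.ceil_lt_add_one (a := 8 * (3 * ((⌊s * (2 * π)⌋₊ + 1 : ℕ) : ℝ) + 3 * α / d + 1))
      (by positivity)
    refine e1.le.trans ?_
    rw [h4]
    push_cast
    nlinarith
  have h6 : 6 * (α + 2 * π) ≤ 37.8 * (1 + α) := by nlinarith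
  have h7 : 6 * (α + 2 * π) * (⌈8 * (3 * ((⌊s * (2 * π)⌋₊ + 1 : ℕ) : ℝ) + 3 * α / d + 1)⌉₊ : ℝ) ≤
      7000 * (1 + α) ^ 2 * s := by
    calc _ ≤ 37.8 * (1 + α) * (185 * ((1 + α) * s)) := mul_le_mul h6 h5 (by positivity)
          (by positivity)
      _ = 6993 * ((1 + α) ^ 2 * s) := by ring
      _ ≤ 7000 * (1 + α) ^ 2 * s := by
          have : 0 < (1 + α) ^ 2 * s := by positivity
          linarith
  calc ∫⁻ z in Z, ENNReal.ofReal √(ρ z.re) ∂μH[1]
      ≤ ∫⁻ _ in Z, ENNReal.ofReal √M ∂μH[1] :=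
        setLIntegral_mono' hZm fun z _ => ENNReal.ofReal_le_ofReal (Real.sqrt_le_sqrt (hρM _))
    _ = ENNReal.ofReal √M * μH[1] Z := by rw [setLIntegral_const]
    _ ≤ ENNReal.ofReal √M * ENNReal.ofReal (7000 * (1 + α) ^ 2 * s) :=
        mul_le_mul_right (key.trans (ENNReal.ofReal_le_ofReal h7)) _
    _ = ENNReal.ofReal (7000 * (1 + α) ^ 2 * M * √lam) := by
        rw [← ENNReal.ofReal_mul (Real.sqrt_nonneg _)]
        congr 1
        rw [hsdef, hQ, Real.sqrt_mul hlam.le]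
        have h2 := Real.mul_self_sqrt hM.le
        linear_combination (7000 * (1 + α) ^ 2 * √lam) * h2

end Pool.Agent.X146.Yau
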